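import Pool.Agent.TUR.Enum

namespace TUR

open SimpleGraph

/-- number of vertices -/
def sz : List ℕ → ℕ
  | [] => 0
  | p :: L => sz L + p

/-- numbering of the vertices -/
def eqv : (L : List ℕ) → Vt L ≃ Fin (sz L)
  | [] => show Empty ≃ Fin 0 from Equiv.equivOfIsEmpty _ _
  | p :: L => (Equiv.sumCongr (eqv L) (Equiv.refl (Fin p))).trans finSumFinEquiv

theorem F_flat {k : ℕ} {T : Fin k → Fin k → Prop} (hT : IsTournament T) (p : ℕ) (L : List ℕ) :
    F T (p :: L) = ∑ σ ∈ free T ((Gt L).comap (eqv L).symm), ea T σ ^ p := by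
  have e : (Gt L).comap (eqv L).symm ≃g Gt L :=
    { toEquiv := (eqv L).symm, map_rel_iff' := Iff.rfl }
  have h1 := nf_cone (B := Fin p) hT ((Gt L).comap (eqv L).symm)
  rw [Fintype.card_fin] at h1
  rw [← h1]
  exact (nf_congr T (coneIso e (Equiv.refl (Fin p)))).symm

/-- `W`: a vertex dominating a cyclic triangle -/
def TW : Fin 4 → Fin 4 → Bool :=
  ![![false, true, true, true], ![false, false, true, false], ![false, false, false, true],
    ![false, true, false, false]]

/-- the strong tournament on four vertices -/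
def TS : Fin 4 → Fin 4 → Bool :=
  ![![false, true, false, false], ![false, false, true, true], ![true, false, false, true],
    ![true, false, false, false]]

/-- the transitive tournament on four vertices -/
def TT : Fin 4 → Fin 4 → Bool :=
  ![![false, true, true, true], ![false, false, true, true], ![false, false, false, true],
    ![false, false, false, false]]

theorem isTour_of {TB : Fin 4 → Fin 4 → Bool} (h1 : ∀ i, TB i i = false)
    (h2 : ∀ i j, i ≠ j → TB i j = !TB j i) : IsTournament (toP TB) := by
  constructor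
  · intro u v h
    rw [top_adj]
    rintro rfl
    unfold toP at h
    rw [h1] at h
    exact Bool.false_ne_true h
  · intro u v h
    rw [top_adj] at h
    unfold toP
    rw [h2 u v h]
    simp

theorem isTourW : IsTournament (toP TW) := isTour_of (by decide) (by decide)
theorem isTourS : IsTournament (toP TS) := isTour_of (by decide) (by decide)
theorem isTourT : IsTournament (toP TT) := isTour_of (by decide) (by decide)

def tqW : ℕ := 18719185865539620
def tpW : ℕ := 2594073488453091840

theorem tabW : TabOK TW tqW tpW := by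
  refine ⟨by decide +kernel, by decide +kernel⟩

def tqS : ℕ := 48542219252937984
def tpS : ℕ := 14968922637118464

theorem tabS : TabOK TS tqS tpS := by
  refine ⟨by decide +kernel, by decide +kernel⟩

def tqT : ℕ := 15785409180137982171
def tpT : ℕ := 15818982476753801691

theorem tabT : TabOK TT tqT tpT := by
  refine ⟨by decide +kernel, by decide +kernel⟩

theorem patW : PatProp TW := by unfold PatProp; decide +kernel

theorem patS : PatProp TS := by unfold PatProp; decide +kernel

/-- the complete multipartite graph with part sizes [1, 1, 1] on `Fin 3` -/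
def G111 : SimpleGraph (Fin 3) := (Gt [1, 1, 1]).comap (eqv [1, 1, 1]).symm

def es111 : List (Fin 3 × Fin 3) :=
  [(0, 1), (0, 2), (1, 2)]

def qs111 : List (ℕ × ℕ × ℕ × ℕ × ℕ × ℕ) :=
  []

theorem E111 : ESpec G111 es111 := by
  refine ⟨by decide, by decide, fun i j => ?_⟩
  have h : G111.Adj i j ↔ blk [1, 1, 1] ((eqv [1, 1, 1]).symm i) ≠ blk [1, 1, 1] ((eqv [1, 1, 1]).symm j) :=
    Gt_adj [1, 1, 1] ((eqv [1, 1, 1]).symm i) ((eqv [1, 1, 1]).symm j)
  rw [h]
  clear h
  revert i j
  decide +kernel

set_option synthInstance.maxSize 4096 in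
theorem Q111 : QSpec es111 qs111 := by
  refine ⟨by decide +kernel, by decide +kernel⟩

/-- the complete multipartite graph with part sizes [1, 1, 1, 1] on `Fin 4` -/
def G1111 : SimpleGraph (Fin 4) := (Gt [1, 1, 1, 1]).comap (eqv [1, 1, 1, 1]).symm

def es1111 : List (Fin 4 × Fin 4) :=
  [(0, 1), (0, 2), (1, 2), (0, 3), (1, 3), (2, 3)]

def qs1111 : List (ℕ × ℕ × ℕ × ℕ × ℕ × ℕ) :=
  [(0, 1, 2, 3, 4, 5)]

theorem E1111 : ESpec G1111 es1111 := by
  refine ⟨by decide, by decide, fun i j => ?_⟩
  have h : G1111.Adj i j ↔ blk [1, 1, 1, 1] ((eqv [1, 1, 1, 1]).symm i) ≠ blk [1, 1, 1, 1] ((eqv [1, 1, 1, 1]).symm j) :=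
    Gt_adj [1, 1, 1, 1] ((eqv [1, 1, 1, 1]).symm i) ((eqv [1, 1, 1, 1]).symm j)
  rw [h]
  clear h
  revert i j
  decide +kernel

set_option synthInstance.maxSize 4096 in
theorem Q1111 : QSpec es1111 qs1111 := by
  refine ⟨by decide +kernel, by decide +kernel⟩

/-- the complete multipartite graph with part sizes [1, 1, 1, 1, 1] on `Fin 5` -/
def G11111 : SimpleGraph (Fin 5) := (Gt [1, 1, 1, 1, 1]).comap (eqv [1, 1, 1, 1, 1]).symm

def es11111 : List (Fin 5 × Fin 5) :=
  [(0, 1), (0, 2), (1, 2), (0, 3), (1, 3), (2, 3), (0, 4), (1, 4), (2, 4), (3, 4)]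

def qs11111 : List (ℕ × ℕ × ℕ × ℕ × ℕ × ℕ) :=
  [(0, 1, 2, 3, 4, 5), (0, 1, 2, 6, 7, 8), (0, 3, 4, 6, 7, 9), (1, 3, 5, 6, 8, 9), (2, 4, 5, 7, 8, 9)]

theorem E11111 : ESpec G11111 es11111 := by
  refine ⟨by decide, by decide, fun i j => ?_⟩
  have h : G11111.Adj i j ↔ blk [1, 1, 1, 1, 1] ((eqv [1, 1, 1, 1, 1]).symm i) ≠ blk [1, 1, 1, 1, 1] ((eqv [1, 1, 1, 1, 1]).symm j) :=
    Gt_adj [1, 1, 1, 1, 1] ((eqv [1, 1, 1, 1, 1]).symm i) ((eqv [1, 1, 1, 1, 1]).symm j)
  rw [h]
  clear h
  revert i j
  decide +kernel

set_option synthInstance.maxSize 4096 in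
theorem Q11111 : QSpec es11111 qs11111 := by
  refine ⟨by decide +kernel, by decide +kernel⟩

/-- the complete multipartite graph with part sizes [2, 1, 1] on `Fin 4` -/
def G211 : SimpleGraph (Fin 4) := (Gt [2, 1, 1]).comap (eqv [2, 1, 1]).symm

def es211 : List (Fin 4 × Fin 4) :=
  [(0, 1), (0, 2), (1, 2), (0, 3), (1, 3)]

def qs211 : List (ℕ × ℕ × ℕ × ℕ × ℕ × ℕ) :=
  []

theorem E211 : ESpec G211 es211 := by
  refine ⟨by decide, by decide, fun i j => ?_⟩
  have h : G211.Adj i j ↔ blk [2, 1, 1] ((eqv [2, 1, 1]).symm i) ≠ blk [2, 1, 1] ((eqv [2, 1, 1]).symm j) :=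
    Gt_adj [2, 1, 1] ((eqv [2, 1, 1]).symm i) ((eqv [2, 1, 1]).symm j)
  rw [h]
  clear h
  revert i j
  decide +kernel

set_option synthInstance.maxSize 4096 in
theorem Q211 : QSpec es211 qs211 := by
  refine ⟨by decide +kernel, by decide +kernel⟩

/-- the complete multipartite graph with part sizes [2, 2, 1] on `Fin 5` -/
def G221 : SimpleGraph (Fin 5) := (Gt [2, 2, 1]).comap (eqv [2, 2, 1]).symm

def es221 : List (Fin 5 × Fin 5) :=
  [(0, 1), (0, 2), (0, 3), (1, 3), (2, 3), (0, 4), (1, 4), (2, 4)]

def qs221 : List (ℕ × ℕ × ℕ × ℕ × ℕ × ℕ) :=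
  []

theorem E221 : ESpec G221 es221 := by
  refine ⟨by decide, by decide, fun i j => ?_⟩
  have h : G221.Adj i j ↔ blk [2, 2, 1] ((eqv [2, 2, 1]).symm i) ≠ blk [2, 2, 1] ((eqv [2, 2, 1]).symm j) :=
    Gt_adj [2, 2, 1] ((eqv [2, 2, 1]).symm i) ((eqv [2, 2, 1]).symm j)
  rw [h]
  clear h
  revert i j
  decide +kernel

set_option synthInstance.maxSize 4096 in
theorem Q221 : QSpec es221 qs221 := by
  refine ⟨by decide +kernel, by decide +kernel⟩

/-- the complete multipartite graph with part sizes [2, 1, 1, 1] on `Fin 5` -/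
def G2111 : SimpleGraph (Fin 5) := (Gt [2, 1, 1, 1]).comap (eqv [2, 1, 1, 1]).symm

def es2111 : List (Fin 5 × Fin 5) :=
  [(0, 1), (0, 2), (1, 2), (0, 3), (1, 3), (2, 3), (0, 4), (1, 4), (2, 4)]

def qs2111 : List (ℕ × ℕ × ℕ × ℕ × ℕ × ℕ) :=
  [(0, 1, 2, 3, 4, 5), (0, 1, 2, 6, 7, 8)]

theorem E2111 : ESpec G2111 es2111 := by
  refine ⟨by decide, by decide, fun i j => ?_⟩
  have h : G2111.Adj i j ↔ blk [2, 1, 1, 1] ((eqv [2, 1, 1, 1]).symm i) ≠ blk [2, 1, 1, 1] ((eqv [2, 1, 1, 1]).symm j) :=
    Gt_adj [2, 1, 1, 1] ((eqv [2, 1, 1, 1]).symm i) ((eqv [2, 1, 1, 1]).symm j)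
  rw [h]
  clear h
  revert i j
  decide +kernel

set_option synthInstance.maxSize 4096 in
theorem Q2111 : QSpec es2111 qs2111 := by
  refine ⟨by decide +kernel, by decide +kernel⟩

def ts111S : List (ℕ × ℕ × ℕ × ℕ) :=
  [(0, 1, 2, 724092471201378384)]

set_option synthInstance.maxSize 4096 in
theorem T111S : TSpec tpS es111 ts111S := by
  refine ⟨by decide +kernel, by decide +kernel⟩

def ts111T : List (ℕ × ℕ × ℕ × ℕ) :=
  [(0, 1, 2, 15109858928189541771)]

set_option synthInstance.maxSize 4096 in
theorem T111T : TSpec tpT es111 ts111T := by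
  refine ⟨by decide +kernel, by decide +kernel⟩

def ts1111S : List (ℕ × ℕ × ℕ × ℕ) :=
  [(0, 1, 2, 13344447305235459265060535566035079248), (0, 3, 4, 882706665612836498342490740325635328), (1, 3, 5, 882709510413610774004297335171994880), (2, 4, 5, 1059247593702540744851902044416520960)]

set_option synthInstance.maxSize 4096 in
theorem T1111S : TSpec tpS es1111 ts1111S := by
  refine ⟨by decide +kernel, by decide +kernel⟩

def ts1111T : List (ℕ × ℕ × ℕ × ℕ) :=
  [(0, 1, 2, 278897445172366580548518130417241262987), (0, 3, 4, 293851450272536949344099106143717918907), (1, 3, 5, 325690370269419317709542257877178491055), (2, 4, 5, 323022178562783568693853321308178464975)]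

set_option synthInstance.maxSize 4096 in
theorem T1111T : TSpec tpT es1111 ts1111T := by
  refine ⟨by decide +kernel, by decide +kernel⟩

def ts11111W : List (ℕ × ℕ × ℕ × ℕ) :=
  [(0, 1, 2, 1816346497628803486866264623295887035691329481605940347751747431088812983300), (0, 3, 4, 120147433695290506148620702575241377418959223844136731937330457538847834180), (0, 6, 7, 471152028009977243751918691141319072506989657485223331110092162113487940), (1, 3, 5, 141349921982117946505416190145121444754033321359153796881036493838472970320), (1, 6, 8, 554296503492753244151837653743005153203435418113100309431701827496202320), (3, 6, 9, 586648439478269197614841141136657324680651667384647771813651113637336320), (2, 4, 5, 84809953191739064755791004104634234349531365309999634241112459713652457520), (2, 7, 8, 332577902105333600475192869184257467783763368084868979382248666021507120), (4, 7, 9, 351989063687604283978636819250522486151906523277289770902970851355800320), (5, 8, 9, 103526195203370846010891066665203245356764605987146005232838808940056320)]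

set_option synthInstance.maxSize 4096 in
theorem T11111W : TSpec tpW es11111 ts11111W := by
  refine ⟨by decide +kernel, by decide +kernel⟩

def ts11111S : List (ℕ × ℕ × ℕ × ℕ) :=
  [(0, 1, 2, 4540866244812085679551375401668735767871596598139283386548626772307876008016), (0, 3, 4, 300368584287180767530773447943675778212658294781003137640239096944778040576), (0, 6, 7, 1177880070216910271770694780963457047775393294382024819200834423164829696), (1, 3, 5, 300368584301990533934988898347462528472624211883643554407399826730778645760), (1, 6, 8, 1177880070274985426253968687416386970037322054155384380279675170697052160), (3, 6, 9, 1177880070297582762628783437008966706326010287530232458520469235884687360), (2, 4, 5, 360442301142642283478115907188693990218890074123728415964650502527431750400), (2, 7, 8, 1413456084252546929077812088617352398540626945571607099078050725219205120), (4, 7, 9, 1413456084275144219477059080742826517355004915122851305795594982100500480), (5, 8, 9, 1662889510839621056139939174108089846679822756103271261733963419270184960)]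

set_option synthInstance.maxSize 4096 in
theorem T11111S : TSpec tpS es11111 ts11111S := by
  refine ⟨by decide +kernel, by decide +kernel⟩

def ts211S : List (ℕ × ℕ × ℕ × ℕ) :=
  [(0, 1, 2, 13344447305235459265060535566035079248), (0, 3, 4, 882706665612836498342490740325635328)]

set_option synthInstance.maxSize 4096 in
theorem T211S : TSpec tpS es211 ts211S := by
  refine ⟨by decide +kernel, by decide +kernel⟩

def ts221W : List (ℕ × ℕ × ℕ × ℕ) :=
  [(0, 2, 3, 120147433695290506148620702575241377418959223844136731937330457538847834180), (0, 5, 6, 471152028009977243751918691141319072506989657485223331110092162113487940), (1, 2, 4, 141349921982117946505416190145121444754033321359153796881036493838472970320), (1, 5, 7, 554296503492753244151837653743005153203435418113100309431701827496202320)]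

set_option synthInstance.maxSize 4096 in
theorem T221W : TSpec tpW es221 ts221W := by
  refine ⟨by decide +kernel, by decide +kernel⟩

def ts2111W : List (ℕ × ℕ × ℕ × ℕ) :=
  [(0, 1, 2, 1816346497628803486866264623295887035691329481605940347751747431088812983300), (0, 3, 4, 120147433695290506148620702575241377418959223844136731937330457538847834180), (0, 6, 7, 471152028009977243751918691141319072506989657485223331110092162113487940), (1, 3, 5, 141349921982117946505416190145121444754033321359153796881036493838472970320), (1, 6, 8, 554296503492753244151837653743005153203435418113100309431701827496202320), (2, 4, 5, 84809953191739064755791004104634234349531365309999634241112459713652457520), (2, 7, 8, 332577902105333600475192869184257467783763368084868979382248666021507120)]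

set_option synthInstance.maxSize 4096 in
theorem T2111W : TSpec tpW es2111 ts2111W := by
  refine ⟨by decide +kernel, by decide +kernel⟩

theorem val221W2 : F (toP TW) (2 :: [2, 2, 1]) = 91144 := by
  rw [F_flat isTourW]
  refine (flat_sum E221 isTourW tabW Q221 T221W (kk := 4) (by norm_num) 2).trans ?_
  decide +kernel

theorem val2111W2 : F (toP TW) (2 :: [2, 1, 1, 1]) = 76352 := by
  rw [F_flat isTourW]
  refine (flat_sum E2111 isTourW tabW Q2111 T2111W (kk := 4) (by norm_num) 2).trans ?_
  decide +kernel

theorem val11111W1 : F (toP TW) (1 :: [1, 1, 1, 1, 1]) = 6384 := by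
  rw [F_flat isTourW]
  refine (flat_sum E11111 isTourW tabW Q11111 T11111W (kk := 4) (by norm_num) 1).trans ?_
  decide +kernel

theorem val111S1 : F (toP TS) (1 :: [1, 1, 1]) = 40 := by
  rw [F_flat isTourS]
  refine (flat_sum E111 isTourS tabS Q111 T111S (kk := 1) (by norm_num) 1).trans ?_
  decide +kernel

theorem val111S2 : F (toP TS) (2 :: [1, 1, 1]) = 224 := by
  rw [F_flat isTourS]
  refine (flat_sum E111 isTourS tabS Q111 T111S (kk := 1) (by norm_num) 2).trans ?_
  decide +kernel

theorem val1111S1 : F (toP TS) (1 :: [1, 1, 1, 1]) = 240 := by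
  rw [F_flat isTourS]
  refine (flat_sum E1111 isTourS tabS Q1111 T1111S (kk := 2) (by norm_num) 1).trans ?_
  decide +kernel

theorem val211S2 : F (toP TS) (2 :: [2, 1, 1]) = 1956 := by
  rw [F_flat isTourS]
  refine (flat_sum E211 isTourS tabS Q211 T211S (kk := 2) (by norm_num) 2).trans ?_
  decide +kernel

theorem val11111S1 : F (toP TS) (1 :: [1, 1, 1, 1, 1]) = 1760 := by
  rw [F_flat isTourS]
  refine (flat_sum E11111 isTourS tabS Q11111 T11111S (kk := 4) (by norm_num) 1).trans ?_
  decide +kernel

theorem val111T1 : F (toP TT) (1 :: [1, 1, 1]) = 40 := by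
  rw [F_flat isTourT]
  refine (flat_sum E111 isTourT tabT Q111 T111T (kk := 1) (by norm_num) 1).trans ?_
  decide +kernel

end TUR
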