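import Pool.Agent.TUR.Base

namespace TUR

open SimpleGraph

/-- the complete multipartite graph with part sizes [2, 2, 2] on `Fin 6` -/
def G222 : SimpleGraph (Fin 6) := (Gt [2, 2, 2]).comap (eqv [2, 2, 2]).symm

def es222 : List (Fin 6 × Fin 6) :=
  [(0, 2), (1, 2), (0, 3), (1, 3), (0, 4), (1, 4), (2, 4), (3, 4), (0, 5), (1, 5), (2, 5), (3, 5)]

def qs222 : List (ℕ × ℕ × ℕ × ℕ × ℕ × ℕ) :=
  []

theorem E222 : ESpec G222 es222 := by
  refine ⟨by decide, by decide, fun i j => ?_⟩
  have h : G222.Adj i j ↔ blk [2, 2, 2] ((eqv [2, 2, 2]).symm i) ≠ blk [2, 2, 2] ((eqv [2, 2, 2]).symm j) :=
    Gt_adj [2, 2, 2] ((eqv [2, 2, 2]).symm i) ((eqv [2, 2, 2]).symm j)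
  rw [h]
  clear h
  revert i j
  decide +kernel

set_option synthInstance.maxSize 4096 in
theorem Q222 : QSpec es222 qs222 := by
  refine ⟨by decide +kernel, by decide +kernel⟩

def ts222W : List (ℕ × ℕ × ℕ × ℕ) :=
  [(0, 4, 6, 64183150209440604449158238657329364972965911663648855220568268155844851300931544221405758691890228766894773427979711955833460684776002967095769845840), (0, 8, 10, 979372093988754041445378550688316616353551861259173204935198284579992994026372335349634286872190632179350294422177957327803103979064546196213840), (2, 4, 7, 67929248470692001595564730814421060998206994552911232514169541165644258285257945871362334906119189598777236715820206858581327132986186249971779523840), (2, 8, 11, 1036533889357747467982298297694603514773592015042970149207149944051322282921179401304674975165665373687261432252914421550106276215684597893059840), (1, 5, 6, 38509890125664362669755896360250279925737963372677022297115730131529780004617115542928320079770700988365529450714506979094727848176927226759902933040), (1, 9, 10, 587623256393252424871209020497727234144621083711202991454180930009542114462479204322787695072225406325232943974676144325182393457270440779067440), (3, 5, 7, 40757549082415200957356099982113722274208908912338474064590450181793163764917993218321595203716736318961650864930530955081466476753822682231429149440),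 (3, 9, 11, 621920333614648480789642372139031081967756360675920161717042048177633607073687993223288019757727237645177424907567917775147730197360442483946240)]

set_option synthInstance.maxSize 4096 in
theorem T222W : TSpec tpW es222 ts222W := by
  refine ⟨by decide +kernel, by decide +kernel⟩

theorem val222W2 : F (toP TW) (2 :: [2, 2, 2]) = 2119144 := by
  rw [F_flat isTourW]
  refine (flat_sum E222 isTourW tabW Q222 T222W (kk := 8) (by norm_num) 2).trans ?_
  decide +kernel

end TUR
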