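import Pool.Agent.TUR.Base

namespace TUR

set_option linter.constructorNameAsVariable false
set_option maxRecDepth 8000

open SimpleGraph

/-- the complete multipartite graph with part sizes [1, 1, 1, 1, 1, 1] on `Fin 6` -/
def G111111 : SimpleGraph (Fin 6) := (Gt [1, 1, 1, 1, 1, 1]).comap (eqv [1, 1, 1, 1, 1, 1]).symm

def es111111 : List (Fin 6 × Fin 6) :=
  [(0, 1), (0, 2), (1, 2), (0, 3), (1, 3), (2, 3), (0, 4), (1, 4), (2, 4), (3, 4), (0, 5), (1, 5), (2, 5), (3, 5), (4, 5)]

def qs111111 : List (ℕ × ℕ × ℕ × ℕ × ℕ × ℕ) :=
  [(0, 1, 2, 3, 4, 5), (0, 1, 2, 6, 7, 8), (0, 1, 2, 10, 11, 12), (0, 3, 4, 6, 7, 9), (0, 3, 4, 10, 11, 13), (0, 6, 7, 10, 11, 14), (1, 3, 5, 6, 8, 9), (1, 3, 5, 10, 12, 13), (1, 6, 8, 10, 12, 14), (3, 6, 9, 10, 13, 14), (2, 4, 5, 7, 8, 9), (2, 4, 5, 11, 12, 13), (2, 7, 8, 11, 12, 14), (4, 7, 9, 11, 13, 14), (5, 8, 9, 12, 13, 14)]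

theorem E111111 : ESpec G111111 es111111 := by
  refine ⟨by decide, by decide, fun i j => ?_⟩
  have h : G111111.Adj i j ↔ blk [1, 1, 1, 1, 1, 1] ((eqv [1, 1, 1, 1, 1, 1]).symm i) ≠ blk [1, 1, 1, 1, 1, 1] ((eqv [1, 1, 1, 1, 1, 1]).symm j) :=
    Gt_adj [1, 1, 1, 1, 1, 1] ((eqv [1, 1, 1, 1, 1, 1]).symm i) ((eqv [1, 1, 1, 1, 1, 1]).symm j)
  rw [h]
  clear h
  revert i j
  decide +kernel

set_option synthInstance.maxSize 4096 in
theorem Q111111 : QSpec es111111 qs111111 := by
  refine ⟨by decide +kernel, by decide +kernel⟩

def ts111111W : List (ℕ × ℕ × ℕ × ℕ) :=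
  [(0, 1, 2, 210318555763805444693499696251890865622680268420938309108607417874930876117423577356211274744186286125227939107994132086638300577472661445335139146269700), (0, 3, 4, 13912122365699192839647839829891613698945608390250757174236625247739554598514260741572680962310305637209126652136111268210980387821606446892617509896260), (0, 6, 7, 54555677678024513782893553813603706188096328638244545576012996520660375351212691981017357821321799428956842778229640055771443912875831930104424973380), (0, 10, 11, 832466279890440935245494800882159287414048666034815058156282519738676721566718175845179717957960546504018670197185244276483951330951013335319620), (1, 3, 5, 16367202783175520987488262594884797581039272950905395231116208846649395459445491813935414768150008307560534725398072290828762131752356590701482223861840), (1, 6, 8, 64183150209440604449158238657329364972965911663648855220568268155844851300931544221405758691890228766894773427979711955833460684776002967095769845840), (1, 10, 12, 979372093988754041445378550688316616353551861259173204935198284579992994026372335349634286872190632179350294422177957327803103979064546196213840),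 (3, 6, 9, 67929248470692001595564730814421060998206994552911232514169541165644258285257945871362334906119189598777236715820206858581327132986186249971779523840), (3, 10, 13, 1036533889357747467982298297694603514773592015042970149207149944051322282921179401304674975165665373687261432252914421550106276215684597893059840), (6, 10, 14, 1040566972071118931496141117935949176282270558020162835328173251090024491320245392622191921969288170042489488180548054620950682710063820607651840), (2, 4, 5, 9820321669905312592559502644987239917531830118185571485191795133729474208108861909443066936602954647969391634387301743080208819192861859623816414625840), (2, 7, 8, 38509890125664362669755896360250279925737963372677022297115730131529780004617115542928320079770700988365529450714506979094727848176927226759902933040), (2, 11, 12, 587623256393252424871209020497727234144621083711202991454180930009542114462479204322787695072225406325232943974676144325182393457270440779067440), (4, 7, 9, 40757549082415200957356099982113722274208908912338474064590450181793163764917993218321595203716736318961650864930530955081466476753822682231429149440),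 (4, 11, 13, 621920333614648480789642372139031081967756360675920161717042048177633607073687993223288019757727237645177424907567917775147730197360442483946240), (7, 11, 14, 624340183242671358897685703661520500042037721139243966518840571308220223211659359625105519816407990014425685887376141533217823687849420738723840), (5, 8, 9, 11987514436004470869841079100847128331152112351732023941506706787127298978675690409219635518820021081509854081635579998434555193684261257565175811840), (5, 12, 13, 182917745180778964938594921550777917820400961934337822021633687840786773823402972901819478737557446541794358306612796131073975589723101462531840), (8, 12, 14, 183629465659609223205203500312125431081791187971212223073664792715721586390803559981131682242770152337652248165194115910912443546681232642211840), (9, 13, 14, 12146696172036407760657895896018400357959852108164852083324022835371922258174844166355869957307958689102272397808113723244980456732521320611840)]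

set_option synthInstance.maxSize 4096 in
theorem T111111W : TSpec tpW es111111 ts111111W := by
  refine ⟨by decide +kernel, by decide +kernel⟩


/-- the pruned summand -/
def g7 (c : ℕ) : ℕ :=
  if okQ tqW qs11111 c then
    sumB (fun z => if Nat.beq (bt (badM 32 ts11111W c) (31 - z)) 0 then
      64 - pop8 8 (badM 64 ts111111W (c + 1024 * z)) else 0) 5 0
  else 0

theorem g7_sum : sumB g7 10 0 = 85728 := by
  unfold g7
  decide +kernel

theorem bits_low (c z t : ℕ) (hc : c < 1024) (ht : t < 10) :
    (c + 1024 * z).testBit t = c.testBit t := by
  have := Nat.testBit_two_pow_mul_add z (show c < 2 ^ 10 from hc) t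
  rw [show c + 1024 * z = 2 ^ 10 * z + c by ring, this, if_pos ht]

theorem bits_high (c z t : ℕ) (hc : c < 1024) :
    (c + 1024 * z).testBit (10 + t) = z.testBit t := by
  have := Nat.testBit_two_pow_mul_add z (show c < 2 ^ 10 from hc) (10 + t)
  rw [show c + 1024 * z = 2 ^ 10 * z + c by ring, this, if_neg (by omega)]
  congr 1
  omega

theorem bits_compl : ∀ z < 32, ∀ i : Fin 5, (31 - z).testBit i = !z.testBit i := by decide +kernel

theorem q5_sub : ∀ q ∈ qs11111, q ∈ qs111111 ∧ q.1 < 10 ∧ q.2.1 < 10 ∧ q.2.2.1 < 10 ∧
    q.2.2.2.1 < 10 ∧ q.2.2.2.2.1 < 10 ∧ q.2.2.2.2.2 < 10 := by decide +kernel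

theorem q5_new : ∀ i j l : Fin 5, i < j → j < l →
    (es11111.idxOf (i, j), es11111.idxOf (i, l), es11111.idxOf (j, l), 10 + (i : ℕ), 10 + (j : ℕ),
      10 + (l : ℕ)) ∈ qs111111 ∧ es11111.idxOf (i, j) < 10 ∧ es11111.idxOf (i, l) < 10 ∧
      es11111.idxOf (j, l) < 10 := by decide +kernel

theorem prune (c z : ℕ) (hc : c < 1024) (hz : z < 32)
    (hok : okQ tqW qs111111 (c + 1024 * z) = true) :
    okQ tqW qs11111 c = true ∧ Nat.beq (bt (badM 32 ts11111W c) (31 - z)) 0 = true := by
  rw [okQ_iff] at hok
  constructor
  · rw [okQ_iff]
    intro q hq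
    obtain ⟨h0, h1, h2, h3, h4, h5, h6⟩ := q5_sub q hq
    have := hok q h0
    rw [bits_low _ _ _ hc h1, bits_low _ _ _ hc h2, bits_low _ _ _ hc h3, bits_low _ _ _ hc h4,
      bits_low _ _ _ hc h5, bits_low _ _ _ hc h6] at this
    exact this
  · rw [beq_bt]
    by_contra hcon
    rw [Bool.not_eq_false, badM_testBit _ _ _ _ (by omega)] at hcon
    obtain ⟨q, hq, hb⟩ := hcon
    obtain ⟨i, j, l, hij, hjl, m1, m2, m3, e1, e2, e3, e4⟩ := T11111W.real q hq
    have e5 := e4 (c.testBit q.1) (c.testBit q.2.1) (c.testBit q.2.2.1) (31 - z) (by omega)
    rw [show (2 : ℕ) ^ 5 = 32 from rfl, hb, bits_compl z hz i, bits_compl z hz j,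
      bits_compl z hz l] at e5
    have e6 := (tabW.hp _ _ _ _ _ _).1 e5.symm
    rw [← tabW.hq] at e6
    obtain ⟨n0, n1, n2, n3⟩ := q5_new i j l hij hjl
    have e7 := hok _ n0
    simp only at e7
    rw [bits_low _ _ _ hc n1, bits_low _ _ _ hc n2, bits_low _ _ _ hc n3, bits_high _ _ _ hc,
      bits_high _ _ _ hc, bits_high _ _ _ hc, ← e1, ← e2, ← e3, e6] at e7
    exact absurd e7 (by decide)

theorem sum_split (f : ℕ → ℕ) : ∑ c ∈ Finset.range (2 ^ 15), f c =
    ∑ c ∈ Finset.range (2 ^ 10), ∑ z ∈ Finset.range (2 ^ 5), f (c + 1024 * z) := by
  rw [← Finset.sum_product', eq_comm]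
  refine Finset.sum_bij' (fun p _ => p.1 + 1024 * p.2) (fun c _ => (c % 1024, c / 1024)) ?_ ?_ ?_ ?_ ?_
  · intro p hp
    rw [Finset.mem_product, Finset.mem_range, Finset.mem_range] at hp
    rw [Finset.mem_range]
    omega
  · intro c hc
    rw [Finset.mem_range] at hc
    rw [Finset.mem_product, Finset.mem_range, Finset.mem_range]
    constructor
    · show c % 1024 < 2 ^ 10
      omega
    · show c / 1024 < 2 ^ 5
      omega
  · intro p hp
    rw [Finset.mem_product, Finset.mem_range, Finset.mem_range] at hp
    ext
    · show (p.1 + 1024 * p.2) % 1024 = p.1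
      omega
    · show (p.1 + 1024 * p.2) / 1024 = p.2
      omega
  · intro c hc
    show c % 1024 + 1024 * (c / 1024) = c
    omega
  · intro p _
    rfl

theorem valK7 : F (toP TW) [1, 1, 1, 1, 1, 1, 1] ≤ 85728 := by
  rw [F_flat isTourW]
  refine (flat_sum E111111 isTourW tabW Q111111 T111111W (kk := 8) (by norm_num) 1).trans_le ?_
  rw [← g7_sum, sumB_eq, sumB_eq]
  have h15 : es111111.length = 15 := rfl
  rw [h15, sum_split]
  refine Finset.sum_le_sum fun c hc => ?_
  rw [Finset.mem_range] at hc
  rw [zero_add]
  by_cases h5 : okQ tqW qs11111 c = true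
  · unfold g7
    rw [if_pos h5, sumB_eq]
    refine Finset.sum_le_sum fun z hz => ?_
    rw [Finset.mem_range] at hz
    rw [zero_add, zero_add]
    by_cases h6 : okQ tqW qs111111 (c + 1024 * z) = true
    · rw [if_pos h6, if_pos (prune c z hc hz h6).2, pow_one]
      exact le_rfl
    · rw [if_neg h6]
      exact Nat.zero_le _
  · refine (Finset.sum_eq_zero fun z hz => ?_).trans_le (Nat.zero_le _)
    rw [Finset.mem_range] at hz
    rw [zero_add]
    have h6 : ¬ okQ tqW qs111111 (c + 1024 * z) = true := fun h6 => h5 (prune c z hc hz h6).1
    rw [if_neg h6]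

end TUR
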