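import Pool.Agent.TUR.T4B

namespace TUR

open SimpleGraph

/-- four parts, by removing transversal cliques -/
theorem T_four_ind (d : ℕ) : ∀ a b c : ℕ, b ≤ a → c ≤ b →
    4 * F (toP TT) [a + d, b + d, c + d, d] ≤ 5 * 2 ^ Ex (a + d) (b + d) (c + d) d ∧
    (1 ≤ a → F (toP TT) [a + d, b + d, c + d, d] ≤ 2 ^ Ex (a + d) (b + d) (c + d) d ∧
      (1 ≤ d → F (toP TT) [a + d, b + d, c + d, d] < 2 ^ Ex (a + d) (b + d) (c + d) d)) := by
  induction d with
  | zero =>
    intro a b c hab hbc
    have h1 := F_le_crude isTourT [a, b, c, 0]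
    have h2 : ed [a, b, c, 0] = Ex a b c 0 := by
      simp only [ed, Ex, List.sum_cons, List.sum_nil]
      ring
    rw [h2] at h1
    simp only [add_zero]
    refine ⟨by omega, fun _ => ⟨h1, fun h => by omega⟩⟩
  | succ d ih =>
    intro a b c hab hbc
    obtain ⟨i1, i2⟩ := ih a b c hab hbc
    have hT := T_four (a + d) (b + d) (c + d) d
    have hE := two_pow_Ex_succ (a + d) (b + d) (c + d) d
    obtain ⟨y1, y2, y3⟩ := Y_le (a := a + d) (b := b + d) (c := c + d) (d := d)
      (by omega) (by omega) (by omega)
    rw [show a + (d + 1) = a + d + 1 by ring, show b + (d + 1) = b + d + 1 by ring,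
      show c + (d + 1) = c + d + 1 by ring]
    rw [hE]
    have hZ : 0 < 4 * 4 ^ (a + d) * 4 ^ (b + d) * 4 ^ (c + d) * 4 ^ d := by positivity
    have hX : 0 < 2 ^ Ex (a + d) (b + d) (c + d) d := by positivity
    have hA0 : a + d = 0 → 2 ^ (a + d) * 2 ^ (b + d) = 1 := by
      intro h
      have : b + d = 0 := by omega
      rw [h, this]
      rfl
    have h00 : a + d = 0 →
        F (toP TT) [a + d, b + d, c + d, d] ≤ 2 ^ Ex (a + d) (b + d) (c + d) d := by
      intro h
      have h1 := F_le_crude isTourT [a + d, b + d, c + d, d]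
      have e1 : b + d = 0 := by omega
      have e2 : c + d = 0 := by omega
      have e3 : d = 0 := by omega
      rw [h, e1, e2, e3] at h1 ⊢
      exact h1
    generalize F (toP TT) [a + d + 1, b + d + 1, c + d + 1, d + 1] = f' at *
    generalize F (toP TT) [a + d, b + d, c + d, d] = f at *
    generalize 2 ^ (a + d) + 2 ^ (b + d) + 2 ^ (c + d) + 2 ^ d + 2 ^ (a + d) * 2 ^ (b + d) +
      2 ^ (a + d) * 2 ^ (c + d) + 2 ^ (a + d) * 2 ^ d + 2 ^ (b + d) * 2 ^ (c + d) +
      2 ^ (b + d) * 2 ^ d + 2 ^ (c + d) * 2 ^ d = Y at *
    generalize 2 ^ (a + d) * 2 ^ (b + d) = P at *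
    generalize 4 * 4 ^ (a + d) * 4 ^ (b + d) * 4 ^ (c + d) * 4 ^ d = Z at *
    generalize 2 ^ Ex (a + d) (b + d) (c + d) d = X at *
    constructor
    · rcases Nat.eq_zero_or_pos (a + d) with h0 | h0
      · have h10 := y1 h0
        have hP := hA0 h0
        subst hP
        subst h10
        calc 4 * f' ≤ 4 * (f * (Z * 10)) := Nat.mul_le_mul_left _ hT
          _ = f * (Z * 40) := by ring
          _ ≤ X * (Z * 40) := Nat.mul_le_mul_right _ (h00 h0)
          _ = _ := by ring
      · have h8 := y2 h0
        calc 4 * f' ≤ 4 * (f * (Z * Y)) := Nat.mul_le_mul_left _ hT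
          _ = (4 * f) * (Z * Y) := by ring
          _ ≤ (5 * X) * (Z * (8 * P)) := Nat.mul_le_mul i1 (Nat.mul_le_mul_left _ h8)
          _ = _ := by ring
    · intro ha
      have h8 := y3 (by omega)
      have j1 := (i2 ha).1
      have hlt : f * (Z * Y) < X * (Z * (8 * P)) := by
        calc f * (Z * Y) ≤ X * (Z * Y) := Nat.mul_le_mul_right _ j1
          _ < X * (Z * (8 * P)) :=
            Nat.mul_lt_mul_of_pos_left (Nat.mul_lt_mul_of_pos_left h8 hZ) hX
      exact ⟨(hT.trans_lt hlt).le, fun _ => hT.trans_lt hlt⟩

theorem Ex_le_t3 (a b c d : ℕ) : Ex a b c d ≤ t3 (a + b + c + d) := by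
  have h := ed_le_t3 [a, b, c + d] (by simp)
  have e1 : ed [a, b, c + d] = Ex a b c d := by
    simp only [ed, Ex, List.sum_cons, List.sum_nil]
    ring
  have e2 : [a, b, c + d].sum = a + b + c + d := by
    simp only [List.sum_cons, List.sum_nil]
    ring
  rw [e1, e2] at h
  exact h

/-- **Four parts, at least five vertices.** -/
theorem T_four_lt (L : List ℕ) (hlen : L.length = 4) (hpos : ∀ p ∈ L, 1 ≤ p)
    (hn : 5 ≤ L.sum) : F (toP TT) L < 2 ^ t3 L.sum := by
  obtain ⟨L', h1, h2⟩ := exists_sorted L
  rw [F_perm _ h1, h1.sum_eq]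
  rw [h1.sum_eq] at hn
  have hpos' : ∀ p ∈ L', 1 ≤ p := fun p hp => hpos p (h1.mem_iff.2 hp)
  have hlen' : L'.length = 4 := by rw [← h1.length_eq, hlen]
  match L', hlen' with
  | [w, x, y, z], _ =>
    simp only [List.pairwise_cons, List.mem_cons, List.not_mem_nil, or_false, ge_iff_le,
      forall_eq_or_imp, forall_eq] at h2
    have hz := hpos' z (by simp)
    obtain ⟨⟨hw1, hw2, hw3⟩, ⟨hx1, hx2⟩, hy1, -⟩ := h2
    obtain ⟨a, rfl⟩ := Nat.exists_eq_add_of_le' hw3
    obtain ⟨b, rfl⟩ := Nat.exists_eq_add_of_le' hx2
    obtain ⟨c, rfl⟩ := Nat.exists_eq_add_of_le' hy1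
    obtain ⟨i1, i2⟩ := T_four_ind z a b c (by omega) (by omega)
    have hs : [a + z, b + z, c + z, z].sum = (a + z) + (b + z) + (c + z) + z := by
      simp only [List.sum_cons, List.sum_nil]
      ring
    rw [hs] at hn ⊢
    have hE := Ex_le_t3 (a + z) (b + z) (c + z) z
    rcases Nat.eq_zero_or_pos a with ha | ha
    · obtain rfl : b = 0 := by omega
      obtain rfl : c = 0 := by omega
      subst ha
      simp only [zero_add] at *
      have hz2 : 2 ≤ z := by omega
      have h3 : Ex z z z z + 1 ≤ t3 (z + z + z + z) := by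
        unfold Ex t3
        rw [Nat.le_div_iff_mul_le (by norm_num)]
        nlinarith
      have h4 : 2 ^ (Ex z z z z + 1) ≤ 2 ^ t3 (z + z + z + z) :=
        Nat.pow_le_pow_right (by norm_num) h3
      rw [pow_succ] at h4
      have h5 : 0 < 2 ^ Ex z z z z := by positivity
      omega
    · exact ((i2 ha).2 hz).trans_le (Nat.pow_le_pow_right (by norm_num) hE)

/-- an upper bound for every complete multipartite graph -/
def dT (n : ℕ) : ℕ := if n = 4 then 40 else 2 ^ t3 n

theorem num5' (x : ℕ) : dT x * (200 * 10 ^ x) < 2 ^ t3 (x + 5) := by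
  unfold dT
  split_ifs with h
  · subst h
    decide
  · exact num5 x

theorem F_le_dT (n : ℕ) : ∀ L : List ℕ, L.sum = n → F (toP TT) L ≤ dT n ∧
    (5 ≤ n → 4 ≤ L.length → (∀ p ∈ L, 1 ≤ p) → F (toP TT) L < 2 ^ t3 n) := by
  induction n using Nat.strong_induction_on with
  | _ n ih =>
    -- lists with positive entries
    have key : ∀ L : List ℕ, L.sum = n → (∀ p ∈ L, 1 ≤ p) → F (toP TT) L ≤ dT n ∧
        (5 ≤ n → 4 ≤ L.length → F (toP TT) L < 2 ^ t3 n) := by
      intro L hL hpos
      rcases Nat.lt_or_ge L.length 4 with h3 | h4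
      · have h1 := F_le_crude isTourT L
        have h2 := ed_le_t3 L (by omega)
        rw [hL] at h2
        have h5 : 2 ^ ed L ≤ 2 ^ t3 n := Nat.pow_le_pow_right (by norm_num) h2
        refine ⟨?_, fun _ h => by omega⟩
        unfold dT
        split_ifs with h
        · subst h
          have : t3 4 = 5 := by decide
          rw [this] at h5
          omega
        · omega
      · have hn4 : 4 ≤ n := by
          rw [← hL]
          exact h4.trans (length_le_sum L hpos)
        rcases Nat.eq_or_lt_of_le hn4 with h | h
        · -- `n = 4`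
          have hL1 : L = [1, 1, 1, 1] := by
            match L with
            | [] => simp at h4
            | [_] => simp at h4
            | [_, _] => simp at h4
            | [_, _, _] => simp at h4
            | [a, b, c, d] =>
              have h1 := hpos a (by simp)
              have h2 := hpos b (by simp)
              have h3 := hpos c (by simp)
              have h5 := hpos d (by simp)
              simp only [List.sum_cons, List.sum_nil] at hL
              have e1 : a = 1 := by omega
              have e2 : b = 1 := by omega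
              have e3 : c = 1 := by omega
              have e4 : d = 1 := by omega
              rw [e1, e2, e3, e4]
            | a :: b :: c :: d :: e :: M =>
              have h1 := hpos a (by simp)
              have h2 := hpos b (by simp)
              have h3 := hpos c (by simp)
              have h5 := hpos d (by simp)
              have h6 := hpos e (by simp)
              simp only [List.sum_cons] at hL
              omega
          subst hL1
          refine ⟨?_, fun h5 => by omega⟩
          rw [← h]
          exact val111T1.le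
        · have hlt : F (toP TT) L < 2 ^ t3 n := by
            rcases Nat.eq_or_lt_of_le h4 with h4' | h5
            · rw [← hL]
              exact T_four_lt L h4'.symm hpos (by omega)
            · match L with
              | [] => simp at h4
              | [_] => simp at h4
              | [_, _] => simp at h4
              | [_, _, _] => simp at h4
              | [_, _, _, _] => simp at h5
              | a' :: b' :: c' :: d' :: e' :: M =>
                obtain ⟨a, rfl⟩ := Nat.exists_eq_add_of_le' (hpos a' (by simp))
                obtain ⟨b, rfl⟩ := Nat.exists_eq_add_of_le' (hpos b' (by simp))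
                obtain ⟨c, rfl⟩ := Nat.exists_eq_add_of_le' (hpos c' (by simp))
                obtain ⟨d, rfl⟩ := Nat.exists_eq_add_of_le' (hpos d' (by simp))
                obtain ⟨e, rfl⟩ := Nat.exists_eq_add_of_le' (hpos e' (by simp))
                have hs : (a :: b :: c :: d :: e :: M).sum + 5 = n := by
                  rw [← hL]
                  simp only [List.sum_cons]
                  ring
                have h6 := T_five a b c d e M
                have h7 := (ih (a :: b :: c :: d :: e :: M).sum (by omega) _ rfl).1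
                have h8 := num5' (a :: b :: c :: d :: e :: M).sum
                rw [hs] at h8
                exact (h6.trans (Nat.mul_le_mul_right _ h7)).trans_lt h8
          refine ⟨?_, fun _ _ => hlt⟩
          unfold dT
          rw [if_neg (by omega)]
          exact hlt.le
    intro L hL
    refine ⟨?_, fun h1 h2 h3 => (key L hL h3).2 h1 h2⟩
    obtain ⟨L', h1, ⟨e⟩⟩ := exists_list (Fintype.card (Vt L)) (Gt L) rfl (by
      intro x y hxy z
      rw [Gt_adj, not_not] at hxy
      rw [Gt_adj, Gt_adj, hxy])
    have hF : F (toP TT) L = F (toP TT) L' := nf_congr _ e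
    have hs : L'.sum = n := by
      rw [← card_Vt, ← hL, ← card_Vt]
      exact (Fintype.card_congr e.toEquiv).symm
    rw [hF]
    exact (key L' hs h1).1

/-- **The transitive tournament, all `n ≥ 5`.** -/
theorem T_lt (n : ℕ) (hn : 5 ≤ n) (L : List ℕ) (hlen : 4 ≤ L.length) (hpos : ∀ p ∈ L, 1 ≤ p)
    (hsum : L.sum = n) : F (toP TT) L < 2 ^ t3 n :=
  (F_le_dT n L hsum).2 hn hlen hpos

end TUR
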