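import Pool.Agent.TUR.Step

namespace TUR

open SimpleGraph Classical

variable {k : ℕ}

/-- number of edges of the complete multipartite graph -/
def ed : List ℕ → ℕ
  | [] => 0
  | p :: L => ed L + L.sum * p

theorem F_le_crude {T : Fin k → Fin k → Prop} (hT : IsTournament T) (L : List ℕ) :
    F T L ≤ 2 ^ ed L := by
  induction L with
  | nil =>
    unfold F nf
    refine (Finset.card_le_univ _).trans ?_
    simp only [ed, pow_zero]
    have : IsEmpty (Vt []) := inferInstanceAs (IsEmpty Empty)
    exact Fintype.card_le_one_iff_subsingleton.2 inferInstance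
  | cons p L ih =>
    rw [F_cons hT]
    have h : ∀ σ ∈ free T (Gt L), ea T σ ^ p ≤ 2 ^ (L.sum * p) := by
      intro σ _
      rw [pow_mul]
      refine Nat.pow_le_pow_left ?_ p
      unfold ea
      refine (Finset.card_le_univ _).trans ?_
      rw [Fintype.card_fun, Fintype.card_prop, card_Vt]
    refine (Finset.sum_le_sum h).trans ?_
    rw [Finset.sum_const, smul_eq_mul, ed, pow_add]
    exact Nat.mul_le_mul_right _ ih

/-- insertion into a decreasing list -/
def ins (a : ℕ) : List ℕ → List ℕ
  | [] => [a]
  | b :: L => if b ≤ a then a :: b :: L else b :: ins a L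

theorem ins_perm (a : ℕ) (L : List ℕ) : (a :: L).Perm (ins a L) := by
  induction L with
  | nil => exact List.Perm.refl _
  | cons b L ih =>
    rw [ins]
    split_ifs
    · exact List.Perm.refl _
    · exact (List.Perm.swap b a L).trans (ih.cons b)

/-- the recursive upper bound -/
def ub (base : List ℕ → Option ℕ) : ℕ → List ℕ → ℕ
  | 0, L => 2 ^ ed L
  | f + 1, L =>
    match base L with
    | some v => v
    | none =>
      if L.length ≤ 3 then 2 ^ ed L else
        match L with
        | [] => 1
        | a :: M => (if a ≤ 1 then ub base f M else ub base f (ins (a - 1) M)) * Sg M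

theorem F_le_ub {TB : Fin 4 → Fin 4 → Bool} (hT : IsTournament (toP TB)) (hP : PatProp TB)
    {base : List ℕ → Option ℕ} (hb : ∀ L v, base L = some v → F (toP TB) L ≤ v) (f : ℕ) :
    ∀ L : List ℕ, F (toP TB) L ≤ ub base f L := by
  induction f with
  | zero => exact fun L => F_le_crude hT L
  | succ f ih =>
    intro L
    unfold ub
    split
    · rename_i v hv
      exact hb L v hv
    · split_ifs with hlen
      · exact F_le_crude hT L
      · match L with
        | [] => simp at hlen
        | 0 :: M =>
          simp only [Nat.zero_le, if_true]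
          rw [F_zero hT]
          have h1 : 1 ≤ Sg M := (Ig_pos M).trans (Ig_le_Sg M)
          calc F (toP TB) M ≤ ub base f M := ih M
            _ = ub base f M * 1 := (mul_one _).symm
            _ ≤ _ := Nat.mul_le_mul_left _ h1
        | 1 :: M =>
          simp only [le_refl, if_true]
          refine (F_succ_le hT hP 0 M).trans ?_
          rw [F_zero hT]
          exact Nat.mul_le_mul_right _ (ih M)
        | (a + 2) :: M =>
          have : ¬ (a + 2 ≤ 1) := by omega
          simp only [this, if_false]
          have e : a + 2 - 1 = a + 1 := by omega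
          rw [e]
          refine (F_succ_le hT hP (a + 1) M).trans ?_
          rw [F_perm _ (ins_perm (a + 1) M)]
          exact Nat.mul_le_mul_right _ (ih _)

/-- all decreasing lists with entries in `[1, mx]` and sum `n` (with at most `f` entries) -/
def gen : ℕ → ℕ → ℕ → List (List ℕ)
  | 0, n, _ => if n = 0 then [[]] else []
  | f + 1, n, mx =>
    if n = 0 then [[]] else
      (List.range (min n mx)).flatMap (fun i => (gen f (n - (i + 1)) (i + 1)).map ((i + 1) :: ·))

theorem mem_gen (f : ℕ) : ∀ (L : List ℕ) (mx : ℕ), L.length ≤ f → L.Pairwise (· ≥ ·) →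
    (∀ p ∈ L, 1 ≤ p ∧ p ≤ mx) → L ∈ gen f L.sum mx := by
  induction f with
  | zero =>
    intro L mx h _ _
    have : L = [] := List.eq_nil_of_length_eq_zero (by omega)
    subst this
    simp [gen]
  | succ f ih =>
    intro L mx h1 h2 h3
    match L with
    | [] => simp [gen]
    | a :: M =>
      have ha := h3 a (by simp)
      rw [gen]
      have hne : (a :: M).sum ≠ 0 := by
        rw [List.sum_cons]
        omega
      rw [if_neg hne, List.mem_flatMap]
      refine ⟨a - 1, ?_, ?_⟩
      · rw [List.mem_range, List.sum_cons]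
        omega
      · have e : a - 1 + 1 = a := by omega
        rw [e, List.mem_map]
        refine ⟨M, ?_, rfl⟩
        have e2 : (a :: M).sum - a = M.sum := by
          rw [List.sum_cons]
          omega
        rw [e2]
        rw [List.pairwise_cons] at h2
        refine ih M a (by simp at h1; omega) h2.2 ?_
        intro p hp
        exact ⟨(h3 p (by simp [hp])).1, h2.1 p hp⟩

theorem exists_sorted (L : List ℕ) : ∃ L' : List ℕ, L.Perm L' ∧ L'.Pairwise (· ≥ ·) := by
  refine ⟨L.insertionSort (· ≥ ·), (List.perm_insertionSort _ L).symm, ?_⟩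
  exact List.pairwise_insertionSort _ L

/-- checking all shapes with `n` vertices -/
def chk (base : List ℕ → Option ℕ) (n B : ℕ) : Bool :=
  (gen n n n).all (fun L => decide (L.length ≤ 3) || decide (ub base (n + 1) L < B))

theorem chk_sound {TB : Fin 4 → Fin 4 → Bool} (hT : IsTournament (toP TB)) (hP : PatProp TB)
    {base : List ℕ → Option ℕ} (hb : ∀ L v, base L = some v → F (toP TB) L ≤ v) {n B : ℕ}
    (hc : chk base n B = true) (L : List ℕ) (hlen : 4 ≤ L.length) (hpos : ∀ p ∈ L, 1 ≤ p)
    (hsum : L.sum = n) : F (toP TB) L < B := by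
  obtain ⟨L', h1, h2⟩ := exists_sorted L
  rw [F_perm _ h1]
  have hsum' : L'.sum = n := by rw [← h1.sum_eq, hsum]
  have hpos' : ∀ p ∈ L', 1 ≤ p := fun p hp => hpos p (h1.mem_iff.2 hp)
  have hl : L'.length ≤ n := by
    rw [← hsum']
    exact length_le_sum L' hpos'
  have hm := mem_gen n L' n hl h2 (by
    intro p hp
    refine ⟨hpos' p hp, ?_⟩
    rw [← hsum']
    exact List.le_sum_of_mem hp)
  rw [hsum'] at hm
  unfold chk at hc
  rw [List.all_eq_true] at hc
  have h3 := hc L' hm
  rw [Bool.or_eq_true, decide_eq_true_iff, decide_eq_true_iff] at h3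
  rcases h3 with h3 | h3
  · have := h1.length_eq
    omega
  · exact (F_le_ub hT hP hb _ L').trans_lt h3

/-- base values for `W` -/
def baseW : List ℕ → Option ℕ
  | [2, 2, 2, 1] => some 91144
  | [2, 2, 1, 1, 1] => some 76352
  | [1, 1, 1, 1, 1, 1] => some 6384
  | [1, 1, 1, 1, 1, 1, 1] => some 85728
  | _ => none

/-- base values for the strong tournament -/
def baseS : List ℕ → Option ℕ
  | [1, 1, 1, 1] => some 40
  | [2, 1, 1, 1] => some 224
  | [1, 1, 1, 1, 1] => some 240
  | [2, 2, 1, 1] => some 1956
  | [1, 1, 1, 1, 1, 1] => some 1760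
  | _ => none

theorem chkW9 : chk baseW 9 (2 ^ 27) = true := by decide +kernel
theorem chkW10 : chk baseW 10 (2 ^ 33) = true := by decide +kernel
theorem chkS5 : chk baseS 5 (2 ^ 8) = true := by decide +kernel
theorem chkS6 : chk baseS 6 (2 ^ 12) = true := by decide +kernel
theorem chkS7 : chk baseS 7 (2 ^ 16) = true := by decide +kernel
theorem chkS8 : chk baseS 8 (2 ^ 21) = true := by decide +kernel
theorem chkS9 : chk baseS 9 (2 ^ 27) = true := by decide +kernel
theorem chkS10 : chk baseS 10 (2 ^ 33) = true := by decide +kernel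

end TUR
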