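import Pool.Agent.TUR.Base2
import Pool.Agent.TUR.Base3
import Pool.Agent.TUR.DP

namespace TUR

open SimpleGraph

theorem baseW_sound : ∀ (L : List ℕ) (v : ℕ), baseW L = some v → F (toP TW) L ≤ v := by
  intro L v h
  unfold baseW at h
  split at h
  · cases h
    exact val221W2.le
  · rw [Option.some.injEq] at h
    subst h
    rw [F_perm _ (show [2, 2, 1, 1, 1].Perm (2 :: [2, 1, 1, 1]) from List.Perm.refl _)]
    exact val2111W2.le
  · cases h
    exact val11111W1.le
  · cases h
    exact valK7
  · cases h

theorem baseS_sound : ∀ (L : List ℕ) (v : ℕ), baseS L = some v → F (toP TS) L ≤ v := by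
  intro L v h
  unfold baseS at h
  split at h
  · cases h
    exact val111S1.le
  · cases h
    exact val111S2.le
  · cases h
    exact val1111S1.le
  · cases h
    exact val211S2.le
  · cases h
    exact val11111S1.le
  · cases h

/-- **Large `n` for the tournament `W`.** -/
theorem W_lt (n : ℕ) (hn : 9 ≤ n) (L : List ℕ) (hlen : 4 ≤ L.length) (hpos : ∀ p ∈ L, 1 ≤ p)
    (hsum : L.sum = n) : F (toP TW) L < 2 ^ t3 n := by
  rcases Nat.eq_or_lt_of_le hn with rfl | hn
  · have : t3 9 = 27 := by decide
    rw [this]
    exact chk_sound isTourW patW baseW_sound chkW9 L hlen hpos hsum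
  · exact (step_all isTourW patW
      (fun L a b c => chk_sound isTourW patW baseW_sound chkW10 L a b c) n hn L hlen hpos hsum).1

/-- **The strong tournament, all `n ≥ 5`.** -/
theorem S_lt (n : ℕ) (hn : 5 ≤ n) (L : List ℕ) (hlen : 4 ≤ L.length) (hpos : ∀ p ∈ L, 1 ≤ p)
    (hsum : L.sum = n) : F (toP TS) L < 2 ^ t3 n := by
  rcases Nat.lt_or_ge n 10 with h | h
  · have : n = 5 ∨ n = 6 ∨ n = 7 ∨ n = 8 ∨ n = 9 := by omega
    rcases this with rfl | rfl | rfl | rfl | rfl
    · exact chk_sound isTourS patS baseS_sound chkS5 L hlen hpos hsum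
    · exact chk_sound isTourS patS baseS_sound chkS6 L hlen hpos hsum
    · exact chk_sound isTourS patS baseS_sound chkS7 L hlen hpos hsum
    · exact chk_sound isTourS patS baseS_sound chkS8 L hlen hpos hsum
    · exact chk_sound isTourS patS baseS_sound chkS9 L hlen hpos hsum
  · exact (step_all isTourS patS
      (fun L a b c => chk_sound isTourS patS baseS_sound chkS10 L a b c) n h L hlen hpos hsum).1

end TUR
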