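import Pool.Agent.TUR.Uniq
import Pool.Agent.TUR.WS
import Pool.Agent.TUR.Base4
import Pool.Agent.TUR.T4C

namespace TUR

open SimpleGraph

/-- isomorphism of tournaments on `Fin k` -/
def TIso {k : ℕ} (T T' : Fin k → Fin k → Prop) : Prop :=
  ∃ π : Equiv.Perm (Fin k), ∀ i j, T i j ↔ T' (π i) (π j)

variable {k : ℕ}

theorem TIso.symm {T T' : Fin k → Fin k → Prop} (h : TIso T T') : TIso T' T := by
  obtain ⟨π, hπ⟩ := h
  refine ⟨π.symm, fun i j => ?_⟩
  rw [hπ]
  simp

theorem hasCopy_iso {V : Type*} {T T' : Fin k → Fin k → Prop} (h : TIso T T')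
    {D : V → V → Prop} (hc : HasCopy T' D) : HasCopy T D := by
  obtain ⟨π, hπ⟩ := h
  obtain ⟨f, hf, h⟩ := hc
  exact ⟨f ∘ π, hf.comp π.injective, fun i j => (hπ i j).trans (h _ _)⟩

theorem numFree_iso {V : Type*} {T T' : Fin k → Fin k → Prop} (h : TIso T T')
    (G : SimpleGraph V) : numFree T G = numFree T' G := by
  unfold numFree
  have : ∀ D : V → V → Prop, HasCopy T D ↔ HasCopy T' D := fun D =>
    ⟨hasCopy_iso h.symm, hasCopy_iso h⟩
  simp only [this]

theorem turanUnique_iso {T T' : Fin k → Fin k → Prop} (h : TIso T T') (n : ℕ) :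
    TuranUnique T n ↔ TuranUnique T' n := by
  unfold TuranUnique IsExtremal
  simp only [numFree_iso h]

theorem isOrientation_flip {V : Type*} {G : SimpleGraph V} {D : V → V → Prop}
    (h : IsOrientation G D) : IsOrientation G (fun u v => D v u) :=
  ⟨fun _ _ hd => (h.1 _ _ hd).symm, fun _ _ ha => h.2 _ _ ha.symm⟩

theorem hasCopy_flip {V : Type*} {T : Fin k → Fin k → Prop} {D : V → V → Prop} :
    HasCopy (fun i j => T j i) (fun u v => D v u) ↔ HasCopy T D := by
  constructor
  · rintro ⟨f, hf, h⟩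
    exact ⟨f, hf, fun i j => h j i⟩
  · rintro ⟨f, hf, h⟩
    exact ⟨f, hf, fun i j => h j i⟩

theorem numFree_flip {V : Type*} (T : Fin k → Fin k → Prop) (G : SimpleGraph V) :
    numFree (fun i j => T j i) G = numFree T G := by
  unfold numFree
  refine Nat.card_congr
    { toFun := fun D => ⟨fun u v => D.1 v u, isOrientation_flip D.2.1, fun hc => D.2.2 ?_⟩
      invFun := fun D => ⟨fun u v => D.1 v u, isOrientation_flip D.2.1, fun hc => D.2.2 ?_⟩
      left_inv := fun D => rfl
      right_inv := fun D => rfl }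
  · obtain ⟨f, hf, h⟩ := hc
    exact ⟨f, hf, fun i j => h j i⟩
  · obtain ⟨f, hf, h⟩ := hc
    exact ⟨f, hf, fun i j => h j i⟩

theorem turanUnique_flip (T : Fin k → Fin k → Prop) (n : ℕ) :
    TuranUnique (fun i j => T j i) n ↔ TuranUnique T n := by
  unfold TuranUnique IsExtremal
  simp only [numFree_flip]

theorem TIso.flip {T T' : Fin k → Fin k → Prop} (h : TIso T T') :
    TIso (fun i j => T j i) (fun i j => T' j i) := by
  obtain ⟨π, hπ⟩ := h
  exact ⟨π, fun i j => hπ j i⟩

/-- the reverse of `W` -/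
def TL : Fin 4 → Fin 4 → Bool := fun i j => TW j i

theorem class_bits : ∀ b1 b2 b3 p1 p2 p3 : Bool, isT TW b1 b2 b3 p1 p2 p3 ∨
    isT TL b1 b2 b3 p1 p2 p3 ∨ isT TS b1 b2 b3 p1 p2 p3 ∨ isT TT b1 b2 b3 p1 p2 p3 := by
  decide +kernel

open Classical in
theorem tiso_of_isT {T : Fin 4 → Fin 4 → Prop} (hT : IsTournament T) {TB : Fin 4 → Fin 4 → Bool}
    (h : isT TB (decide (T 0 1)) (decide (T 0 2)) (decide (T 1 2)) (decide (T 3 0))
      (decide (T 3 1)) (decide (T 3 2))) : TIso T (toP TB) := by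
  apply TIso.symm
  obtain ⟨π, hπ⟩ := h
  refine ⟨π, fun i j => ?_⟩
  unfold toP
  rw [hπ i j]
  exact @D4_iff (Fin 4) T id (fun a b hab => hT.2 a b (by simpa using hab))
    (fun a => not_self hT a) (π i) (π j)

theorem classification {T : Fin 4 → Fin 4 → Prop} (hT : IsTournament T) :
    TIso T (toP TW) ∨ TIso T (toP TL) ∨ TIso T (toP TS) ∨ TIso T (toP TT) := by
  classical
  rcases class_bits (decide (T 0 1)) (decide (T 0 2)) (decide (T 1 2)) (decide (T 3 0))
    (decide (T 3 1)) (decide (T 3 2)) with h | h | h | h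
  · exact Or.inl (tiso_of_isT hT (by convert! h))
  · exact Or.inr (Or.inl (tiso_of_isT hT (by convert! h)))
  · exact Or.inr (Or.inr (Or.inl (tiso_of_isT hT (by convert! h))))
  · exact Or.inr (Or.inr (Or.inr (tiso_of_isT hT (by convert! h))))

/-- small `n`: the complete graph is the Turan graph -/
theorem small {TB : Fin 4 → Fin 4 → Bool} (hT : IsTournament (toP TB)) {n : ℕ} (hn : n ≤ 3) :
    TuranUnique (toP TB) n := by
  refine turanUnique_of hT n fun L h1 h2 h3 => ?_
  have := length_le_sum L h2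
  omega

theorem W_iff (n : ℕ) : TuranUnique (toP TW) n ↔ n ≤ 3 ∨ 9 ≤ n := by
  constructor
  · intro h
    by_contra hcon
    have h4 : n = 4 ∨ n = 5 ∨ n = 6 ∨ n = 7 ∨ n = 8 := by omega
    rcases h4 with rfl | rfl | rfl | rfl | rfl
    · refine not_turanUnique isTourW 4 (1 :: [1, 1, 1]) rfl ?_ h
      rw [val111W1]
      decide
    · refine not_turanUnique isTourW 5 (2 :: [1, 1, 1]) rfl ?_ h
      rw [val111W2]
      decide
    · refine not_turanUnique isTourW 6 (1 :: [1, 1, 1, 1, 1]) rfl ?_ h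
      rw [val11111W1]
      decide
    · refine not_turanUnique isTourW 7 (2 :: [2, 2, 1]) rfl ?_ h
      rw [val221W2]
      decide
    · refine not_turanUnique isTourW 8 (2 :: [2, 2, 2]) rfl ?_ h
      rw [val222W2]
      decide
  · rintro (h | h)
    · exact small isTourW h
    · exact turanUnique_of isTourW n (W_lt n h)

theorem L_iff (n : ℕ) : TuranUnique (toP TL) n ↔ n ≤ 3 ∨ 9 ≤ n := by
  rw [← W_iff]
  exact turanUnique_flip (toP TW) n

theorem S_iff (n : ℕ) : TuranUnique (toP TS) n ↔ n ≠ 4 := by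
  constructor
  · rintro h rfl
    refine not_turanUnique isTourS 4 (1 :: [1, 1, 1]) rfl ?_ h
    rw [val111S1]
    decide
  · intro h
    rcases Nat.lt_or_ge n 4 with h4 | h4
    · exact small isTourS (by omega)
    · exact turanUnique_of isTourS n (S_lt n (by omega))

theorem T_iff (n : ℕ) : TuranUnique (toP TT) n ↔ n ≠ 4 := by
  constructor
  · rintro h rfl
    refine not_turanUnique isTourT 4 (1 :: [1, 1, 1]) rfl ?_ h
    rw [val111T1]
    decide
  · intro h
    rcases Nat.lt_or_ge n 4 with h4 | h4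
    · exact small isTourT (by omega)
    · exact turanUnique_of isTourT n (T_lt n (by omega))

end TUR
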