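import Pool.Agent.TUR.Core

namespace TUR

open SimpleGraph Classical

variable {k : ℕ}

/-- `v` is replaced by a clone of `u` -/
noncomputable def clone {V : Type*} (G : SimpleGraph V) (u v : V) : SimpleGraph V :=
  G.comap (fun w => if w = v then u else w)

theorem clone_adj {V : Type*} (G : SimpleGraph V) (u v x y : V) :
    (clone G u v).Adj x y ↔ G.Adj (if x = v then u else x) (if y = v then u else y) := Iff.rfl

/-- the equivalence -/
noncomputable def pairEquiv {V : Type*} {u v : V} (huv : u ≠ v) :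
    {w : V // w ≠ u ∧ w ≠ v} ⊕ Bool ≃ V where
  toFun := Sum.elim Subtype.val (fun b => if b then v else u)
  invFun w := if hu : w = u then .inr false else if hv : w = v then .inr true else .inl ⟨w, hu, hv⟩
  left_inv := by
    rintro (⟨w, h1, h2⟩ | b)
    · simp [h1, h2]
    · cases b <;> simp [huv.symm]
  right_inv := by
    intro w
    by_cases hu : w = u
    · simp [hu]
    · by_cases hv : w = v
      · subst hv
        simp [hu]
      · simp [hu, hv]

theorem nf_pair {V : Type*} [Fintype V] {T : Fin k → Fin k → Prop} (hT : IsTournament T)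
    (G G' : SimpleGraph V) {u v : V} (huv : u ≠ v) (hadj : ¬ G'.Adj u v)
    (hag : ∀ a a', a ≠ u → a ≠ v → a' ≠ u → a' ≠ v → (G'.Adj a a' ↔ G.Adj a a')) :
    nf T G' = ∑ σ ∈ free T (G.comap (Subtype.val : {w : V // w ≠ u ∧ w ≠ v} → V)),
      (att T σ (fun a => G'.Adj a.1 u)).card * (att T σ (fun a => G'.Adj a.1 v)).card := by
  have e : (G'.comap (pairEquiv huv)) ≃g G' :=
    { toEquiv := pairEquiv huv, map_rel_iff' := Iff.rfl }
  rw [← nf_congr T e, nf_eq hT]
  · have h1 : (G'.comap (pairEquiv huv)).comap Sum.inl =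
        G.comap (Subtype.val : {w : V // w ≠ u ∧ w ≠ v} → V) := by
      ext a b
      exact hag a.1 b.1 a.2.1 a.2.2 b.2.1 b.2.2
    rw [h1]
    refine Finset.sum_congr rfl fun σ _ => ?_
    rw [Fintype.prod_bool, mul_comm]
    rfl
  · intro b b' h
    cases b <;> cases b'
    · exact G'.irrefl h
    · exact hadj h
    · exact hadj h.symm
    · exact G'.irrefl h

/-- **Symmetrization inequality.** -/
theorem clone_ineq {V : Type*} [Fintype V] {T : Fin k → Fin k → Prop} (hT : IsTournament T)
    (G : SimpleGraph V) {u v : V} (huv : u ≠ v) (hadj : ¬ G.Adj u v) :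
    2 * nf T G ≤ nf T (clone G u v) + nf T (clone G v u) := by
  have h0 := nf_pair hT G G huv hadj (fun _ _ _ _ _ _ => Iff.rfl)
  have h1 := nf_pair hT G (clone G u v) huv (by simp [clone_adj]) (by
    intro a a' h1 h2 h3 h4
    simp [clone_adj, h2, h4])
  have h2 := nf_pair hT G (clone G v u) huv (by simp [clone_adj, huv.symm]) (by
    intro a a' h1 h2 h3 h4
    simp [clone_adj, h1, h3])
  rw [h0, h1, h2, Finset.mul_sum, ← Finset.sum_add_distrib]
  refine Finset.sum_le_sum fun σ _ => ?_
  have e1 : (fun a : {w : V // w ≠ u ∧ w ≠ v} => (clone G u v).Adj a.1 u) =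
      fun a => G.Adj a.1 u := by
    funext a
    simp [clone_adj, a.2.2, huv]
  have e2 : (fun a : {w : V // w ≠ u ∧ w ≠ v} => (clone G u v).Adj a.1 v) =
      fun a => G.Adj a.1 u := by
    funext a
    simp [clone_adj, a.2.2]
  have e3 : (fun a : {w : V // w ≠ u ∧ w ≠ v} => (clone G v u).Adj a.1 u) =
      fun a => G.Adj a.1 v := by
    funext a
    simp [clone_adj, a.2.1]
  have e4 : (fun a : {w : V // w ≠ u ∧ w ≠ v} => (clone G v u).Adj a.1 v) =
      fun a => G.Adj a.1 v := by
    funext a
    simp [clone_adj, a.2.1, huv.symm]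
  rw [e1, e2, e3, e4]
  nlinarith [sq_nonneg ((att T σ (fun a => G.Adj a.1 u)).card - (att T σ (fun a => G.Adj a.1 v)).card : ℤ),
    Nat.zero_le (att T σ (fun a => G.Adj a.1 u)).card]

end TUR
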