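import Pool.Agent.TUR.Defs

namespace TUR

open SimpleGraph Classical

variable {k : ℕ}

/-- the finset of `T`-free orientations -/
noncomputable def free {V : Type*} [Fintype V] (T : Fin k → Fin k → Prop) (G : SimpleGraph V) :
    Finset (V → V → Prop) :=
  Finset.univ.filter (fun D => IsOrientation G D ∧ ¬ HasCopy T D)

theorem mem_free {V : Type*} [Fintype V] {T : Fin k → Fin k → Prop} {G : SimpleGraph V}
    {D : V → V → Prop} : D ∈ free T G ↔ IsOrientation G D ∧ ¬ HasCopy T D := by
  simp [free]

/-- number of `T`-free orientations -/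
noncomputable def nf {V : Type*} [Fintype V] (T : Fin k → Fin k → Prop) (G : SimpleGraph V) : ℕ :=
  (free T G).card

theorem numFree_eq {V : Type*} [Fintype V] (T : Fin k → Fin k → Prop) (G : SimpleGraph V) :
    numFree T G = nf T G := by
  unfold numFree nf free
  rw [Nat.card_eq_fintype_card, Fintype.card_subtype]

/-- extension of an orientation of `G` by one new vertex `none` with neighbourhood `N`
and out-neighbourhood `x`. -/
def ext {V : Type*} (σ : V → V → Prop) (N x : V → Prop) : Option V → Option V → Prop
  | some u, some v => σ u v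
  | none, some v => x v
  | some v, none => N v ∧ ¬ x v
  | none, none => False

/-- the attachments of one new vertex with neighbourhood `N` to `σ` without a copy of `T` -/
noncomputable def att {V : Type*} [Fintype V] (T : Fin k → Fin k → Prop) (σ : V → V → Prop)
    (N : V → Prop) : Finset (V → Prop) :=
  Finset.univ.filter (fun x => (∀ v, x v → N v) ∧ ¬ HasCopy T (ext σ N x))

theorem mem_att {V : Type*} [Fintype V] {T : Fin k → Fin k → Prop} {σ : V → V → Prop}
    {N x : V → Prop} : x ∈ att T σ N ↔ (∀ v, x v → N v) ∧ ¬ HasCopy T (ext σ N x) := by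
  simp [att]

/-- gluing -/
def glue {A B : Type*} (σ : A → A → Prop) (N x : B → A → Prop) : A ⊕ B → A ⊕ B → Prop
  | .inl a, .inl a' => σ a a'
  | .inl a, .inr b => N b a ∧ ¬ x b a
  | .inr b, .inl a => x b a
  | .inr _, .inr _ => False

theorem IsOrientation.comap {V W : Type*} {G : SimpleGraph V} {D : V → V → Prop}
    (h : IsOrientation G D) (f : W → V) :
    IsOrientation (G.comap f) (fun a b => D (f a) (f b)) :=
  ⟨fun _ _ hd => h.1 _ _ hd, fun _ _ ha => h.2 _ _ ha⟩

theorem HasCopy.of_comp {V W : Type*} {T : Fin k → Fin k → Prop} {D : V → V → Prop}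
    (f : W → V) (hf : Function.Injective f)
    (h : HasCopy T (fun a b => D (f a) (f b))) : HasCopy T D := by
  obtain ⟨g, hg, h⟩ := h
  exact ⟨f ∘ g, hf.comp hg, h⟩

theorem not_self {V : Type*} {G : SimpleGraph V} {D : V → V → Prop}
    (h : IsOrientation G D) (v : V) : ¬ D v v := fun hd => G.irrefl (h.1 _ _ hd)

/-- the attachment of an outside vertex to a part of an orientation -/
theorem att_of_free {A B : Type*} [Fintype A] [Fintype B] {T : Fin k → Fin k → Prop}
    {G : SimpleGraph (A ⊕ B)} {D : A ⊕ B → A ⊕ B → Prop} (hD : D ∈ free T G) (b : B) :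
    (fun a => D (.inr b) (.inl a)) ∈
      att T (fun a a' => D (.inl a) (.inl a')) (fun a => G.Adj (.inl a) (.inr b)) := by
  rw [mem_free] at hD
  rw [mem_att]
  refine ⟨fun a ha => (hD.1.1 _ _ ha).symm, fun hc => hD.2 ?_⟩
  obtain ⟨g, hg, h⟩ := hc
  let φ : Option A → A ⊕ B := fun o => o.elim (.inr b) .inl
  have hφ : Function.Injective φ := by
    intro o o' ho
    cases o <;> cases o' <;> simp_all [φ]
  refine ⟨φ ∘ g, hφ.comp hg, fun i j => ?_⟩
  rw [h i j]
  simp only [Function.comp]
  rcases hi : g i with _ | u <;> rcases hj : g j with _ | v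
  · simp only [ext, φ, Option.elim]
    exact ⟨False.elim, fun hd => not_self hD.1 _ hd⟩
  · simp [ext, φ]
  · simp only [ext, φ, Option.elim]
    constructor
    · rintro ⟨h1, h2⟩
      exact (hD.1.2 _ _ h1).2 h2
    · intro hd
      exact ⟨hD.1.1 _ _ hd, (hD.1.2 _ _ (hD.1.1 _ _ hd)).1 hd⟩
  · simp [ext, φ]

theorem part_free {A V : Type*} [Fintype A] [Fintype V] {T : Fin k → Fin k → Prop}
    {G : SimpleGraph V} {D : V → V → Prop} (hD : D ∈ free T G) (f : A → V)
    (hf : Function.Injective f) :
    (fun a a' => D (f a) (f a')) ∈ free T (G.comap f) := by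
  rw [mem_free] at hD ⊢
  exact ⟨hD.1.comap f, fun hc => hD.2 (hc.of_comp f hf)⟩

/-- **The removal inequality.** -/
theorem nf_le {A B : Type*} [Fintype A] [Fintype B] (T : Fin k → Fin k → Prop)
    (G : SimpleGraph (A ⊕ B)) :
    nf T G ≤ nf T (G.comap Sum.inr) *
      ∑ σ ∈ free T (G.comap Sum.inl), ∏ b : B,
        (att T σ (fun a => G.Adj (.inl a) (.inr b))).card := by
  have hcard : nf T (G.comap Sum.inr) *
      ∑ σ ∈ free T (G.comap Sum.inl), ∏ b : B,
        (att T σ (fun a => G.Adj (.inl a) (.inr b))).card =
      ((free T (G.comap Sum.inl)).sigma (fun σ => free T (G.comap Sum.inr) ×ˢ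
        Fintype.piFinset (fun b => att T σ (fun a => G.Adj (.inl a) (.inr b))))).card := by
    rw [Finset.card_sigma, Finset.mul_sum]
    refine Finset.sum_congr rfl fun σ _ => ?_
    rw [Finset.card_product, Fintype.card_piFinset]
    rfl
  rw [hcard]
  refine Finset.card_le_card_of_injOn
    (fun D => ⟨fun a a' => D (.inl a) (.inl a'),
      (fun b b' => D (.inr b) (.inr b'), fun b a => D (.inr b) (.inl a))⟩) ?_ ?_
  · intro D hD
    have hD' : D ∈ free T G := hD
    simp only [Finset.coe_sigma, Set.mem_sigma_iff, Finset.mem_coe, Finset.mem_product,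
      Fintype.mem_piFinset]
    exact ⟨part_free hD' _ Sum.inl_injective, part_free hD' _ Sum.inr_injective,
      fun b => att_of_free hD' b⟩
  · intro D hD D' hD' h
    have hD1 := (mem_free.1 hD).1
    have hD2 := (mem_free.1 hD').1
    simp only [Sigma.mk.injEq, heq_eq_eq, Prod.mk.injEq] at h
    obtain ⟨h1, h2, h3⟩ := h
    funext u v
    rcases u with a | b <;> rcases v with a' | b'
    · exact congrFun (congrFun h1 a) a'
    · have h4 := congrFun (congrFun h3 b') a
      apply propext
      constructor
      · intro h5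
        have := hD1.1 _ _ h5
        rw [hD2.2 _ _ this, ← h4]
        exact (hD1.2 _ _ this).1 h5
      · intro h5
        have := hD2.1 _ _ h5
        rw [hD1.2 _ _ this, h4]
        exact (hD2.2 _ _ this).1 h5
    · exact congrFun (congrFun h3 b) a'
    · exact congrFun (congrFun h2 b) b'

/-- membership of a glued orientation -/
theorem glue_mem {A B : Type*} [Fintype A] [Fintype B] {T : Fin k → Fin k → Prop}
    (hT : IsTournament T) {G : SimpleGraph (A ⊕ B)} (hB : ∀ b b', ¬ G.Adj (.inr b) (.inr b'))
    {σ : A → A → Prop} (hσ : σ ∈ free T (G.comap Sum.inl)) {x : B → A → Prop}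
    (hx : ∀ b, x b ∈ att T σ (fun a => G.Adj (.inl a) (.inr b))) :
    glue σ (fun b a => G.Adj (.inl a) (.inr b)) x ∈ free T G := by
  rw [mem_free] at hσ ⊢
  have hori : IsOrientation G (glue σ (fun b a => G.Adj (.inl a) (.inr b)) x) := by
    constructor
    · intro u v huv
      rcases u with a | b <;> rcases v with a' | b'
      · exact hσ.1.1 _ _ huv
      · exact huv.1
      · exact ((mem_att.1 (hx b)).1 a' huv).symm
      · exact huv.elim
    · intro u v huv
      rcases u with a | b <;> rcases v with a' | b'
      · exact hσ.1.2 _ _ huv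
      · simp only [glue]
        tauto
      · simp only [glue]
        have := huv.symm
        tauto
      · exact (hB _ _ huv).elim
  refine ⟨hori, ?_⟩
  rintro ⟨f, hf, h⟩
  have hadj : ∀ i j, i ≠ j → G.Adj (f i) (f j) := by
    intro i j hij
    by_cases hT1 : T i j
    · exact hori.1 _ _ ((h i j).1 hT1)
    · have : T j i := (hT.2 j i (by simpa using hij.symm)).2 hT1
      exact (hori.1 _ _ ((h j i).1 this)).symm
  by_cases hex : ∃ i b, f i = .inr b
  · obtain ⟨i0, b, hb⟩ := hex
    have hinl : ∀ j, j ≠ i0 → ∃ a, f j = .inl a := by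
      intro j hj
      rcases hfj : f j with a | b'
      · exact ⟨a, rfl⟩
      · have := hadj j i0 hj
        rw [hb, hfj] at this
        exact (hB _ _ this).elim
    let g : Fin k → Option A := fun j => (f j).elim some (fun _ => none)
    have hg1 : ∀ j a, f j = .inl a → g j = some a := by
      intro j a hj
      simp [g, hj]
    have hg2 : ∀ j b, f j = .inr b → g j = none := by
      intro j a hj
      simp [g, hj]
    refine (mem_att.1 (hx b)).2 ⟨g, ?_, ?_⟩
    · intro j j' hjj
      by_contra hne
      rcases hfj : f j with a | b1 <;> rcases hfj' : f j' with a' | b2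
      · rw [hg1 _ _ hfj, hg1 _ _ hfj', Option.some.injEq] at hjj
        exact hne (hf (by rw [hfj, hfj', hjj]))
      · rw [hg1 _ _ hfj, hg2 _ _ hfj'] at hjj
        cases hjj
      · rw [hg2 _ _ hfj, hg1 _ _ hfj'] at hjj
        cases hjj
      · have := hadj j j' hne
        rw [hfj, hfj'] at this
        exact (hB _ _ this).elim
    · intro i j
      rw [h i j]
      rcases hfi : f i with a | b1 <;> rcases hfj : f j with a' | b2
      · rw [hg1 _ _ hfi, hg1 _ _ hfj]
        simp [glue, ext]
      · have : j = i0 := by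
          by_contra hne
          obtain ⟨a2, ha2⟩ := hinl j hne
          rw [hfj] at ha2
          cases ha2
        subst this
        rw [hg1 _ _ hfi, hg2 _ _ hfj]
        rw [hb] at hfj
        obtain rfl := Sum.inr.inj hfj
        simp [glue, ext]
      · have : i = i0 := by
          by_contra hne
          obtain ⟨a2, ha2⟩ := hinl i hne
          rw [hfi] at ha2
          cases ha2
        subst this
        rw [hg2 _ _ hfi, hg1 _ _ hfj]
        rw [hb] at hfi
        obtain rfl := Sum.inr.inj hfi
        simp [glue, ext]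
      · rw [hg2 _ _ hfi, hg2 _ _ hfj]
        simp [glue, ext]
  · push Not at hex
    have hinl : ∀ j, ∃ a, f j = .inl a := by
      intro j
      rcases hfj : f j with a | b'
      · exact ⟨a, rfl⟩
      · exact (hex j b' hfj).elim
    choose g hg using hinl
    refine hσ.2 ⟨g, ?_, ?_⟩
    · intro i j hij
      exact hf (by rw [hg, hg, hij])
    · intro i j
      rw [h i j, hg, hg]
      simp [glue]

/-- **The sum formula**: if the graph on `B` has no edges, sums over the `T`-free orientations of
`G` decompose. -/
theorem sum_free {A B M : Type*} [Fintype A] [Fintype B] [AddCommMonoid M]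
    {T : Fin k → Fin k → Prop}
    (hT : IsTournament T) {G : SimpleGraph (A ⊕ B)} (hB : ∀ b b', ¬ G.Adj (.inr b) (.inr b'))
    (φ : (A ⊕ B → A ⊕ B → Prop) → M) :
    ∑ D ∈ free T G, φ D = ∑ σ ∈ free T (G.comap Sum.inl),
      ∑ x ∈ Fintype.piFinset (fun b => att T σ (fun a => G.Adj (.inl a) (.inr b))),
        φ (glue σ (fun b a => G.Adj (.inl a) (.inr b)) x) := by
  rw [Finset.sum_sigma']
  symm
  refine Finset.sum_bij' (fun p _ => glue p.1 (fun b a => G.Adj (.inl a) (.inr b)) p.2)
    (fun D _ => ⟨fun a a' => D (.inl a) (.inl a'), fun b a => D (.inr b) (.inl a)⟩) ?_ ?_ ?_ ?_ ?_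
  · intro p hp
    rw [Finset.mem_sigma, Fintype.mem_piFinset] at hp
    exact glue_mem hT hB hp.1 hp.2
  · intro D hD
    rw [Finset.mem_sigma, Fintype.mem_piFinset]
    exact ⟨part_free hD _ Sum.inl_injective, fun b => att_of_free hD b⟩
  · intro p _
    rfl
  · intro D hD
    have hD1 := (mem_free.1 hD).1
    funext u v
    rcases u with a | b <;> rcases v with a' | b'
    · rfl
    · simp only [glue]
      apply propext
      constructor
      · rintro ⟨h1, h2⟩
        exact (hD1.2 _ _ h1).2 h2
      · intro h1
        exact ⟨hD1.1 _ _ h1, (hD1.2 _ _ (hD1.1 _ _ h1)).1 h1⟩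
    · rfl
    · simp only [glue]
      apply propext
      exact ⟨False.elim, fun h1 => hB _ _ (hD1.1 _ _ h1)⟩
  · intro p _
    rfl

/-- **The counting formula** for an independent set `B`. -/
theorem nf_eq {A B : Type*} [Fintype A] [Fintype B] {T : Fin k → Fin k → Prop}
    (hT : IsTournament T) {G : SimpleGraph (A ⊕ B)} (hB : ∀ b b', ¬ G.Adj (.inr b) (.inr b')) :
    nf T G = ∑ σ ∈ free T (G.comap Sum.inl), ∏ b : B,
      (att T σ (fun a => G.Adj (.inl a) (.inr b))).card := by
  have := sum_free hT hB (fun _ => (1 : ℕ))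
  simp only [Finset.sum_const, smul_eq_mul, mul_one, Fintype.card_piFinset] at this
  exact this

/-- invariance under isomorphism -/
theorem nf_congr {V W : Type*} [Fintype V] [Fintype W] (T : Fin k → Fin k → Prop)
    {G : SimpleGraph V} {H : SimpleGraph W} (e : G ≃g H) : nf T G = nf T H := by
  unfold nf
  refine Finset.card_bij' (fun D _ => fun a b => D (e.symm a) (e.symm b))
    (fun D _ => fun a b => D (e a) (e b)) ?_ ?_ ?_ ?_
  · intro D hD
    have := part_free hD (fun a => e.symm a) e.symm.injective
    have hG : G.comap (fun a => e.symm a) = H := by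
      ext a b
      simp only [comap_adj]
      exact e.symm.map_adj_iff
    rwa [hG] at this
  · intro D hD
    have := part_free hD (fun a => e a) e.injective
    have hG : H.comap (fun a => e a) = G := by
      ext a b
      simp only [comap_adj]
      exact e.map_adj_iff
    rwa [hG] at this
  · intro D _
    simp
  · intro D _
    simp

end TUR
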