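import Mathlib

/-!
Project TUR (MP_522c4e_co, k = 4): definitions.
-/

namespace TUR

open SimpleGraph

/-- `D` is an orientation of the graph `G`: `D u v` means that the edge `uv` is directed from `u`
to `v`. -/
def IsOrientation {V : Type*} (G : SimpleGraph V) (D : V → V → Prop) : Prop :=
  (∀ u v, D u v → G.Adj u v) ∧ ∀ u v, G.Adj u v → (D u v ↔ ¬ D v u)

/-- `T` is a tournament on the `k` vertices `0, ..., k-1`, i.e. an orientation of `K_k`. -/
def IsTournament {k : ℕ} (T : Fin k → Fin k → Prop) : Prop :=
  IsOrientation (⊤ : SimpleGraph (Fin k)) T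

/-- The oriented graph `D` contains a copy of the tournament `T`: some `k` of its vertices span an
oriented graph isomorphic to `T`. -/
def HasCopy {k : ℕ} {V : Type*} (T : Fin k → Fin k → Prop) (D : V → V → Prop) : Prop :=
  ∃ f : Fin k → V, Function.Injective f ∧ ∀ i j, T i j ↔ D (f i) (f j)

/-- The number of `T`-free orientations of `G`. -/
noncomputable def numFree {k : ℕ} {V : Type*} (T : Fin k → Fin k → Prop) (G : SimpleGraph V) : ℕ :=
  Nat.card {D : V → V → Prop // IsOrientation G D ∧ ¬ HasCopy T D}

/-- `G` is a `T`-extremal graph on `n` vertices. -/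
def IsExtremal {k n : ℕ} (T : Fin k → Fin k → Prop) (G : SimpleGraph (Fin n)) : Prop :=
  ∀ G' : SimpleGraph (Fin n), numFree T G' ≤ numFree T G

/-- The Turan graph `T_{k-1}(n)` is the unique `n`-vertex `T`-extremal graph (up to
isomorphism). -/
def TuranUnique {k : ℕ} (T : Fin k → Fin k → Prop) (n : ℕ) : Prop :=
  ∀ G : SimpleGraph (Fin n), IsExtremal T G ↔ Nonempty (G ≃g turanGraph n (k - 1))

end TUR
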