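import Pool.Agent.TUR.Flat

namespace TUR

open SimpleGraph Classical

/-- a bit -/
def bt (m n : ℕ) : ℕ := (m >>> n) % 2

theorem bt_eq (m n : ℕ) : bt m n = (m.testBit n).toNat := by
  unfold bt
  rw [Nat.toNat_testBit, Nat.shiftRight_eq_div_pow]

theorem beq_bt (m n : ℕ) : Nat.beq (bt m n) 0 = true ↔ m.testBit n = false := by
  rw [Nat.beq_eq, bt_eq]
  cases m.testBit n <;> simp

/-- all listed quadruples are fine -/
def okQ (tq : ℕ) (qs : List (ℕ × ℕ × ℕ × ℕ × ℕ × ℕ)) (c : ℕ) : Bool :=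
  qs.all (fun q => Nat.beq (bt tq (bt c q.1 + 2 * bt c q.2.1 + 4 * bt c q.2.2.1 +
    8 * bt c q.2.2.2.1 + 16 * bt c q.2.2.2.2.1 + 32 * bt c q.2.2.2.2.2)) 0)

/-- the mask of the invalid attachments -/
def badM (w : ℕ) (ts : List (ℕ × ℕ × ℕ × ℕ)) (c : ℕ) : ℕ :=
  ts.foldl (fun B q =>
    B ||| ((q.2.2.2 >>> ((bt c q.1 + 2 * bt c q.2.1 + 4 * bt c q.2.2.1) * w)) % 2 ^ w)) 0

/-- table of the numbers of bits of a byte -/
def popT : ℕ := 95125173855764218123276304889944061997689682402263585766959741291920687686033329201817409157123347502415384089435969498586180241031507595463600295898153685276653211633572815512294064538494957912327413386667662218713394765509704508661031522276467630197481635010039778342554499416459730172574551513689147646224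

/-- number of bits below `8 * k` -/
def pop8 : ℕ → ℕ → ℕ
  | 0, _ => 0
  | k + 1, B => (popT >>> (4 * (B % 256))) % 16 + pop8 k (B >>> 8)

/-- sum over a block of length `2 ^ k` -/
def sumB (f : ℕ → ℕ) : ℕ → ℕ → ℕ
  | 0, s => f s
  | k + 1, s => sumB f k s + sumB f k (s + 2 ^ k)

theorem sumB_eq (f : ℕ → ℕ) (k : ℕ) : ∀ s, sumB f k s = ∑ x ∈ Finset.range (2 ^ k), f (s + x) := by
  induction k with
  | zero => intro s; simp [sumB]
  | succ k ih =>
    intro s
    rw [sumB, ih, ih, pow_succ, mul_two, Finset.sum_range_add]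
    simp only [add_assoc]

theorem popT_spec : ∀ b < 256, (popT >>> (4 * b)) % 16 =
    ∑ y ∈ Finset.range 8, (b.testBit y).toNat := by
  decide +kernel

theorem pop8_eq (k : ℕ) : ∀ B, pop8 k B = ∑ y ∈ Finset.range (8 * k), (B.testBit y).toNat := by
  induction k with
  | zero => intro B; simp [pop8]
  | succ k ih =>
    intro B
    rw [pop8, ih, popT_spec _ (Nat.mod_lt _ (by norm_num)), mul_add, mul_one, add_comm (8 * k),
      Finset.sum_range_add]
    congr 1
    · refine Finset.sum_congr rfl fun y hy => ?_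
      rw [show (256 : ℕ) = 2 ^ 8 by norm_num, Nat.testBit_mod_two_pow]
      simp [Finset.mem_range.1 hy]
    · refine Finset.sum_congr rfl fun y _ => ?_
      rw [Nat.testBit_shiftRight]

theorem foldl_or {α : Type*} (f : α → ℕ) (y : ℕ) (ts : List α) : ∀ B,
    ((ts.foldl (fun B q => B ||| f q) B).testBit y = true ↔
      B.testBit y = true ∨ ∃ q ∈ ts, (f q).testBit y = true) := by
  induction ts with
  | nil => intro B; simp
  | cons q ts ih =>
    intro B
    rw [List.foldl_cons, ih, Nat.testBit_or, Bool.or_eq_true]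
    simp only [List.mem_cons, exists_eq_or_imp]
    tauto

/-- index of a triple of bits -/
def ix3 (b1 b2 b3 : Bool) : ℕ := b1.toNat + 2 * b2.toNat + 4 * b3.toNat

theorem badM_testBit (w : ℕ) (ts : List (ℕ × ℕ × ℕ × ℕ)) (c y : ℕ) (hy : y < w) :
    (badM w ts c).testBit y = true ↔ ∃ q ∈ ts,
      q.2.2.2.testBit (ix3 (c.testBit q.1) (c.testBit q.2.1) (c.testBit q.2.2.1) * w + y)
        = true := by
  unfold badM
  rw [foldl_or]
  simp only [Nat.zero_testBit, Bool.false_eq_true, false_or, Nat.testBit_mod_two_pow,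
    Nat.testBit_shiftRight, hy, decide_true, Bool.true_and, bt_eq]
  rfl

/-- the tables are correct -/
structure TabOK (TB : Fin 4 → Fin 4 → Bool) (tq tp : ℕ) : Prop where
  hq : ∀ b1 b2 b3 q1 q2 q3 : Bool, tq.testBit (b1.toNat + 2 * b2.toNat + 4 * b3.toNat +
    8 * q1.toNat + 16 * q2.toNat + 32 * q3.toNat) = true ↔ isT TB b1 b2 b3 (!q1) (!q2) (!q3)
  hp : ∀ b1 b2 b3 p1 p2 p3 : Bool, tp.testBit (ix3 b1 b2 b3 + 8 * ix3 p1 p2 p3) = true ↔
    isT TB b1 b2 b3 p1 p2 p3

theorem okQ_iff (tq : ℕ) (qs : List (ℕ × ℕ × ℕ × ℕ × ℕ × ℕ)) (c : ℕ) :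
    okQ tq qs c = true ↔ ∀ q ∈ qs, tq.testBit ((c.testBit q.1).toNat +
      2 * (c.testBit q.2.1).toNat + 4 * (c.testBit q.2.2.1).toNat +
      8 * (c.testBit q.2.2.2.1).toNat + 16 * (c.testBit q.2.2.2.2.1).toNat +
      32 * (c.testBit q.2.2.2.2.2).toNat) = false := by
  have hb : ∀ b : Bool, (Nat.beq b.toNat 0 = true ↔ b = false) := by
    intro b
    cases b <;> simp
  unfold okQ
  rw [List.all_eq_true]
  simp only [bt_eq, hb]

variable {r : ℕ}

/-- the position list of a quadruple -/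
def posQ (es : List (Fin r × Fin r)) (i j l m : Fin r) : ℕ × ℕ × ℕ × ℕ × ℕ × ℕ :=
  (es.idxOf (i, j), es.idxOf (i, l), es.idxOf (j, l), es.idxOf (i, m), es.idxOf (j, m),
    es.idxOf (l, m))

/-- the mask table of a triple is correct -/
def PMok (tp : ℕ) (i j l : Fin r) (pm : ℕ) : Prop :=
  ∀ b1 b2 b3 : Bool, ∀ y < 2 ^ r, pm.testBit (ix3 b1 b2 b3 * 2 ^ r + y) =
    tp.testBit (ix3 b1 b2 b3 + 8 * ix3 (y.testBit i) (y.testBit j) (y.testBit l))

instance (tp : ℕ) (i j l : Fin r) (pm : ℕ) : Decidable (PMok tp i j l pm) := by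
  unfold PMok
  infer_instance

/-- specification of the lists -/
structure QSpec (es : List (Fin r × Fin r)) (qs : List (ℕ × ℕ × ℕ × ℕ × ℕ × ℕ)) : Prop where
  all : ∀ i j l m : Fin r, i < j → j < l → l < m → (i, j) ∈ es → (i, l) ∈ es → (j, l) ∈ es →
    (i, m) ∈ es → (j, m) ∈ es → (l, m) ∈ es → posQ es i j l m ∈ qs
  real : ∀ q ∈ qs, ∃ i j l m : Fin r, i < j ∧ j < l ∧ l < m ∧ (i, j) ∈ es ∧ (i, l) ∈ es ∧
    (j, l) ∈ es ∧ (i, m) ∈ es ∧ (j, m) ∈ es ∧ (l, m) ∈ es ∧ posQ es i j l m = q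

structure TSpec (tp : ℕ) (es : List (Fin r × Fin r)) (ts : List (ℕ × ℕ × ℕ × ℕ)) : Prop where
  all : ∀ i j l : Fin r, i < j → j < l → (i, j) ∈ es → (i, l) ∈ es → (j, l) ∈ es →
    ∃ q ∈ ts, q.1 = es.idxOf (i, j) ∧ q.2.1 = es.idxOf (i, l) ∧ q.2.2.1 = es.idxOf (j, l) ∧
      PMok tp i j l q.2.2.2
  real : ∀ q ∈ ts, ∃ i j l : Fin r, i < j ∧ j < l ∧ (i, j) ∈ es ∧ (i, l) ∈ es ∧ (j, l) ∈ es ∧
    q.1 = es.idxOf (i, j) ∧ q.2.1 = es.idxOf (i, l) ∧ q.2.2.1 = es.idxOf (j, l) ∧
      PMok tp i j l q.2.2.2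

variable {H : SimpleGraph (Fin r)} {es : List (Fin r × Fin r)}

theorem dec_bit (h : ESpec H es) (c : ℕ) {i j : Fin r} (hij : i < j) (hm : (i, j) ∈ es) :
    decide (dec es c i j) = c.testBit (es.idxOf (i, j)) ∧
    decide (dec es c j i) = !c.testBit (es.idxOf (i, j)) := by
  have h1 := dec_of_lt h c hij
  constructor
  · rw [Bool.eq_iff_iff, decide_eq_true_iff, h1.1]
    simp [hm]
  · rw [Bool.eq_iff_iff, decide_eq_true_iff, h1.2]
    simp [hm]

theorem okQ_spec (h : ESpec H es) {TB : Fin 4 → Fin 4 → Bool} (hT : IsTournament (toP TB))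
    {tq tp : ℕ} (htab : TabOK TB tq tp) {qs : List (ℕ × ℕ × ℕ × ℕ × ℕ × ℕ)}
    (hqs : QSpec es qs) (c : ℕ) : ¬ HasCopy (toP TB) (dec es c) ↔ okQ tq qs c = true := by
  rw [okQ_iff, hasCopy_iff (dec_ori h c) hT]
  constructor
  · intro hn q hq
    obtain ⟨i, j, l, m, hij, hjl, hlm, h1, h2, h3, h4, h5, h6, rfl⟩ := hqs.real q hq
    by_contra hcon
    rw [Bool.not_eq_false] at hcon
    simp only [posQ] at hcon
    rw [htab.hq] at hcon
    apply hn
    have hil := hij.trans hjl
    have hjm := hjl.trans hlm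
    have him := hij.trans hjm
    refine ⟨![i, j, l, m], ?_, ?_, ?_⟩
    · intro a b hab
      match a, b with
      | 0, 0 => exact (lt_irrefl _ hab).elim
      | 1, 1 => exact (lt_irrefl _ hab).elim
      | 2, 2 => exact (lt_irrefl _ hab).elim
      | 3, 3 => exact (lt_irrefl _ hab).elim
      | 0, 1 => exact hij
      | 0, 2 => exact hil
      | 0, 3 => exact him
      | 1, 2 => exact hjl
      | 1, 3 => exact hjm
      | 2, 3 => exact hlm
      | 1, 0 => exact absurd hab (by decide)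
      | 2, 0 => exact absurd hab (by decide)
      | 3, 0 => exact absurd hab (by decide)
      | 2, 1 => exact absurd hab (by decide)
      | 3, 1 => exact absurd hab (by decide)
      | 3, 2 => exact absurd hab (by decide)
    · have a01 := (h.adj i j hij).2 h1
      have a02 := (h.adj i l hil).2 h2
      have a12 := (h.adj j l hjl).2 h3
      have a03 := (h.adj i m him).2 h4
      have a13 := (h.adj j m hjm).2 h5
      have a23 := (h.adj l m hlm).2 h6
      intro a b hab
      match a, b with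
      | 0, 0 => exact (hab rfl).elim
      | 1, 1 => exact (hab rfl).elim
      | 2, 2 => exact (hab rfl).elim
      | 3, 3 => exact (hab rfl).elim
      | 0, 1 => exact a01
      | 0, 2 => exact a02
      | 0, 3 => exact a03
      | 1, 2 => exact a12
      | 1, 3 => exact a13
      | 2, 3 => exact a23
      | 1, 0 => exact a01.symm
      | 2, 0 => exact a02.symm
      | 3, 0 => exact a03.symm
      | 2, 1 => exact a12.symm
      | 3, 1 => exact a13.symm
      | 3, 2 => exact a23.symm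
    · have e1 := (dec_bit h c hij h1).1
      have e2 := (dec_bit h c hil h2).1
      have e3 := (dec_bit h c hjl h3).1
      have e4 := (dec_bit h c him h4).2
      have e5 := (dec_bit h c hjm h5).2
      have e6 := (dec_bit h c hlm h6).2
      show isT TB (decide (dec es c i j)) (decide (dec es c i l)) (decide (dec es c j l))
        (decide (dec es c m i)) (decide (dec es c m j)) (decide (dec es c m l))
      rw [e1, e2, e3, e4, e5, e6]
      exact hcon
  · rintro hall ⟨g, hg, hadj, hT'⟩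
    have h01 : g 0 < g 1 := hg (by decide)
    have h12 : g 1 < g 2 := hg (by decide)
    have h23 : g 2 < g 3 := hg (by decide)
    have h02 := h01.trans h12
    have h13 := h12.trans h23
    have h03 := h01.trans h13
    have m01 := (h.adj _ _ h01).1 (hadj 0 1 (by decide))
    have m02 := (h.adj _ _ h02).1 (hadj 0 2 (by decide))
    have m12 := (h.adj _ _ h12).1 (hadj 1 2 (by decide))
    have m03 := (h.adj _ _ h03).1 (hadj 0 3 (by decide))
    have m13 := (h.adj _ _ h13).1 (hadj 1 3 (by decide))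
    have m23 := (h.adj _ _ h23).1 (hadj 2 3 (by decide))
    have hq := hall _ (hqs.all _ _ _ _ h01 h12 h23 m01 m02 m12 m03 m13 m23)
    rw [(dec_bit h c h01 m01).1, (dec_bit h c h02 m02).1, (dec_bit h c h12 m12).1,
      (dec_bit h c h03 m03).2, (dec_bit h c h13 m13).2, (dec_bit h c h23 m23).2,
      ← htab.hq] at hT'
    simp only [posQ] at hq
    rw [hq] at hT'
    exact Bool.false_ne_true hT'

theorem att_spec (h : ESpec H es) {TB : Fin 4 → Fin 4 → Bool} (hT : IsTournament (toP TB))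
    {tq tp : ℕ} (htab : TabOK TB tq tp) {ts : List (ℕ × ℕ × ℕ × ℕ)}
    (hts : TSpec tp es ts) (c : ℕ) (hc : ¬ HasCopy (toP TB) (dec es c)) (y : ℕ)
    (hy : y < 2 ^ r) :
    HasCopy (toP TB) (ext (dec es c) (fun _ => True) (fun v : Fin r => y.testBit v = true)) ↔
      (badM (2 ^ r) ts c).testBit y = true := by
  rw [hasCopy_ext_iff (dec_ori h c) (fun _ _ => trivial) hT hc, badM_testBit _ _ _ _ hy]
  have hdec : ∀ (b : Bool) (inst : Decidable (b = true)), @decide (b = true) inst = b := by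
    intro b inst
    cases b <;> simp
  constructor
  · rintro ⟨i, j, l, hij, hjl, h1, h2, h3, -, -, -, hT'⟩
    have hil := hij.trans hjl
    have m1 := (h.adj _ _ hij).1 h1
    have m2 := (h.adj _ _ hil).1 h2
    have m3 := (h.adj _ _ hjl).1 h3
    obtain ⟨q, hq, e1, e2, e3, e4⟩ := hts.all i j l hij hjl m1 m2 m3
    refine ⟨q, hq, ?_⟩
    rw [(dec_bit h c hij m1).1, (dec_bit h c hil m2).1, (dec_bit h c hjl m3).1,
      hdec, hdec, hdec, ← htab.hp] at hT'
    rw [e1, e2, e3, e4 _ _ _ y hy]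
    exact hT'
  · rintro ⟨q, hq, hb⟩
    obtain ⟨i, j, l, hij, hjl, m1, m2, m3, e1, e2, e3, e4⟩ := hts.real q hq
    have hil := hij.trans hjl
    refine ⟨i, j, l, hij, hjl, (h.adj _ _ hij).2 m1, (h.adj _ _ hil).2 m2,
      (h.adj _ _ hjl).2 m3, trivial, trivial, trivial, ?_⟩
    rw [(dec_bit h c hij m1).1, (dec_bit h c hil m2).1, (dec_bit h c hjl m3).1,
      hdec, hdec, hdec, ← htab.hp, ← e4 _ _ _ y hy, ← e1, ← e2, ← e3]
    exact hb

theorem card_filter_not (n : ℕ) (f : ℕ → Bool) :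
    ((Finset.range n).filter (fun y => ¬ f y = true)).card =
      n - ∑ y ∈ Finset.range n, (f y).toNat := by
  have h1 : ∑ y ∈ Finset.range n, (f y).toNat =
      ((Finset.range n).filter (fun y => f y = true)).card := by
    rw [Finset.card_filter]
    refine Finset.sum_congr rfl fun y _ => ?_
    cases f y <;> simp
  have h2 := Finset.card_filter_add_card_filter_not (s := Finset.range n) (fun y => f y = true)
  rw [Finset.card_range] at h2
  omega

theorem ea_spec (h : ESpec H es) {TB : Fin 4 → Fin 4 → Bool} (hT : IsTournament (toP TB))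
    {tq tp : ℕ} (htab : TabOK TB tq tp) {ts : List (ℕ × ℕ × ℕ × ℕ)}
    (hts : TSpec tp es ts) {kk : ℕ} (hk : 8 * kk = 2 ^ r) (c : ℕ)
    (hc : ¬ HasCopy (toP TB) (dec es c)) :
    ea (toP TB) (dec es c) = 2 ^ r - pop8 kk (badM (2 ^ r) ts c) := by
  unfold ea att
  rw [card_masks, pop8_eq, hk, ← card_filter_not]
  congr 1
  ext y
  simp only [Finset.mem_filter, Finset.mem_range]
  constructor
  · rintro ⟨hy, _, hn⟩
    exact ⟨hy, fun hb => hn ((att_spec h hT htab hts c hc y hy).2 hb)⟩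
  · rintro ⟨hy, hn⟩
    exact ⟨hy, fun _ _ => trivial, fun hc' => hn ((att_spec h hT htab hts c hc y hy).1 hc')⟩

/-- **The enumeration theorem.** -/
theorem flat_sum (h : ESpec H es) {TB : Fin 4 → Fin 4 → Bool} (hT : IsTournament (toP TB))
    {tq tp : ℕ} (htab : TabOK TB tq tp) {qs : List (ℕ × ℕ × ℕ × ℕ × ℕ × ℕ)}
    (hqs : QSpec es qs) {ts : List (ℕ × ℕ × ℕ × ℕ)}
    (hts : TSpec tp es ts) {kk : ℕ} (hk : 8 * kk = 2 ^ r) (p : ℕ) :
    ∑ σ ∈ free (toP TB) H, ea (toP TB) σ ^ p =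
      sumB (fun c => if okQ tq qs c then (2 ^ r - pop8 kk (badM (2 ^ r) ts c)) ^ p else 0)
        es.length 0 := by
  rw [sum_codes h, sumB_eq, Finset.sum_filter]
  refine Finset.sum_congr rfl fun c _ => ?_
  rw [zero_add]
  by_cases hc : HasCopy (toP TB) (dec es c)
  · have h2 : ¬ okQ tq qs c = true := fun h3 => (okQ_spec h hT htab hqs c).2 h3 hc
    simp [hc, h2]
  · have h2 : okQ tq qs c = true := (okQ_spec h hT htab hqs c).1 hc
    rw [if_pos hc, if_pos h2, ea_spec h hT htab hts hk c hc]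

end TUR
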