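import Pool.Agent.TUR.Pajor

namespace TUR

open SimpleGraph Classical

/-- the bits of four vertices decide whether they span a copy -/
theorem isT_of_copy {V : Type*} {D : V → V → Prop} {g : Fin 4 → V}
    (h : ∀ a b, a ≠ b → (D (g a) (g b) ↔ ¬ D (g b) (g a))) (h0 : ∀ a, ¬ D (g a) (g a))
    {TB : Fin 4 → Fin 4 → Bool} (π : Equiv.Perm (Fin 4))
    (hπ : ∀ i j, TB i j = true ↔ D (g (π i)) (g (π j))) :
    isT TB (decide (D (g 0) (g 1))) (decide (D (g 0) (g 2))) (decide (D (g 1) (g 2)))
      (decide (D (g 3) (g 0))) (decide (D (g 3) (g 1))) (decide (D (g 3) (g 2))) := by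
  refine ⟨π, fun i j => ?_⟩
  have h1 := hπ i j
  have h2 := D4_iff h h0 (π i) (π j)
  rw [← h2] at h1
  exact Bool.eq_iff_iff.2 h1

/-- a copy can be read off an increasing quadruple -/
theorem hasCopy_iff {V : Type*} [LinearOrder V] {G : SimpleGraph V} {D : V → V → Prop}
    (hD : IsOrientation G D) {TB : Fin 4 → Fin 4 → Bool} (hT : IsTournament (toP TB)) :
    HasCopy (toP TB) D ↔ ∃ g : Fin 4 → V, StrictMono g ∧ (∀ a b, a ≠ b → G.Adj (g a) (g b)) ∧
      isT TB (decide (D (g 0) (g 1))) (decide (D (g 0) (g 2))) (decide (D (g 1) (g 2)))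
      (decide (D (g 3) (g 0))) (decide (D (g 3) (g 1))) (decide (D (g 3) (g 2))) := by
  constructor
  · rintro ⟨f, hf, h⟩
    have hadj : ∀ i j, i ≠ j → G.Adj (f i) (f j) := by
      intro i j hij
      by_cases hT1 : toP TB i j
      · exact hD.1 _ _ ((h i j).1 hT1)
      · have : toP TB j i := (hT.2 j i (by simpa using hij.symm)).2 hT1
        exact (hD.1 _ _ ((h j i).1 this)).symm
    let s := Tuple.sort f
    have hmono : Monotone (f ∘ s) := Tuple.monotone_sort f
    have hinj : Function.Injective (f ∘ s) := hf.comp s.injective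
    refine ⟨f ∘ s, hmono.strictMono_of_injective hinj, ?_, ?_⟩
    · intro a b hab
      exact hadj _ _ (fun e => hab (s.injective e))
    · refine isT_of_copy (g := f ∘ s) ?_ ?_ s.symm ?_
      · intro a b hab
        exact hD.2 _ _ (hadj _ _ (fun e => hab (s.injective e)))
      · intro a
        exact not_self hD _
      · intro i j
        have := h i j
        simpa [toP] using this
  · rintro ⟨g, hg, hadj, hT'⟩
    exact hasCopy_of_isT hg.injective (fun a b hab => hD.2 _ _ (hadj a b hab))
      (fun a => not_self hD _) hT'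

/-- `H` joined with one new vertex -/
def coneO {V : Type*} (H : SimpleGraph V) (N : V → Prop) : SimpleGraph (Option V) where
  Adj u v := match u, v with
    | some a, some a' => H.Adj a a'
    | some a, none => N a
    | none, some a => N a
    | none, none => False
  symm := ⟨by
    rintro (_ | a) (_ | a') h
    · exact h
    · exact h
    · exact h
    · exact SimpleGraph.Adj.symm h⟩
  loopless := ⟨by
    rintro (_ | a) h
    · exact h
    · exact H.irrefl h⟩

theorem ext_ori {V : Type*} {H : SimpleGraph V} {σ : V → V → Prop} (hσ : IsOrientation H σ)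
    {N x : V → Prop} (hx : ∀ v, x v → N v) : IsOrientation (coneO H N) (ext σ N x) := by
  constructor
  · rintro (_ | a) (_ | a') h
    · exact h
    · exact hx _ h
    · exact h.1
    · exact hσ.1 _ _ h
  · rintro (_ | a) (_ | a') h
    · exact h.elim
    · simp only [ext]
      have : N a' := h
      tauto
    · simp only [ext]
      have : N a := h
      tauto
    · exact hσ.2 _ _ h

/-- copies in an extension by one vertex -/
theorem hasCopy_ext_iff {r : ℕ} {H : SimpleGraph (Fin r)} {σ : Fin r → Fin r → Prop}
    (hσ : IsOrientation H σ) {N x : Fin r → Prop} (hx : ∀ v, x v → N v)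
    {TB : Fin 4 → Fin 4 → Bool} (hT : IsTournament (toP TB)) (hfree : ¬ HasCopy (toP TB) σ) :
    HasCopy (toP TB) (ext σ N x) ↔ ∃ i j l : Fin r, i < j ∧ j < l ∧ H.Adj i j ∧ H.Adj i l ∧
      H.Adj j l ∧ N i ∧ N j ∧ N l ∧
      isT TB (decide (σ i j)) (decide (σ i l)) (decide (σ j l))
        (decide (x i)) (decide (x j)) (decide (x l)) := by
  have hori := ext_ori hσ hx
  have h0 := @hasCopy_iff (WithTop (Fin r)) _ (coneO H N) (ext σ N x) hori TB hT
  have h0' : HasCopy (toP TB) (ext σ N x) ↔ _ := h0
  rw [h0']
  constructor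
  · rintro ⟨g, hg, hadj, hT'⟩
    have h01 : g 0 < g 1 := hg (by decide)
    have h12 : g 1 < g 2 := hg (by decide)
    have h23 : g 2 < g 3 := hg (by decide)
    obtain ⟨i, hi⟩ := WithTop.ne_top_iff_exists.1 (h01.trans (h12.trans h23)).ne_top
    obtain ⟨j, hj⟩ := WithTop.ne_top_iff_exists.1 (h12.trans h23).ne_top
    obtain ⟨l, hl⟩ := WithTop.ne_top_iff_exists.1 h23.ne_top
    have hij : i < j := by
      rw [← hi, ← hj] at h01
      exact WithTop.coe_lt_coe.1 h01
    have hjl : j < l := by
      rw [← hj, ← hl] at h12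
      exact WithTop.coe_lt_coe.1 h12
    by_cases h3 : g 3 = ⊤
    · have a01 := hadj 0 1 (by decide)
      have a02 := hadj 0 2 (by decide)
      have a12 := hadj 1 2 (by decide)
      have a03 := hadj 0 3 (by decide)
      have a13 := hadj 1 3 (by decide)
      have a23 := hadj 2 3 (by decide)
      rw [← hi, ← hj] at a01
      rw [← hi, ← hl] at a02
      rw [← hj, ← hl] at a12
      rw [← hi, h3] at a03
      rw [← hj, h3] at a13
      rw [← hl, h3] at a23
      rw [← hi, ← hj, ← hl, h3] at hT'
      exact ⟨i, j, l, hij, hjl, a01, a02, a12, a03, a13, a23, hT'⟩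
    · exfalso
      obtain ⟨m, hm⟩ := WithTop.ne_top_iff_exists.1 h3
      apply hfree
      rw [hasCopy_iff hσ hT]
      refine ⟨![i, j, l, m], ?_, ?_, ?_⟩
      · have hlm : l < m := by
          rw [← hl, ← hm] at h23
          exact WithTop.coe_lt_coe.1 h23
        have h02 := hij.trans hjl
        have h13 := hjl.trans hlm
        have h03 := hij.trans h13
        intro a b hab
        match a, b with
        | 0, 0 => exact (lt_irrefl _ hab).elim
        | 1, 1 => exact (lt_irrefl _ hab).elim
        | 2, 2 => exact (lt_irrefl _ hab).elim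
        | 3, 3 => exact (lt_irrefl _ hab).elim
        | 0, 1 => exact hij
        | 0, 2 => exact h02
        | 0, 3 => exact h03
        | 1, 2 => exact hjl
        | 1, 3 => exact h13
        | 2, 3 => exact hlm
        | 1, 0 => exact absurd hab (by decide)
        | 2, 0 => exact absurd hab (by decide)
        | 3, 0 => exact absurd hab (by decide)
        | 2, 1 => exact absurd hab (by decide)
        | 3, 1 => exact absurd hab (by decide)
        | 3, 2 => exact absurd hab (by decide)
      · have hga : ∀ a, g a = ((![i, j, l, m] a : Fin r) : WithTop (Fin r)) := by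
          intro a
          match a with
          | 0 => exact hi.symm
          | 1 => exact hj.symm
          | 2 => exact hl.symm
          | 3 => exact hm.symm
        intro a b hab
        have := hadj a b hab
        rw [hga, hga] at this
        exact this
      · rw [← hi, ← hj, ← hl, ← hm] at hT'
        exact hT'
  · rintro ⟨i, j, l, hij, hjl, a01, a02, a12, a03, a13, a23, hT'⟩
    refine ⟨![(i : WithTop (Fin r)), (j : WithTop (Fin r)), (l : WithTop (Fin r)), ⊤], ?_, ?_, hT'⟩
    · have h01 : (i : WithTop (Fin r)) < j := WithTop.coe_lt_coe.2 hij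
      have h12 : (j : WithTop (Fin r)) < l := WithTop.coe_lt_coe.2 hjl
      have h23 : (l : WithTop (Fin r)) < ⊤ := WithTop.coe_lt_top l
      intro a b hab
      match a, b with
      | 0, 0 => exact (lt_irrefl _ hab).elim
      | 1, 1 => exact (lt_irrefl _ hab).elim
      | 2, 2 => exact (lt_irrefl _ hab).elim
      | 3, 3 => exact (lt_irrefl _ hab).elim
      | 0, 1 => exact h01
      | 0, 2 => exact h01.trans h12
      | 0, 3 => exact h01.trans (h12.trans h23)
      | 1, 2 => exact h12
      | 1, 3 => exact h12.trans h23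
      | 2, 3 => exact h23
      | 1, 0 => exact absurd hab (by decide)
      | 2, 0 => exact absurd hab (by decide)
      | 3, 0 => exact absurd hab (by decide)
      | 2, 1 => exact absurd hab (by decide)
      | 3, 1 => exact absurd hab (by decide)
      | 3, 2 => exact absurd hab (by decide)
    · intro a b hab
      match a, b with
      | 0, 0 => exact (hab rfl).elim
      | 1, 1 => exact (hab rfl).elim
      | 2, 2 => exact (hab rfl).elim
      | 3, 3 => exact (hab rfl).elim
      | 0, 1 => exact a01
      | 0, 2 => exact a02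
      | 0, 3 => exact a03
      | 1, 2 => exact a12
      | 1, 3 => exact a13
      | 2, 3 => exact a23
      | 1, 0 => exact a01.symm
      | 2, 0 => exact a02.symm
      | 3, 0 => exact a03
      | 2, 1 => exact a12.symm
      | 3, 1 => exact a13
      | 3, 2 => exact a23

section code

variable {r : ℕ}

/-- the orientation with code `c` -/
def dec (es : List (Fin r × Fin r)) (c : ℕ) (i j : Fin r) : Prop :=
  ((i, j) ∈ es ∧ c.testBit (es.idxOf (i, j)) = true) ∨
  ((j, i) ∈ es ∧ c.testBit (es.idxOf (j, i)) = false)

/-- `es` lists the edges of `H` -/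
structure ESpec (H : SimpleGraph (Fin r)) (es : List (Fin r × Fin r)) : Prop where
  nd : es.Nodup
  lt : ∀ e ∈ es, e.1 < e.2
  adj : ∀ i j, i < j → (H.Adj i j ↔ (i, j) ∈ es)

variable {H : SimpleGraph (Fin r)} {es : List (Fin r × Fin r)}

theorem ESpec.not_swap (h : ESpec H es) {i j : Fin r} (hij : i < j) : (j, i) ∉ es :=
  fun hm => absurd (h.lt _ hm) (not_lt.2 hij.le)

theorem dec_of_lt (h : ESpec H es) (c : ℕ) {i j : Fin r} (hij : i < j) :
    (dec es c i j ↔ (i, j) ∈ es ∧ c.testBit (es.idxOf (i, j)) = true) ∧
    (dec es c j i ↔ (i, j) ∈ es ∧ c.testBit (es.idxOf (i, j)) = false) := by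
  have := h.not_swap hij
  unfold dec
  constructor
  · simp [this]
  · simp [this]

theorem dec_ori (h : ESpec H es) (c : ℕ) : IsOrientation H (dec es c) := by
  constructor
  · intro i j hd
    rcases lt_trichotomy i j with hij | hij | hij
    · exact (h.adj i j hij).2 ((dec_of_lt h c hij).1.1 hd).1
    · subst hij
      unfold dec at hd
      rcases hd with hd | hd
      · exact (lt_irrefl _ (h.lt _ hd.1)).elim
      · exact (lt_irrefl _ (h.lt _ hd.1)).elim
    · exact ((h.adj j i hij).2 ((dec_of_lt h c hij).2.1 hd).1).symm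
  · intro i j ha
    rcases lt_trichotomy i j with hij | hij | hij
    · rw [(dec_of_lt h c hij).1, (dec_of_lt h c hij).2]
      have := (h.adj i j hij).1 ha
      simp [this]
    · subst hij
      exact (H.irrefl ha).elim
    · rw [(dec_of_lt h c hij).1, (dec_of_lt h c hij).2]
      have := (h.adj j i hij).1 ha.symm
      simp [this]

theorem dec_inj (h : ESpec H es) {c c' : ℕ} (hc : c < 2 ^ es.length) (hc' : c' < 2 ^ es.length)
    (hd : dec es c = dec es c') : c = c' := by
  apply Nat.eq_of_testBit_eq
  intro t
  by_cases ht : t < es.length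
  · have hm : es[t] ∈ es := List.getElem_mem ht
    have hlt := h.lt _ hm
    have h1 := (dec_of_lt h c hlt).1
    have h2 := (dec_of_lt h c' hlt).1
    have hidx : es.idxOf es[t] = t := h.nd.idxOf_getElem t ht
    rw [hd] at h1
    rw [h1] at h2
    simp only [Prod.mk.eta, hm, true_and, hidx] at h2
    exact Bool.eq_iff_iff.2 h2
  · have h1 : 2 ^ es.length ≤ 2 ^ t := Nat.pow_le_pow_right (by norm_num) (by omega)
    rw [Nat.testBit_lt_two_pow (by omega), Nat.testBit_lt_two_pow (by omega)]

theorem dec_surj (h : ESpec H es) {D : Fin r → Fin r → Prop} (hD : IsOrientation H D) :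
    ∃ c < 2 ^ es.length, dec es c = D := by
  refine ⟨Nat.ofBits (fun t : Fin es.length => decide (D (es[t]).1 (es[t]).2)),
    Nat.ofBits_lt_two_pow _, ?_⟩
  set c := Nat.ofBits (fun t : Fin es.length => decide (D (es[t]).1 (es[t]).2)) with hcdef
  have key : ∀ i j : Fin r, i < j → H.Adj i j → (dec es c i j ↔ D i j) := by
    intro i j hij ha
    have hm := (h.adj i j hij).1 ha
    rw [(dec_of_lt h c hij).1]
    have hl : es.idxOf (i, j) < es.length := List.idxOf_lt_length_iff.2 hm
    have hg : es[es.idxOf (i, j)] = (i, j) := List.getElem_idxOf hl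
    rw [hcdef, Nat.testBit_ofBits_lt _ _ hl]
    simp only [hm, true_and, decide_eq_true_iff]
    simp [hg]
  have hori := dec_ori h c
  funext i j
  apply propext
  rcases lt_trichotomy i j with hij | hij | hij
  · by_cases ha : H.Adj i j
    · exact key i j hij ha
    · exact ⟨fun hd => (ha (hori.1 _ _ hd)).elim, fun hd => (ha (hD.1 _ _ hd)).elim⟩
  · subst hij
    exact ⟨fun hd => (not_self hori _ hd).elim, fun hd => (not_self hD _ hd).elim⟩
  · by_cases ha : H.Adj j i
    · rw [hori.2 i j ha.symm, hD.2 i j ha.symm, key j i hij ha]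
    · exact ⟨fun hd => (ha (hori.1 _ _ hd).symm).elim, fun hd => (ha (hD.1 _ _ hd).symm).elim⟩

/-- sums over free orientations as sums over codes -/
theorem sum_codes {M : Type*} [AddCommMonoid M] (h : ESpec H es) {TB : Fin 4 → Fin 4 → Bool}
    (φ : (Fin r → Fin r → Prop) → M) :
    ∑ σ ∈ free (toP TB) H, φ σ =
      ∑ c ∈ (Finset.range (2 ^ es.length)).filter (fun c => ¬ HasCopy (toP TB) (dec es c)),
        φ (dec es c) := by
  have himg : free (toP TB) H =
      ((Finset.range (2 ^ es.length)).filter
        (fun c => ¬ HasCopy (toP TB) (dec es c))).image (dec es) := by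
    ext D
    rw [mem_free, Finset.mem_image]
    constructor
    · rintro ⟨h1, h2⟩
      obtain ⟨c, hc, hcd⟩ := dec_surj h h1
      exact ⟨c, by simp [hc, hcd, h2], hcd⟩
    · rintro ⟨c, hc, rfl⟩
      rw [Finset.mem_filter, Finset.mem_range] at hc
      exact ⟨dec_ori h c, hc.2⟩
  rw [himg, Finset.sum_image]
  intro c hc c' hc' hcc
  rw [Finset.mem_coe, Finset.mem_filter, Finset.mem_range] at hc hc'
  exact dec_inj h hc.1 hc'.1 hcc

/-- number of attachments as a number of masks -/
theorem card_masks (P : (Fin r → Prop) → Prop) [DecidablePred P]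
    (inst : Fintype (Fin r → Prop)) :
    ((@Finset.univ (Fin r → Prop) inst).filter P).card =
      ((Finset.range (2 ^ r)).filter (fun y => P (fun v => y.testBit v = true))).card := by
  symm
  refine Finset.card_bij (fun y _ => fun v : Fin r => y.testBit v = true) ?_ ?_ ?_
  · intro y hy
    rw [Finset.mem_filter] at hy
    simp [hy.2]
  · intro y hy y' hy' hyy
    rw [Finset.mem_filter, Finset.mem_range] at hy hy'
    apply Nat.eq_of_testBit_eq
    intro t
    by_cases ht : t < r
    · have := congrFun hyy ⟨t, ht⟩
      simp only [eq_iff_iff] at this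
      exact Bool.eq_iff_iff.2 this
    · have h1 : 2 ^ r ≤ 2 ^ t := Nat.pow_le_pow_right (by norm_num) (by omega)
      rw [Nat.testBit_lt_two_pow (by omega), Nat.testBit_lt_two_pow (by omega)]
  · intro x hx
    rw [Finset.mem_filter] at hx
    have hx' : (fun v : Fin r => (Nat.ofBits (fun t : Fin r => decide (x t))).testBit v = true) = x := by
      funext v
      rw [Nat.testBit_ofBits_lt _ _ v.2]
      simp
    refine ⟨Nat.ofBits (fun t : Fin r => decide (x t)), ?_, hx'⟩
    rw [Finset.mem_filter, Finset.mem_range]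
    refine ⟨Nat.ofBits_lt_two_pow _, ?_⟩
    rw [hx']
    exact hx.2

end code

end TUR
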