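import Pool.Agent.TUR.DP

namespace TUR

open SimpleGraph Classical

variable {k : ℕ}

/-- the complete multipartite graph of a colouring -/
def CM {V : Type*} (c : V → ℕ) : SimpleGraph V := (⊤ : SimpleGraph ℕ).comap c

theorem CM_adj {V : Type*} (c : V → ℕ) (u v : V) : (CM c).Adj u v ↔ c u ≠ c v := Iff.rfl

theorem CM_comap {V W : Type*} (c : V → ℕ) (f : W → V) : (CM c).comap f = CM (c ∘ f) := rfl

theorem CM_blk (L : List ℕ) : CM (blk L) = Gt L := by
  ext u v
  exact (Gt_adj L u v).symm

theorem CM_inj {V : Type*} (c : V → ℕ) (hc : Function.Injective c) : CM c = ⊤ := by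
  ext u v
  rw [CM_adj, top_adj]
  exact not_congr hc.eq_iff

/-- size of a colour class -/
noncomputable def fib {V : Type*} [Fintype V] (c : V → ℕ) (i : ℕ) : ℕ :=
  ∑ v : V, if c v = i then 1 else 0

theorem iso_of_fib {V W : Type*} [Fintype V] [Fintype W] (c : V → ℕ) (c' : W → ℕ)
    (h : ∀ i, fib c i = fib c' i) : Nonempty (CM c ≃g CM c') := by
  have h1 : ∀ i, Nonempty ({v // c v = i} ≃ {w // c' w = i}) := by
    intro i
    rw [← Fintype.card_eq, Fintype.card_subtype, Fintype.card_subtype, Finset.card_filter,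
      Finset.card_filter]
    exact h i
  let e : ∀ i, {v // c v = i} ≃ {w // c' w = i} := fun i => (h1 i).some
  let E : V ≃ W := (Equiv.sigmaFiberEquiv c).symm.trans
    ((Equiv.sigmaCongrRight e).trans (Equiv.sigmaFiberEquiv c'))
  have hE : ∀ v, c' (E v) = c v := by
    intro v
    have : E v = (e (c v) ⟨v, rfl⟩).1 := rfl
    rw [this]
    exact (e (c v) ⟨v, rfl⟩).2
  refine ⟨⟨E, ?_⟩⟩
  intro a b
  rw [CM_adj, CM_adj, hE, hE]

theorem fib_nil (i : ℕ) : fib (blk []) i = 0 := by
  unfold fib
  refine Finset.sum_eq_zero fun v _ => ?_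
  exact nomatch v

theorem fib_cons (p : ℕ) (L : List ℕ) (i : ℕ) :
    fib (blk (p :: L)) i = fib (blk L) i + if L.length = i then p else 0 := by
  unfold fib
  have h := Fintype.sum_sum_type (α₁ := Vt L) (α₂ := Fin p)
    (fun v : Vt L ⊕ Fin p => if blk (p :: L) v = i then 1 else 0)
  refine h.trans ?_
  congr 1
  have : ∀ x : Fin p, (if blk (p :: L) (Sum.inr x) = i then 1 else 0) =
      if L.length = i then 1 else 0 := fun x => rfl
  simp only [this, Finset.sum_const, Finset.card_univ, Fintype.card_fin, smul_eq_mul]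
  split_ifs <;> simp

theorem fib_sum {A B : Type*} [Fintype A] [Fintype B] (c : A ⊕ B → ℕ) (i : ℕ) :
    fib c i = fib (c ∘ Sum.inl) i + fib (c ∘ Sum.inr) i := by
  unfold fib
  exact Fintype.sum_sum_type _

/-- **Removing a transversal clique.** -/
theorem F_le_clique {T : Fin k → Fin k → Prop} {q : ℕ} (c : Fin q → ℕ)
    (hc : Function.Injective c) (L L' : List ℕ)
    (hL : ∀ i, fib (blk L) i = fib c i + fib (blk L') i) :
    F T L ≤ F T L' * ∑ σ ∈ free T (⊤ : SimpleGraph (Fin q)), ∏ b : Vt L',
        (att T σ (fun a => c a ≠ blk L' b)).card := by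
  obtain ⟨e⟩ := iso_of_fib (blk L) (Sum.elim c (blk L')) (by
    intro i
    rw [hL i, fib_sum]
    rfl)
  have h1 : F T L = nf T (CM (Sum.elim c (blk L'))) := by
    unfold F
    rw [← CM_blk]
    exact nf_congr T e
  rw [h1]
  have h2 := nf_le T (CM (Sum.elim c (blk L')))
  have h3 : (CM (Sum.elim c (blk L'))).comap Sum.inr = Gt L' := by
    rw [← CM_blk]
    rfl
  have h4 : (CM (Sum.elim c (blk L'))).comap Sum.inl = (⊤ : SimpleGraph (Fin q)) := by
    rw [← CM_inj c hc]
    rfl
  rw [h3, h4] at h2
  exact h2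

/-- attachments of a vertex, reduced to a subset and one more vertex -/
theorem att_le_two {A : Type*} [Fintype A] {r : ℕ} {T : Fin k → Fin k → Prop}
    {σ : A → A → Prop} {N : A → Prop} (f : Fin r → A) (hf : Function.Injective f)
    (hN : ∀ i, N (f i)) (a0 : A) (h0 : ∀ a, N a → a = a0 ∨ ∃ i, f i = a) :
    (att T σ N).card ≤ 2 * ea T (fun i j => σ (f i) (f j)) := by
  unfold ea
  have h2 : 2 = (Finset.univ : Finset Prop).card := by
    rw [Finset.card_univ, Fintype.card_prop]
  rw [h2, mul_comm, ← Finset.card_product]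
  refine Finset.card_le_card_of_injOn (fun x => (fun i => x (f i), x a0)) ?_ ?_
  · intro x hx
    rw [Finset.mem_coe, mem_att] at hx
    rw [Finset.coe_product, Set.mem_prod]
    refine ⟨?_, Finset.mem_coe.2 (Finset.mem_univ _)⟩
    rw [Finset.mem_coe, mem_att]
    refine ⟨fun _ _ => trivial, fun hc => hx.2 ?_⟩
    have hc2 : HasCopy T (fun a b => ext σ N x (Option.map f a) (Option.map f b)) := by
      have he : (fun a b => ext σ N x (Option.map f a) (Option.map f b)) =
          ext (fun i j => σ (f i) (f j)) (fun _ => True) (fun i => x (f i)) := by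
        funext a b
        rcases a with _ | a <;> rcases b with _ | b
        · rfl
        · rfl
        · simp only [ext, Option.map_some, Option.map_none, hN, true_and]
        · rfl
      rw [he]
      exact hc
    exact hc2.of_comp _ (Option.map_injective hf)
  · intro x hx x' hx' h
    rw [Finset.mem_coe, mem_att] at hx hx'
    simp only [Prod.mk.injEq] at h
    funext a
    by_cases ha : N a
    · rcases h0 a ha with rfl | ⟨i, rfl⟩
      · exact h.2
      · exact congrFun h.1 i
    · have h1 : ¬ x a := fun h => ha (hx.1 a h)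
      have h2 : ¬ x' a := fun h => ha (hx'.1 a h)
      simp [h1, h2]

end TUR
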