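import Pool.Agent.TUR.Sym

namespace TUR

open SimpleGraph Classical

variable {k : ℕ}

/-- `H` joined with an independent set `B` -/
def cone {A : Type*} (H : SimpleGraph A) (B : Type*) : SimpleGraph (A ⊕ B) where
  Adj u v := match u, v with
    | .inl a, .inl a' => H.Adj a a'
    | .inl _, .inr _ => True
    | .inr _, .inl _ => True
    | .inr _, .inr _ => False
  symm := ⟨by
    rintro (a | b) (a' | b') h
    · exact SimpleGraph.Adj.symm h
    · trivial
    · trivial
    · exact h⟩
  loopless := ⟨by
    rintro (a | b) h
    · exact H.irrefl h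
    · exact h⟩

@[simp] theorem cone_ll {A B : Type*} (H : SimpleGraph A) (a a' : A) :
    (cone H B).Adj (.inl a) (.inl a') ↔ H.Adj a a' := Iff.rfl
@[simp] theorem cone_lr {A B : Type*} (H : SimpleGraph A) (a : A) (b : B) :
    (cone H B).Adj (.inl a) (.inr b) := trivial
@[simp] theorem cone_rl {A B : Type*} (H : SimpleGraph A) (a : A) (b : B) :
    (cone H B).Adj (.inr b) (.inl a) := trivial
@[simp] theorem cone_rr {A B : Type*} (H : SimpleGraph A) (b b' : B) :
    ¬ (cone H B).Adj (.inr b) (.inr b') := fun h => h

theorem cone_comap {A B : Type*} (H : SimpleGraph A) : (cone H B).comap Sum.inl = H := by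
  ext a a'
  rfl

/-- number of attachments of a new vertex joined to everything -/
noncomputable def ea {V : Type*} [Fintype V] (T : Fin k → Fin k → Prop) (σ : V → V → Prop) : ℕ :=
  (att T σ (fun _ => True)).card

theorem nf_cone {A B : Type*} [Fintype A] [Fintype B] {T : Fin k → Fin k → Prop}
    (hT : IsTournament T) (H : SimpleGraph A) :
    nf T (cone H B) = ∑ σ ∈ free T H, (ea T σ) ^ (Fintype.card B) := by
  rw [nf_eq hT (fun b b' => cone_rr H b b'), cone_comap]
  refine Finset.sum_congr rfl fun σ _ => ?_
  have : ∀ b : B, (fun a => (cone H B).Adj (.inl a) (.inr b)) = fun _ => True := by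
    intro b
    funext a
    simp
  simp only [this, Finset.prod_const, Finset.card_univ]
  rfl

/-- cones of isomorphic graphs -/
def coneIso {A A' B B' : Type*} {H : SimpleGraph A} {H' : SimpleGraph A'} (e : H ≃g H')
    (f : B ≃ B') : cone H B ≃g cone H' B' where
  toEquiv := Equiv.sumCongr e.toEquiv f
  map_rel_iff' := by
    rintro (a | b) (a' | b')
    · exact e.map_rel_iff
    · exact Iff.rfl
    · exact Iff.rfl
    · exact Iff.rfl

def coneSwap {A B C : Type*} (H : SimpleGraph A) :
    cone (cone H B) C ≃g cone (cone H C) B where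
  toEquiv :=
    { toFun := fun
        | .inl (.inl a) => .inl (.inl a)
        | .inl (.inr b) => .inr b
        | .inr c => .inl (.inr c)
      invFun := fun
        | .inl (.inl a) => .inl (.inl a)
        | .inl (.inr b) => .inr b
        | .inr c => .inl (.inr c)
      left_inv := by rintro ((a | b) | c) <;> rfl
      right_inv := by rintro ((a | b) | c) <;> rfl }
  map_rel_iff' := by
    rintro ((a | b) | c) ((a' | b') | c') <;> exact Iff.rfl

/-- vertices of the complete multipartite graph with part sizes `L` -/
def Vt : List ℕ → Type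
  | [] => Empty
  | p :: L => Vt L ⊕ Fin p

instance instFintypeVt : (L : List ℕ) → Fintype (Vt L)
  | [] => inferInstanceAs (Fintype Empty)
  | p :: L => by
    haveI := instFintypeVt L
    exact inferInstanceAs (Fintype (Vt L ⊕ Fin p))

instance instDecEqVt : (L : List ℕ) → DecidableEq (Vt L)
  | [] => inferInstanceAs (DecidableEq Empty)
  | p :: L => by
    haveI := instDecEqVt L
    exact inferInstanceAs (DecidableEq (Vt L ⊕ Fin p))

/-- the complete multipartite graph with part sizes `L` -/
def Gt : (L : List ℕ) → SimpleGraph (Vt L)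
  | [] => ⊥
  | p :: L => cone (Gt L) (Fin p)

theorem card_Vt (L : List ℕ) : Fintype.card (Vt L) = L.sum := by
  induction L with
  | nil => rfl
  | cons p L ih =>
    rw [List.sum_cons, ← ih]
    have : Fintype.card (Vt (p :: L)) = Fintype.card (Vt L ⊕ Fin p) := rfl
    rw [this, Fintype.card_sum, Fintype.card_fin, add_comm]

/-- the number of `T`-free orientations of the complete multipartite graph -/
noncomputable def F (T : Fin k → Fin k → Prop) (L : List ℕ) : ℕ := nf T (Gt L)

theorem F_cons {T : Fin k → Fin k → Prop} (hT : IsTournament T) (p : ℕ) (L : List ℕ) :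
    F T (p :: L) = ∑ σ ∈ free T (Gt L), (ea T σ) ^ p := by
  have := nf_cone (B := Fin p) hT (Gt L)
  rw [Fintype.card_fin] at this
  exact this

theorem F_zero {T : Fin k → Fin k → Prop} (hT : IsTournament T) (L : List ℕ) :
    F T (0 :: L) = F T L := by
  rw [F_cons hT]
  simp [F, nf]

theorem iso_of_perm {L L' : List ℕ} (h : L.Perm L') : Nonempty (Gt L ≃g Gt L') := by
  induction h with
  | nil => exact ⟨Iso.refl⟩
  | cons p _ ih =>
    obtain ⟨e⟩ := ih
    exact ⟨coneIso e (Equiv.refl _)⟩
  | swap p q L => exact ⟨coneSwap (Gt L)⟩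
  | trans _ _ ih1 ih2 =>
    obtain ⟨e1⟩ := ih1
    obtain ⟨e2⟩ := ih2
    exact ⟨e1.trans e2⟩

theorem F_perm (T : Fin k → Fin k → Prop) {L L' : List ℕ} (h : L.Perm L') : F T L = F T L' := by
  obtain ⟨e⟩ := iso_of_perm h
  exact nf_congr T e

/-- index of the part -/
def blk : (L : List ℕ) → Vt L → ℕ
  | [], v => nomatch v
  | _ :: L, v => match v with
    | .inl u => blk L u
    | .inr _ => L.length

theorem blk_lt : (L : List ℕ) → (v : Vt L) → blk L v < L.length
  | [], v => nomatch v
  | _ :: L, v => match v with
    | .inl u => (blk_lt L u).trans (by simp)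
    | .inr _ => by simp [blk]

theorem Gt_adj : (L : List ℕ) → (u v : Vt L) → ((Gt L).Adj u v ↔ blk L u ≠ blk L v)
  | [], v => nomatch v
  | _ :: L, v => by
    intro w
    match v, w with
    | .inl u, .inl u' => exact Gt_adj L u u'
    | .inl u, .inr _ =>
      have := blk_lt L u
      simp only [Gt, cone_lr, blk, true_iff]
      omega
    | .inr _, .inl u =>
      have := blk_lt L u
      simp only [Gt, cone_rl, blk, true_iff]
      omega
    | .inr _, .inr _ => simp [Gt, blk]

theorem clique_le (L : List ℕ) (C : Finset (Vt L)) (hC : (Gt L).IsClique C) :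
    C.card ≤ L.length := by
  rw [← Finset.card_range L.length]
  refine Finset.card_le_card_of_injOn (blk L) ?_ ?_
  · intro v _
    simpa using blk_lt L v
  · intro u hu v hv huv
    by_contra hne
    exact (Gt_adj L u v).1 (hC hu hv hne) huv

/-- every complete multipartite graph is isomorphic to some `Gt L` -/
theorem exists_list (n : ℕ) : ∀ {V : Type} [Fintype V] (G : SimpleGraph V),
    Fintype.card V = n → (∀ x y, ¬ G.Adj x y → ∀ z, G.Adj x z ↔ G.Adj y z) →
    ∃ L : List ℕ, (∀ p ∈ L, 1 ≤ p) ∧ Nonempty (G ≃g Gt L) := by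
  induction n using Nat.strong_induction_on with
  | _ n ih =>
    intro V _ G hn hG
    by_cases hV : IsEmpty V
    · have : IsEmpty (Vt []) := inferInstanceAs (IsEmpty Empty)
      refine ⟨[], by simp, ⟨⟨Equiv.equivOfIsEmpty V (Vt []), ?_⟩⟩⟩
      intro a
      exact hV.elim a
    · rw [not_isEmpty_iff] at hV
      obtain ⟨x⟩ := hV
      obtain ⟨L, hL, ⟨e⟩⟩ := ih (Fintype.card {y : V // G.Adj x y}) (by
        rw [← hn]
        exact Fintype.card_subtype_lt (x := x) (G.irrefl))
        (G.comap (Subtype.val : {y : V // G.Adj x y} → V)) rfl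
        (fun a b hab c => hG a.1 b.1 hab c.1)
      refine ⟨Fintype.card {y : V // ¬ G.Adj x y} :: L, ?_, ?_⟩
      · intro p hp
        rcases List.mem_cons.1 hp with rfl | hp
        · exact Fintype.card_pos_iff.2 ⟨⟨x, G.irrefl⟩⟩
        · exact hL p hp
      · have e1 : cone (G.comap (Subtype.val : {y : V // G.Adj x y} → V)) {y : V // ¬ G.Adj x y} ≃g G :=
          { toEquiv := Equiv.sumCompl (fun y => G.Adj x y)
            map_rel_iff' := by
              rintro (a | b) (a' | b')
              · exact Iff.rfl
              · simp only [Equiv.sumCompl_apply_inl, Equiv.sumCompl_apply_inr, cone_lr, iff_true]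
                rw [G.adj_comm, ← hG x b'.1 b'.2]
                exact a.2
              · simp only [Equiv.sumCompl_apply_inl, Equiv.sumCompl_apply_inr, cone_rl, iff_true]
                rw [← hG x b.1 b.2]
                exact a'.2
              · simp only [Equiv.sumCompl_apply_inr, cone_rr, iff_false]
                rw [← hG x b.1 b.2]
                exact b'.2 }
        exact ⟨e1.symm.trans (coneIso e (Fintype.equivFin _))⟩

end TUR
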