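import Pool.Agent.TUR.Num

namespace TUR

theorem two_gg (a t : ℕ) : (2 : ℤ) * gg a t =
    2 + 2 * t * ((2 : ℤ) ^ a - 1) + t * (t - 1) * ((2 : ℤ) ^ a - 1) ^ 2 := by
  have hA : 1 ≤ 2 ^ a := Nat.one_le_two_pow
  induction t with
  | zero => simp [gg]
  | succ t ih =>
    rw [gg]
    push_cast [hA]
    linarith [ih]

theorem gm_crude (a N : ℕ) (ha : 0 < a) (ht : 1 ≤ N / a) :
    2 * gm a N ≤ (N / a) ^ 2 * 4 ^ a := by
  have hA : 1 ≤ 2 ^ a := Nat.one_le_two_pow
  have hR : 1 ≤ 2 ^ (N % a) := Nat.one_le_two_pow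
  have hR2 : 2 * 2 ^ (N % a) ≤ 2 ^ a := by
    rw [← pow_succ']
    exact Nat.pow_le_pow_right (by norm_num) (Nat.mod_lt N ha)
  have h4 : (4 : ℕ) ^ a = (2 ^ a) ^ 2 := by
    rw [← pow_mul, mul_comm, pow_mul]
    norm_num
  rw [h4]
  unfold gm
  have h := two_gg a (N / a)
  generalize N / a = t at *
  generalize N % a = r at *
  zify [hA, hR] at h ⊢
  have hR2' : (2 : ℤ) * 2 ^ r ≤ 2 ^ a := by exact_mod_cast hR2
  have hR' : (1 : ℤ) ≤ 2 ^ r := by exact_mod_cast hR
  have ht' : (1 : ℤ) ≤ t := by exact_mod_cast ht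
  have hA' : (1 : ℤ) ≤ 2 ^ a := by exact_mod_cast hA
  generalize (2 : ℤ) ^ a = x at *
  generalize (2 : ℤ) ^ r = y at *
  have e1 : 2 * ((y - 1) * (1 + t * (x - 1))) ≤ (x - 2) * (1 + t * (x - 1)) := by
    have : 0 ≤ 1 + (t : ℤ) * (x - 1) := by nlinarith
    nlinarith
  have e2 : (0 : ℤ) ≤ (x - 1) * (t - 1) := mul_nonneg (by linarith) (by linarith)
  have e3 : (0 : ℤ) ≤ (x - 1) * (t * (t - 1)) :=
    mul_nonneg (by linarith) (mul_nonneg (by linarith) (by linarith))
  nlinarith [sq_nonneg ((t : ℤ) - 1)]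

theorem gg_two (a : ℕ) : gg a 2 = 4 ^ a := by
  have hA : 1 ≤ 2 ^ a := Nat.one_le_two_pow
  have h := two_gg a 2
  have h4 : (4 : ℤ) ^ a = (2 ^ a) ^ 2 := by
    rw [← pow_mul, mul_comm, pow_mul]
    norm_num
  have : (gg a 2 : ℤ) = 4 ^ a := by
    rw [h4]
    push_cast at h
    nlinarith
  exact_mod_cast this

theorem aux4 (t : ℕ) (ht : 4 ≤ t) : 4 * t ^ 2 ≤ 7 * 4 ^ (t - 2) := by
  induction t, ht using Nat.le_induction with
  | base => norm_num
  | succ t ht ih =>
    have e : t + 1 - 2 = (t - 2) + 1 := by omega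
    rw [e, pow_succ 4 (t - 2)]
    nlinarith

theorem aux2 (t : ℕ) (ht : 5 ≤ t) : 4 * t ^ 2 ≤ 7 * 2 ^ (t - 1) := by
  induction t, ht using Nat.le_induction with
  | base => norm_num
  | succ t ht ih =>
    have e : t + 1 - 1 = (t - 1) + 1 := by omega
    rw [e, pow_succ 2 (t - 1)]
    nlinarith

theorem aux1 (N : ℕ) (hN : 10 ≤ N) : 4 * (N ^ 2 + N + 2) ≤ 28 * 2 ^ (N / 2) := by
  have h : ∀ m, 5 ≤ m → 4 * ((2 * m) ^ 2 + 2 * m + 2) ≤ 28 * 2 ^ m ∧
      4 * ((2 * m + 1) ^ 2 + (2 * m + 1) + 2) ≤ 28 * 2 ^ m := by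
    intro m hm
    induction m, hm using Nat.le_induction with
    | base => norm_num
    | succ m hm ih =>
      rw [pow_succ 2 m]
      constructor <;> nlinarith [ih.1, ih.2]
  have h1 := h (N / 2) (by omega)
  rcases Nat.even_or_odd' N with ⟨m, rfl | rfl⟩
  · have : 2 * m / 2 = m := by omega
    rw [this] at h1 ⊢
    exact h1.1
  · have : (2 * m + 1) / 2 = m := by omega
    rw [this] at h1 ⊢
    exact h1.2

theorem pow_le_of {a b : ℕ} (h : a ≤ b) : 2 ^ a ≤ 2 ^ b := Nat.pow_le_pow_right (by norm_num) h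

/-- the numerical estimate -/
theorem gm_num (a N : ℕ) (ha : 0 < a) (hN : 2 * a + 1 ≤ N) (hn : 11 ≤ N + a) :
    8 * gm a N ≤ 7 * 2 ^ (2 * (N + a) / 3) ∨
      ((N + a) % 3 = 1 ∧ 49 * gm a N ≤ 64 * 2 ^ (2 * (N + a) / 3)) := by
  have h1 := Nat.div_add_mod N a
  have h2 := Nat.mod_lt N ha
  have ht2 : 2 ≤ N / a := by
    rw [Nat.le_div_iff_mul_le ha]
    omega
  by_cases h3 : N / a = 2
  · -- two full parts and a rest
    have hr : 1 ≤ N % a := by
      rw [h3] at h1
      omega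
    have hNa : N + a = 3 * a + N % a := by
      rw [h3] at h1
      omega
    have hgm : gm a N = 4 ^ a + (2 ^ (N % a) - 1) * (2 * 2 ^ a - 1) := by
      unfold gm
      rw [h3, gg_two]
      have hA : 1 ≤ 2 ^ a := Nat.one_le_two_pow
      congr 2
      omega
    have h4 : (4 : ℕ) ^ a = 2 ^ a * 2 ^ a := by
      rw [← mul_pow]
      norm_num
    rw [hgm, hNa, h4]
    have hA : 1 ≤ 2 ^ a := Nat.one_le_two_pow
    rcases Nat.lt_or_ge (N % a) 3 with h5 | h5
    · have h6 : N % a = 1 ∨ N % a = 2 := by omega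
      rcases h6 with h6 | h6
      · right
        rw [h6] at hNa ⊢
        have ha3 : 4 ≤ a := by omega
        have hx : 2 ^ 4 ≤ 2 ^ a := pow_le_of ha3
        have e : 2 * (3 * a + 1) / 3 = a + a := by omega
        rw [e, pow_add]
        refine ⟨by omega, ?_⟩
        generalize 2 ^ a = x at *
        have e1 : 2 ^ 1 - 1 = 1 := rfl
        rw [e1, one_mul]
        have e2 : 2 * x - 1 ≤ 2 * x := by omega
        nlinarith
      · left
        rw [h6] at hNa ⊢
        have ha3 : 3 ≤ a := by omega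
        have hx : 2 ^ 3 ≤ 2 ^ a := pow_le_of ha3
        have e : 2 * (3 * a + 2) / 3 = a + a + 1 := by omega
        rw [e, pow_add, pow_add]
        generalize 2 ^ a = x at *
        have e1 : 2 ^ 2 - 1 = 3 := rfl
        rw [e1]
        obtain ⟨y, rfl⟩ := Nat.exists_eq_add_of_le hx
        have e2 : 2 * (2 ^ 3 + y) - 1 = 15 + 2 * y := by omega
        rw [e2]
        nlinarith
    · left
      have e : 2 ^ (a + a + 2) ≤ 2 ^ (2 * (3 * a + N % a) / 3) := pow_le_of (by omega)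
      rw [pow_add, pow_add] at e
      have e3 : 2 * 2 ^ (N % a) ≤ 2 ^ a := by
        rw [← pow_succ']
        exact pow_le_of h2
      have e4 : (2 ^ (N % a) - 1) * (2 * 2 ^ a - 1) ≤ 2 ^ (N % a) * (2 * 2 ^ a) :=
        Nat.mul_le_mul (by omega) (by omega)
      have e5 : 2 ^ (N % a) * (2 * 2 ^ a) ≤ 2 ^ a * 2 ^ a := by
        calc 2 ^ (N % a) * (2 * 2 ^ a) = (2 * 2 ^ (N % a)) * 2 ^ a := by ring
          _ ≤ _ := Nat.mul_le_mul_right _ e3
      omega
  · left
    have ht3 : 3 ≤ N / a := by omega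
    have hcr := gm_crude a N ha (by omega)
    have hNa : (N / a) * a + N % a = N := by
      rw [mul_comm]
      exact h1
    rcases Nat.lt_or_ge a 3 with ha3 | ha3
    · have ha12 : a = 1 ∨ a = 2 := by omega
      rcases ha12 with rfl | rfl
      · -- a = 1
        have hgm : 2 * gm 1 N = N ^ 2 + N + 2 := by
          have h := two_gg 1 N
          have : (2 : ℤ) * gm 1 N = N ^ 2 + N + 2 := by
            unfold gm
            rw [Nat.div_one, Nat.mod_one]
            push_cast at h ⊢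
            simp at h ⊢
            linarith
          exact_mod_cast this
        have hb := aux1 N (by omega)
        have e : 2 ^ (N / 2 + 2) ≤ 2 ^ (2 * (N + 1) / 3) := pow_le_of (by omega)
        rw [pow_add] at e
        omega
      · -- a = 2
        rcases Nat.lt_or_ge (N / 2) 5 with h5 | h5
        · have hN9 : N = 9 := by omega
          subst hN9
          decide
        · have hb := aux2 (N / 2) h5
          have e : 2 ^ (4 + (N / 2 - 1)) ≤ 2 ^ (2 * (N + 2) / 3) := pow_le_of (by omega)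
          rw [pow_add] at e
          omega
    · rcases Nat.lt_or_ge (N / a) 4 with h4 | h4
      · have h43 : N / a = 3 := by omega
        rw [h43] at hNa hcr
        rcases Nat.lt_or_ge a 5 with h5 | h5
        · have : a = 3 ∨ a = 4 := by omega
          rcases this with rfl | rfl
          · have : N = 9 ∨ N = 10 ∨ N = 11 := by omega
            rcases this with rfl | rfl | rfl <;> decide
          · have : N = 12 ∨ N = 13 ∨ N = 14 ∨ N = 15 := by omega
            rcases this with rfl | rfl | rfl | rfl <;> decide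
        · have e : 2 ^ (2 * a + 3) ≤ 2 ^ (2 * (N + a) / 3) := pow_le_of (by omega)
          rw [pow_add, pow_mul] at e
          norm_num at e hcr
          omega
      · have hb := aux4 (N / a) h4
        have e0 : 2 * a + 2 * (N / a - 2) ≤ 2 * (N + a) / 3 := by
          rw [Nat.le_div_iff_mul_le (by norm_num)]
          obtain ⟨s, hs⟩ : ∃ s, N / a = s + 2 := ⟨N / a - 2, by omega⟩
          rw [hs] at hNa ⊢
          have e1 : s + 2 - 2 = s := by omega
          rw [e1]
          have e2 : s * 3 ≤ s * a := Nat.mul_le_mul_left s ha3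
          rw [add_mul] at hNa
          omega
        have e : 2 ^ (2 * a + 2 * (N / a - 2)) ≤ 2 ^ (2 * (N + a) / 3) := pow_le_of e0
        rw [pow_add, pow_mul, pow_mul] at e
        norm_num at e
        calc 8 * gm a N = 4 * (2 * gm a N) := by ring
          _ ≤ 4 * ((N / a) ^ 2 * 4 ^ a) := Nat.mul_le_mul_left _ hcr
          _ = 4 ^ a * (4 * (N / a) ^ 2) := by ring
          _ ≤ 4 ^ a * (7 * 4 ^ (N / a - 2)) := Nat.mul_le_mul_left _ hb
          _ = 7 * (4 ^ a * 4 ^ (N / a - 2)) := by ring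
          _ ≤ _ := Nat.mul_le_mul_left _ e

/-- the bound for the link of a vertex in a largest part -/
theorem Sg_num (a : ℕ) (M : List ℕ) (ha : 0 < a) (hM1 : ∀ p ∈ M, 1 ≤ p) (hM2 : ∀ p ∈ M, p ≤ a)
    (hlen : 3 ≤ M.length) (hn : 11 ≤ M.sum + a) :
    8 * Sg M ≤ 7 * 2 ^ (2 * (M.sum + a) / 3) ∨
      ((M.sum + a) % 3 = 1 ∧ 49 * Sg M ≤ 64 * 2 ^ (2 * (M.sum + a) / 3)) := by
  rcases Nat.lt_or_ge (2 * a) M.sum with h | h
  · have h1 := (Sg_le_gm a ha M hM2).1
    rcases gm_num a M.sum ha h hn with h2 | ⟨h2, h3⟩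
    · left
      omega
    · right
      exact ⟨h2, by omega⟩
  · left
    have h1 := Sg_three M hlen hM1
    have e : 2 ^ M.sum ≤ 2 ^ (2 * (M.sum + a) / 3) := pow_le_of (by omega)
    omega

end TUR
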