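import Pool.Agent.TUR.Model

namespace TUR

open SimpleGraph Classical

/-- the tournament on four vertices given by six bits; vertex `3` is the last one -/
def D4 (b1 b2 b3 p1 p2 p3 : Bool) : Fin 4 → Fin 4 → Bool :=
  ![![false, b1, b2, !p1], ![!b1, false, b3, !p2], ![!b2, !b3, false, !p3], ![p1, p2, p3, false]]

/-- the tournament given by six bits is isomorphic to `TB` -/
def isT (TB : Fin 4 → Fin 4 → Bool) (b1 b2 b3 p1 p2 p3 : Bool) : Prop :=
  ∃ π : Equiv.Perm (Fin 4), ∀ i j, TB i j = D4 b1 b2 b3 p1 p2 p3 (π i) (π j)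

instance (TB : Fin 4 → Fin 4 → Bool) (b1 b2 b3 p1 p2 p3 : Bool) :
    Decidable (isT TB b1 b2 b3 p1 p2 p3) := by
  unfold isT
  infer_instance

/-- the tournament as a `Prop`-valued relation -/
def toP (TB : Fin 4 → Fin 4 → Bool) : Fin 4 → Fin 4 → Prop := fun i j => TB i j = true

/-- every oriented triangle can be completed to a copy -/
def PatProp (TB : Fin 4 → Fin 4 → Bool) : Prop :=
  ∀ b1 b2 b3 : Bool, ∃ p1 p2 p3 : Bool, isT TB b1 b2 b3 p1 p2 p3

theorem D4_iff {V : Type*} {D : V → V → Prop} {g : Fin 4 → V}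
    (h : ∀ a b, a ≠ b → (D (g a) (g b) ↔ ¬ D (g b) (g a))) (h0 : ∀ a, ¬ D (g a) (g a)) :
    (a b : Fin 4) →
    (D4 (decide (D (g 0) (g 1))) (decide (D (g 0) (g 2))) (decide (D (g 1) (g 2)))
      (decide (D (g 3) (g 0))) (decide (D (g 3) (g 1))) (decide (D (g 3) (g 2))) a b = true ↔
      D (g a) (g b))
  | 0, 0 => ⟨fun e => (Bool.false_ne_true e).elim, fun e => (h0 _ e).elim⟩
  | 1, 1 => ⟨fun e => (Bool.false_ne_true e).elim, fun e => (h0 _ e).elim⟩
  | 2, 2 => ⟨fun e => (Bool.false_ne_true e).elim, fun e => (h0 _ e).elim⟩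
  | 3, 3 => ⟨fun e => (Bool.false_ne_true e).elim, fun e => (h0 _ e).elim⟩
  | 0, 1 => by
    show decide (D (g 0) (g 1)) = true ↔ _
    rw [decide_eq_true_iff]
  | 0, 2 => by
    show decide (D (g 0) (g 2)) = true ↔ _
    rw [decide_eq_true_iff]
  | 1, 2 => by
    show decide (D (g 1) (g 2)) = true ↔ _
    rw [decide_eq_true_iff]
  | 3, 0 => by
    show decide (D (g 3) (g 0)) = true ↔ _
    rw [decide_eq_true_iff]
  | 3, 1 => by
    show decide (D (g 3) (g 1)) = true ↔ _
    rw [decide_eq_true_iff]
  | 3, 2 => by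
    show decide (D (g 3) (g 2)) = true ↔ _
    rw [decide_eq_true_iff]
  | 1, 0 => by
    show (!decide (D (g 0) (g 1))) = true ↔ _
    rw [h 1 0 (by decide)]
    simp
  | 2, 0 => by
    show (!decide (D (g 0) (g 2))) = true ↔ _
    rw [h 2 0 (by decide)]
    simp
  | 2, 1 => by
    show (!decide (D (g 1) (g 2))) = true ↔ _
    rw [h 2 1 (by decide)]
    simp
  | 0, 3 => by
    show (!decide (D (g 3) (g 0))) = true ↔ _
    rw [h 0 3 (by decide)]
    simp
  | 1, 3 => by
    show (!decide (D (g 3) (g 1))) = true ↔ _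
    rw [h 1 3 (by decide)]
    simp
  | 2, 3 => by
    show (!decide (D (g 3) (g 2))) = true ↔ _
    rw [h 2 3 (by decide)]
    simp

/-- four pairwise adjacent vertices span a copy of `TB` iff the bits say so -/
theorem hasCopy_of_isT {V : Type*} {D : V → V → Prop} {g : Fin 4 → V} (hg : Function.Injective g)
    (h : ∀ a b, a ≠ b → (D (g a) (g b) ↔ ¬ D (g b) (g a))) (h0 : ∀ a, ¬ D (g a) (g a))
    {TB : Fin 4 → Fin 4 → Bool}
    (hT : isT TB (decide (D (g 0) (g 1))) (decide (D (g 0) (g 2))) (decide (D (g 1) (g 2)))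
      (decide (D (g 3) (g 0))) (decide (D (g 3) (g 1))) (decide (D (g 3) (g 2)))) :
    HasCopy (toP TB) D := by
  obtain ⟨π, hπ⟩ := hT
  refine ⟨fun i => g (π i), hg.comp π.injective, fun i j => ?_⟩
  unfold toP
  rw [hπ i j]
  exact D4_iff h h0 _ _

/-- number of independent sets (upper bound) -/
def Ig : List ℕ → ℕ
  | [] => 1
  | p :: L => Ig L + (2 ^ p - 1)

/-- number of triangle-free sets (upper bound) -/
def Sg : List ℕ → ℕ
  | [] => 1
  | p :: L => Sg L + (2 ^ p - 1) * Ig L

/-- independent vertex sets -/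
noncomputable def indS {V : Type*} [Fintype V] (G : SimpleGraph V) : Finset (Finset V) :=
  Finset.univ.filter (fun X => ∀ u ∈ X, ∀ v ∈ X, ¬ G.Adj u v)

/-- triangle-free vertex sets -/
noncomputable def tfS {V : Type*} [Fintype V] (G : SimpleGraph V) : Finset (Finset V) :=
  Finset.univ.filter (fun X => ∀ u ∈ X, ∀ v ∈ X, ∀ w ∈ X, G.Adj u v → G.Adj v w → ¬ G.Adj u w)

theorem card_nonempty (p : ℕ) :
    ((Finset.univ : Finset (Finset (Fin p))).erase ∅).card = 2 ^ p - 1 := by
  rw [Finset.card_erase_of_mem (Finset.mem_univ _), Finset.card_univ, Fintype.card_finset,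
    Fintype.card_fin]

theorem indS_cone {A : Type*} [Fintype A] (H : SimpleGraph A) (p : ℕ) :
    (indS (cone H (Fin p))).card ≤ (indS H).card + (2 ^ p - 1) := by
  rw [← card_nonempty p, ← Finset.card_disjSum]
  refine Finset.card_le_card_of_injOn
    (fun X => if X.toRight = ∅ then .inl X.toLeft else .inr X.toRight) ?_ ?_
  · intro X hX
    simp only [Finset.mem_coe, indS, Finset.mem_filter, Finset.mem_univ, true_and] at hX
    simp only [Finset.mem_coe]
    split_ifs with h
    · rw [Finset.inl_mem_disjSum]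
      simp only [indS, Finset.mem_filter, Finset.mem_univ, true_and]
      intro u hu v hv huv
      exact hX _ (Finset.mem_toLeft.1 hu) _ (Finset.mem_toLeft.1 hv) huv
    · rw [Finset.inr_mem_disjSum]
      simp [h]
  · intro X hX Y hY hXY
    simp only [Finset.mem_coe, indS, Finset.mem_filter, Finset.mem_univ, true_and] at hX hY
    have key : ∀ X : Finset (A ⊕ Fin p), (∀ u ∈ X, ∀ v ∈ X, ¬ (cone H (Fin p)).Adj u v) →
        X.toRight ≠ ∅ → X.toLeft = ∅ := by
      intro X hX h
      obtain ⟨b, hb⟩ := Finset.nonempty_iff_ne_empty.2 h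
      rw [Finset.eq_empty_iff_forall_notMem]
      intro a ha
      exact hX _ (Finset.mem_toLeft.1 ha) _ (Finset.mem_toRight.1 hb) (cone_lr H a b)
    by_cases h1 : X.toRight = ∅ <;> by_cases h2 : Y.toRight = ∅
    · simp only [h1, h2, if_true, Sum.inl.injEq] at hXY
      rw [← Finset.toLeft_disjSum_toRight (u := X), ← Finset.toLeft_disjSum_toRight (u := Y),
        hXY, h1, h2]
    · simp [h1, h2] at hXY
    · simp [h1, h2] at hXY
    · simp only [h1, h2, if_false, Sum.inr.injEq] at hXY
      rw [← Finset.toLeft_disjSum_toRight (u := X), ← Finset.toLeft_disjSum_toRight (u := Y),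
        hXY, key X hX h1, key Y hY h2]

theorem tfS_cone {A : Type*} [Fintype A] (H : SimpleGraph A) (p : ℕ) :
    (tfS (cone H (Fin p))).card ≤ (tfS H).card + (2 ^ p - 1) * (indS H).card := by
  rw [← card_nonempty p, ← Finset.card_product, ← Finset.card_disjSum]
  refine Finset.card_le_card_of_injOn
    (fun X => if X.toRight = ∅ then .inl X.toLeft else .inr (X.toRight, X.toLeft)) ?_ ?_
  · intro X hX
    simp only [Finset.mem_coe, tfS, Finset.mem_filter, Finset.mem_univ, true_and] at hX
    simp only [Finset.mem_coe]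
    split_ifs with h
    · rw [Finset.inl_mem_disjSum]
      simp only [tfS, Finset.mem_filter, Finset.mem_univ, true_and]
      intro u hu v hv w hw h1 h2 h3
      exact hX _ (Finset.mem_toLeft.1 hu) _ (Finset.mem_toLeft.1 hv) _ (Finset.mem_toLeft.1 hw)
        h1 h2 h3
    · rw [Finset.inr_mem_disjSum, Finset.mem_product]
      obtain ⟨b, hb⟩ := Finset.nonempty_iff_ne_empty.2 h
      refine ⟨by simp [h], ?_⟩
      simp only [indS, Finset.mem_filter, Finset.mem_univ, true_and]
      intro u hu v hv huv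
      exact hX _ (Finset.mem_toRight.1 hb) _ (Finset.mem_toLeft.1 hu) _ (Finset.mem_toLeft.1 hv)
        (cone_rl H u b) huv (cone_rl H v b)
  · intro X hX Y hY hXY
    by_cases h1 : X.toRight = ∅ <;> by_cases h2 : Y.toRight = ∅
    · simp only [h1, h2, if_true, Sum.inl.injEq] at hXY
      rw [← Finset.toLeft_disjSum_toRight (u := X), ← Finset.toLeft_disjSum_toRight (u := Y),
        hXY, h1, h2]
    · simp [h1, h2] at hXY
    · simp [h1, h2] at hXY
    · simp only [h1, h2, if_false, Sum.inr.injEq, Prod.mk.injEq] at hXY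
      rw [← Finset.toLeft_disjSum_toRight (u := X), ← Finset.toLeft_disjSum_toRight (u := Y),
        hXY.1, hXY.2]

theorem indS_le (L : List ℕ) : (indS (Gt L)).card ≤ Ig L := by
  induction L with
  | nil =>
    refine (Finset.card_le_univ _).trans ?_
    rw [Fintype.card_finset, card_Vt]
    simp [Ig]
  | cons p L ih =>
    refine (indS_cone (Gt L) p).trans ?_
    simp only [Ig]
    omega

theorem tfS_le (L : List ℕ) : (tfS (Gt L)).card ≤ Sg L := by
  induction L with
  | nil =>
    refine (Finset.card_le_univ _).trans ?_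
    rw [Fintype.card_finset, card_Vt]
    simp [Sg]
  | cons p L ih =>
    refine (tfS_cone (Gt L) p).trans ?_
    simp only [Sg]
    exact Nat.add_le_add ih (Nat.mul_le_mul_left _ (indS_le L))

/-- **Pajor's lemma** bounds the number of attachments. -/
theorem ea_le_tfS {V : Type*} [Fintype V] {TB : Fin 4 → Fin 4 → Bool} (hP : PatProp TB)
    {H : SimpleGraph V} {σ : V → V → Prop} (hσ : σ ∈ free (toP TB) H) :
    ea (toP TB) σ ≤ (tfS H).card := by
  rw [mem_free] at hσ
  let 𝒜 : Finset (Finset V) :=
    (att (toP TB) σ (fun _ => True)).image (fun x => Finset.univ.filter x)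
  have hinj : Function.Injective (fun x : V → Prop => (Finset.univ.filter x : Finset V)) := by
    intro x y hxy
    funext v
    have := Finset.ext_iff.1 hxy v
    simpa using this
  have h1 : ea (toP TB) σ = 𝒜.card := by
    rw [Finset.card_image_of_injective _ hinj]
    rfl
  rw [h1]
  refine (Finset.card_le_card_shatterer 𝒜).trans (Finset.card_le_card ?_)
  intro X hX
  rw [Finset.mem_shatterer] at hX
  simp only [tfS, Finset.mem_filter, Finset.mem_univ, true_and]
  intro u hu v hv w hw huv hvw huw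
  have ne1 := huv.ne
  have ne2 := hvw.ne
  have ne3 := huw.ne
  obtain ⟨p1, p2, p3, hp⟩ := hP (decide (σ u v)) (decide (σ u w)) (decide (σ v w))
  let t : Finset V := X.filter (fun z => (z = u ∧ p1 = true) ∨ (z = v ∧ p2 = true) ∨ (z = w ∧ p3 = true))
  obtain ⟨Y, hY, hYt⟩ := hX (show t ⊆ X from Finset.filter_subset _ _)
  rw [Finset.mem_image] at hY
  obtain ⟨x, hx, rfl⟩ := hY
  have hxu : x u ↔ p1 = true := by
    have := Finset.ext_iff.1 hYt u
    simp only [Finset.mem_inter, hu, Finset.mem_filter, Finset.mem_univ, true_and, t, ne1, ne3,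
      false_and, or_false] at this
    simpa using this
  have hxv : x v ↔ p2 = true := by
    have := Finset.ext_iff.1 hYt v
    simp only [Finset.mem_inter, hv, Finset.mem_filter, Finset.mem_univ, true_and, t, ne1.symm,
      ne2, false_and, or_false, false_or] at this
    simpa using this
  have hxw : x w ↔ p3 = true := by
    have := Finset.ext_iff.1 hYt w
    simp only [Finset.mem_inter, hw, Finset.mem_filter, Finset.mem_univ, true_and, t, ne3.symm,
      ne2.symm, false_and, false_or] at this
    simpa using this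
  have hx' := mem_att.1 hx
  apply hx'.2
  let g : Fin 4 → Option V := ![some u, some v, some w, none]
  have a0 : ∀ z, ¬ σ z z := fun z => not_self hσ.1 z
  have huv' := hσ.1.2 u v huv
  have hvw' := hσ.1.2 v w hvw
  have huw' := hσ.1.2 u w huw
  have a0' := a0
  apply hasCopy_of_isT (g := g) (TB := TB)
  · intro i j hij
    match i, j with
    | 0, 0 => rfl
    | 1, 1 => rfl
    | 2, 2 => rfl
    | 3, 3 => rfl
    | 0, 1 => exact (ne1 (Option.some.inj hij)).elim
    | 1, 0 => exact (ne1 (Option.some.inj hij).symm).elim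
    | 0, 2 => exact (ne3 (Option.some.inj hij)).elim
    | 2, 0 => exact (ne3 (Option.some.inj hij).symm).elim
    | 1, 2 => exact (ne2 (Option.some.inj hij)).elim
    | 2, 1 => exact (ne2 (Option.some.inj hij).symm).elim
    | 0, 3 => exact (Option.some_ne_none _ hij).elim
    | 1, 3 => exact (Option.some_ne_none _ hij).elim
    | 2, 3 => exact (Option.some_ne_none _ hij).elim
    | 3, 0 => exact (Option.some_ne_none _ hij.symm).elim
    | 3, 1 => exact (Option.some_ne_none _ hij.symm).elim
    | 3, 2 => exact (Option.some_ne_none _ hij.symm).elim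
  · have hs : ∀ z, (ext σ (fun _ => True) x (some z) none ↔ ¬ ext σ (fun _ => True) x none (some z)) := by
      intro z
      simp [ext]
    have hs' : ∀ z, (ext σ (fun _ => True) x none (some z) ↔ ¬ ext σ (fun _ => True) x (some z) none) := by
      intro z
      simp [ext]
    intro a b hab
    match a, b with
    | 0, 0 => exact (hab rfl).elim
    | 1, 1 => exact (hab rfl).elim
    | 2, 2 => exact (hab rfl).elim
    | 3, 3 => exact (hab rfl).elim
    | 0, 1 => exact hσ.1.2 u v huv
    | 1, 0 => exact hσ.1.2 v u huv.symm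
    | 0, 2 => exact hσ.1.2 u w huw
    | 2, 0 => exact hσ.1.2 w u huw.symm
    | 1, 2 => exact hσ.1.2 v w hvw
    | 2, 1 => exact hσ.1.2 w v hvw.symm
    | 0, 3 => exact hs u
    | 1, 3 => exact hs v
    | 2, 3 => exact hs w
    | 3, 0 => exact hs' u
    | 3, 1 => exact hs' v
    | 3, 2 => exact hs' w
  · intro a
    match a with
    | 0 => exact a0 u
    | 1 => exact a0 v
    | 2 => exact a0 w
    | 3 => exact fun h => h
  · have e1 : decide (ext σ (fun _ => True) x (g 0) (g 1)) = decide (σ u v) := rfl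
    have e2 : decide (ext σ (fun _ => True) x (g 0) (g 2)) = decide (σ u w) := rfl
    have e3 : decide (ext σ (fun _ => True) x (g 1) (g 2)) = decide (σ v w) := rfl
    have e4 : decide (ext σ (fun _ => True) x (g 3) (g 0)) = p1 := by
      have : ext σ (fun _ => True) x (g 3) (g 0) = x u := rfl
      rw [this]
      simp [hxu]
    have e5 : decide (ext σ (fun _ => True) x (g 3) (g 1)) = p2 := by
      have : ext σ (fun _ => True) x (g 3) (g 1) = x v := rfl
      rw [this]
      simp [hxv]
    have e6 : decide (ext σ (fun _ => True) x (g 3) (g 2)) = p3 := by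
      have : ext σ (fun _ => True) x (g 3) (g 2) = x w := rfl
      rw [this]
      simp [hxw]
    rw [e1, e2, e3, e4, e5, e6]
    exact hp

/-- the recursive bound -/
theorem F_succ_le {TB : Fin 4 → Fin 4 → Bool} (hT : IsTournament (toP TB)) (hP : PatProp TB)
    (p : ℕ) (L : List ℕ) : F (toP TB) ((p + 1) :: L) ≤ F (toP TB) (p :: L) * Sg L := by
  rw [F_cons hT, F_cons hT, Finset.sum_mul]
  refine Finset.sum_le_sum fun σ hσ => ?_
  rw [pow_succ]
  exact Nat.mul_le_mul_left _ ((ea_le_tfS hP hσ).trans (tfS_le L))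

end TUR
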