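import Pool.Agent.TUR.Num2

namespace TUR

/-- number of edges of the Turan graph `T_3(n)` -/
def t3 (n : ℕ) : ℕ := n ^ 2 / 3

theorem t3_succ (n : ℕ) : t3 (n + 1) = t3 n + 2 * (n + 1) / 3 := by
  unfold t3
  have h : n = 3 * (n / 3) + n % 3 := (Nat.div_add_mod n 3).symm
  have h2 : n % 3 < 3 := Nat.mod_lt _ (by norm_num)
  generalize n / 3 = q at *
  generalize n % 3 = r at *
  subst h
  have : r = 0 ∨ r = 1 ∨ r = 2 := by omega
  rcases this with rfl | rfl | rfl
  · have e1 : (3 * q + 0 + 1) ^ 2 = 3 * (3 * q ^ 2 + 2 * q) + 1 := by ring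
    have e2 : (3 * q + 0) ^ 2 = 3 * (3 * q ^ 2) := by ring
    rw [e1, e2]
    omega
  · have e1 : (3 * q + 1 + 1) ^ 2 = 3 * (3 * q ^ 2 + 4 * q + 1) + 1 := by ring
    have e2 : (3 * q + 1) ^ 2 = 3 * (3 * q ^ 2 + 2 * q) + 1 := by ring
    rw [e1, e2]
    omega
  · have e1 : (3 * q + 2 + 1) ^ 2 = 3 * (3 * q ^ 2 + 6 * q + 3) := by ring
    have e2 : (3 * q + 2) ^ 2 = 3 * (3 * q ^ 2 + 4 * q + 1) + 1 := by ring
    rw [e1, e2]
    omega

theorem exists_max_perm : ∀ L : List ℕ, L ≠ [] →
    ∃ a M, L.Perm (a :: M) ∧ ∀ p ∈ M, p ≤ a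
  | [], h => (h rfl).elim
  | [x], _ => ⟨x, [], List.Perm.refl _, by simp⟩
  | x :: y :: L, _ => by
    obtain ⟨a, M, h1, h2⟩ := exists_max_perm (y :: L) (by simp)
    by_cases hx : a ≤ x
    · refine ⟨x, a :: M, h1.cons x, ?_⟩
      intro p hp
      rcases List.mem_cons.1 hp with rfl | hp
      · exact hx
      · exact (h2 p hp).trans hx
    · refine ⟨a, x :: M, (h1.cons x).trans (List.Perm.swap a x M), ?_⟩
      intro p hp
      rcases List.mem_cons.1 hp with rfl | hp
      · omega
      · exact h2 p hp

theorem length_le_sum (L : List ℕ) (h : ∀ p ∈ L, 1 ≤ p) : L.length ≤ L.sum := by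
  induction L with
  | nil => simp
  | cons p L ih =>
    have h1 := h p (by simp)
    have h2 := ih (fun x hx => h x (List.mem_cons_of_mem _ hx))
    simp only [List.length_cons, List.sum_cons]
    omega

/-- the inductive step from `n` to `n + 1` vertices -/
theorem step_all {TB : Fin 4 → Fin 4 → Bool} (hT : IsTournament (toP TB)) (hP : PatProp TB)
    (h10 : ∀ L : List ℕ, 4 ≤ L.length → (∀ p ∈ L, 1 ≤ p) → L.sum = 10 →
      F (toP TB) L < 2 ^ 33) (n : ℕ) (hn : 10 ≤ n) :
    ∀ L : List ℕ, 4 ≤ L.length → (∀ p ∈ L, 1 ≤ p) → L.sum = n →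
      F (toP TB) L < 2 ^ t3 n ∧ (n % 3 = 2 → 8 * F (toP TB) L < 7 * 2 ^ t3 n) ∧
        (n % 3 = 0 → 64 * F (toP TB) L < 49 * 2 ^ t3 n) := by
  induction n, hn using Nat.le_induction with
  | base =>
    intro L h1 h2 h3
    have : t3 10 = 33 := by decide
    rw [this]
    exact ⟨h10 L h1 h2 h3, by norm_num, by norm_num⟩
  | succ n hn ih =>
    intro L hlen hpos hsum
    obtain ⟨a, M, hperm, hmax⟩ := exists_max_perm L (by
      rintro rfl
      simp at hlen)
    rw [F_perm _ hperm]
    have hlen' : 3 ≤ M.length := by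
      have := hperm.length_eq
      simp only [List.length_cons] at this
      omega
    have hpos' : ∀ p ∈ a :: M, 1 ≤ p := fun p hp => hpos p (hperm.mem_iff.2 hp)
    have hsum' : a + M.sum = n + 1 := by
      have := hperm.sum_eq
      rw [List.sum_cons] at this
      omega
    have ha : 1 ≤ a := hpos' a (by simp)
    have hM1 : ∀ p ∈ M, 1 ≤ p := fun p hp => hpos' p (by simp [hp])
    obtain ⟨b, rfl⟩ := Nat.exists_eq_add_of_le ha
    rw [add_comm 1 b] at *
    have hF := F_succ_le hT hP b M
    have hS := Sg_num (b + 1) M (by omega) hM1 hmax hlen' (by omega)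
    have e : M.sum + (b + 1) = n + 1 := by omega
    rw [e] at hS
    -- the induction hypothesis for the smaller graph
    have hIH : F (toP TB) (b :: M) < 2 ^ t3 n ∧
        (n % 3 = 2 → 8 * F (toP TB) (b :: M) < 7 * 2 ^ t3 n) ∧
        (n % 3 = 0 → 64 * F (toP TB) (b :: M) < 49 * 2 ^ t3 n) := by
      rcases Nat.eq_zero_or_pos b with rfl | hb
      · rw [F_zero hT]
        refine ih M ?_ hM1 (by omega)
        have h1 : M.sum ≤ M.length := by
          clear hS e hsum' hlen' hperm hpos' hF
          induction M with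
          | nil => simp
          | cons p M ihM =>
            have h1 := hmax p (by simp)
            have h2 := ihM (fun x hx => hM1 x (List.mem_cons_of_mem _ hx))
              (fun x hx => hmax x (List.mem_cons_of_mem _ hx))
            simp only [List.length_cons, List.sum_cons]
            omega
        omega
      · refine ih (b :: M) (by simp; omega) ?_ (by rw [List.sum_cons]; omega)
        intro p hp
        rcases List.mem_cons.1 hp with rfl | hp
        · exact hb
        · exact hM1 p hp
    obtain ⟨i1, i2, i3⟩ := hIH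
    have hspos : 1 ≤ Sg M := (Ig_pos M).trans (Ig_le_Sg M)
    rw [t3_succ, pow_add]
    generalize F (toP TB) (b :: M) = f at *
    generalize F (toP TB) ((b + 1) :: M) = g at *
    generalize 2 ^ t3 n = x at *
    generalize 2 ^ (2 * (n + 1) / 3) = y at *
    generalize Sg M = s at *
    have hn3 : n % 3 = 0 ∨ n % 3 = 1 ∨ n % 3 = 2 := by omega
    rcases hn3 with h3 | h3 | h3
    · -- n + 1 = 1 mod 3
      have j := i3 h3
      have hs : 49 * s ≤ 64 * y := by
        rcases hS with hS | ⟨_, hS⟩
        · omega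
        · exact hS
      have key : 3136 * g < 3136 * (x * y) := by
        calc 3136 * g ≤ 3136 * (f * s) := Nat.mul_le_mul_left _ hF
          _ = (64 * f) * (49 * s) := by ring
          _ ≤ (64 * f) * (64 * y) := Nat.mul_le_mul_left _ hs
          _ < (49 * x) * (64 * y) := by
            have hy : 0 < y := by omega
            exact Nat.mul_lt_mul_of_pos_right j (by omega)
          _ = _ := by ring
      refine ⟨by omega, by omega, by omega⟩
    · -- n + 1 = 2 mod 3
      have hs : 8 * s ≤ 7 * y := by
        rcases hS with hS | ⟨hS, _⟩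
        · exact hS
        · omega
      have key : 8 * g < 7 * (x * y) := by
        calc 8 * g ≤ 8 * (f * s) := Nat.mul_le_mul_left _ hF
          _ = f * (8 * s) := by ring
          _ ≤ f * (7 * y) := Nat.mul_le_mul_left _ hs
          _ < x * (7 * y) := by
            have hy : 0 < y := by omega
            exact Nat.mul_lt_mul_of_pos_right i1 (by omega)
          _ = _ := by ring
      refine ⟨by omega, fun _ => key, by omega⟩
    · -- n + 1 = 0 mod 3
      have j := i2 h3
      have hs : 8 * s ≤ 7 * y := by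
        rcases hS with hS | ⟨hS, _⟩
        · exact hS
        · omega
      have key : 64 * g < 49 * (x * y) := by
        calc 64 * g ≤ 64 * (f * s) := Nat.mul_le_mul_left _ hF
          _ = (8 * f) * (8 * s) := by ring
          _ ≤ (8 * f) * (7 * y) := Nat.mul_le_mul_left _ hs
          _ < (7 * x) * (7 * y) := by
            have hy : 0 < y := by omega
            exact Nat.mul_lt_mul_of_pos_right j (by omega)
          _ = _ := by ring
      refine ⟨by omega, by omega, fun _ => key⟩

end TUR
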