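import Pool.Agent.TUR.Clone

namespace TUR

open SimpleGraph Classical

variable {k : ℕ}

/-- same neighbourhoods -/
def Twin {V : Type*} (G : SimpleGraph V) (x y : V) : Prop := ∀ z, G.Adj x z ↔ G.Adj y z

/-- all non-neighbours are twins -/
def Good {V : Type*} (G : SimpleGraph V) (x : V) : Prop := ∀ y, ¬ G.Adj x y → Twin G x y

theorem good_of_twin {V : Type*} {G : SimpleGraph V} {x y : V} (hx : Good G x)
    (h : Twin G x y) : Good G y := by
  intro z hz
  have h1 : ¬ G.Adj x z := by rwa [h z]
  have h2 := hx z h1
  intro t
  rw [← h t, h2 t]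

theorem clone_max {V : Type*} [Fintype V] {T : Fin k → Fin k → Prop} (hT : IsTournament T)
    {M : ℕ} (hM : ∀ G : SimpleGraph V, nf T G ≤ M) {G : SimpleGraph V} (hG : nf T G = M)
    {u v : V} (huv : u ≠ v) (hadj : ¬ G.Adj u v) : nf T (clone G u v) = M := by
  have h1 := clone_ineq hT G huv hadj
  have h2 := hM (clone G u v)
  have h3 := hM (clone G v u)
  omega

theorem inner {V : Type*} [Fintype V] {T : Fin k → Fin k → Prop} (hT : IsTournament T)
    {M : ℕ} (hM : ∀ G : SimpleGraph V, nf T G ≤ M) (C : Finset V) (z : V) (m : ℕ) :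
    ∀ G : SimpleGraph V, nf T G = M → G.IsClique C → (∀ c ∈ C, c ≠ z → G.Adj c z) →
      (Finset.univ.filter (fun w => ¬ G.Adj z w ∧ ¬ Twin G z w)).card = m →
      ∃ G' : SimpleGraph V, nf T G' = M ∧ G'.IsClique C ∧ Good G' z ∧
        ∀ y, Good G y → Good G' y := by
  induction m using Nat.strong_induction_on with
  | _ m ih =>
    intro G hG hC hCz hm
    by_cases hW : ∃ w, ¬ G.Adj z w ∧ ¬ Twin G z w
    · obtain ⟨w, hw1, hw2⟩ := hW
      have hwz : w ≠ z := by
        rintro rfl
        exact hw2 (fun _ => Iff.rfl)
      have hwC : w ∉ C := by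
        intro h
        exact hw1 (hCz w h hwz).symm
      have h1 := clone_max hT hM hG hwz.symm hw1
      have hadj : ∀ x y, x ≠ w → y ≠ w → ((clone G z w).Adj x y ↔ G.Adj x y) := by
        intro x y hx hy
        simp [clone_adj, hx, hy]
      have htw : ∀ y y', y ≠ w → y' ≠ w → Twin G y y' → Twin (clone G z w) y y' := by
        intro y y' hy hy' h t
        simp only [clone_adj, if_neg hy, if_neg hy']
        exact h _
      have hzw : Twin (clone G z w) z w := by
        intro t
        simp [clone_adj, hwz.symm]
      obtain ⟨G', a1, a2, a3, a4⟩ := ih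
        (Finset.univ.filter (fun w' => ¬ (clone G z w).Adj z w' ∧ ¬ Twin (clone G z w) z w')).card
        (by
          rw [← hm]
          apply Finset.card_lt_card
          rw [Finset.ssubset_iff_of_subset]
          · refine ⟨w, by simp [hw1, hw2], ?_⟩
            simp only [Finset.mem_filter, Finset.mem_univ, true_and, not_and, not_not]
            exact fun _ => hzw
          · intro y hy
            simp only [Finset.mem_filter, Finset.mem_univ, true_and] at hy ⊢
            have hyw : y ≠ w := by
              rintro rfl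
              exact hy.2 hzw
            refine ⟨?_, ?_⟩
            · rw [hadj _ _ hwz.symm hyw] at hy
              exact hy.1
            · intro h
              exact hy.2 (htw _ _ hwz.symm hyw h))
        (clone G z w) h1
        (by
          intro c hc c' hc' hne
          have e1 : c ≠ w := fun h => hwC (h ▸ hc)
          have e2 : c' ≠ w := fun h => hwC (h ▸ hc')
          rw [hadj _ _ e1 e2]
          exact hC hc hc' hne)
        (by
          intro c hc hne
          have e1 : c ≠ w := fun h => hwC (h ▸ hc)
          rw [hadj _ _ e1 hwz.symm]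
          exact hCz c hc hne) rfl
      refine ⟨G', a1, a2, a3, fun y hy => a4 y ?_⟩
      have hyz : G.Adj y z := by
        by_contra hn
        have t1 := hy z hn
        have t2 : ¬ G.Adj y w := by rwa [t1 w]
        have t3 := hy w t2
        exact hw2 (fun t => by rw [← t1 t, t3 t])
      have hyw : G.Adj y w := by
        by_contra hn
        have t3 := hy w hn
        rw [t3 z] at hyz
        exact hw1 hyz.symm
      have hyw' : y ≠ w := hyw.ne
      intro y' hy'
      have hne : y' ≠ w := by
        rintro rfl
        apply hy'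
        simp [clone_adj, hyw', hyz]
      rw [hadj _ _ hyw' hne] at hy'
      exact htw _ _ hyw' hne (hy y' hy')
    · push Not at hW
      exact ⟨G, hG, hC, fun y hy => hW y hy, fun y hy => hy⟩

/-- **Symmetrization.** An extremal graph with a clique `C` can be replaced by an extremal
complete multipartite graph in which `C` is still a clique. -/
theorem exists_multipartite {V : Type*} [Fintype V] {T : Fin k → Fin k → Prop}
    (hT : IsTournament T) {M : ℕ} (hM : ∀ G : SimpleGraph V, nf T G ≤ M) (C : Finset V)
    {G : SimpleGraph V} (hG : nf T G = M) (hC : G.IsClique C) :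
    ∃ G' : SimpleGraph V, nf T G' = M ∧ G'.IsClique C ∧
      ∀ x y, ¬ G'.Adj x y → ∀ z, G'.Adj x z ↔ G'.Adj y z := by
  suffices h : ∀ m, ∀ G : SimpleGraph V, nf T G = M → G.IsClique C →
      (Finset.univ.filter (fun w => ¬ Good G w)).card = m →
      ∃ G' : SimpleGraph V, nf T G' = M ∧ G'.IsClique C ∧ ∀ x, Good G' x by
    obtain ⟨G', a, b, c⟩ := h _ G hG hC rfl
    exact ⟨G', a, b, c⟩
  intro m
  induction m using Nat.strong_induction_on with
  | _ m ih =>
    intro G hG hC hm
    by_cases hall : ∀ x, Good G x
    · exact ⟨G, hG, hC, hall⟩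
    · push Not at hall
      have hz : ∃ z, ¬ Good G z ∧ ∀ c ∈ C, c ≠ z → G.Adj c z := by
        by_cases hCg : ∃ c ∈ C, ¬ Good G c
        · obtain ⟨c, hc, hcg⟩ := hCg
          exact ⟨c, hcg, fun c' hc' hne => hC hc' hc hne⟩
        · push Not at hCg
          obtain ⟨z, hz⟩ := hall
          refine ⟨z, hz, fun c hc hne => ?_⟩
          by_contra hn
          exact hz (good_of_twin (hCg c hc) (hCg c hc z hn))
      obtain ⟨z, hz1, hz2⟩ := hz
      obtain ⟨G', a1, a2, a3, a4⟩ := inner hT hM C z _ G hG hC hz2 rfl
      refine ih (Finset.univ.filter (fun w => ¬ Good G' w)).card ?_ G' a1 a2 rfl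
      rw [← hm]
      apply Finset.card_lt_card
      rw [Finset.ssubset_iff_of_subset]
      · exact ⟨z, by simp [hz1], by simp [a3]⟩
      · intro y hy
        simp only [Finset.mem_filter, Finset.mem_univ, true_and] at hy ⊢
        exact fun h => hy (a4 y h)

end TUR
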