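import Pool.Agent.TUR.Iso
import Pool.Agent.TUR.Base

namespace TUR

open SimpleGraph Classical

theorem E4top : ESpec (⊤ : SimpleGraph (Fin 4)) es1111 := by
  refine ⟨by decide, by decide, fun i j => ?_⟩
  rw [top_adj]
  revert i j
  decide

theorem ea5_check : ∀ c < 64, okQ tqT qs1111 c = true →
    2 ^ 4 - pop8 2 (badM (2 ^ 4) ts1111T c) ≤ 5 := by
  decide +kernel

/-- at most five attachments to a `TT`-free `K_4` -/
theorem ea_le_five {σ : Fin 4 → Fin 4 → Prop} (hσ : σ ∈ free (toP TT) (⊤ : SimpleGraph (Fin 4))) :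
    ea (toP TT) σ ≤ 5 := by
  rw [mem_free] at hσ
  obtain ⟨c, hc, rfl⟩ := dec_surj E4top hσ.1
  have h1 := (okQ_spec E4top isTourT tabT Q1111 c).1 hσ.2
  rw [ea_spec E4top isTourT tabT T1111T (kk := 2) (by norm_num) c hσ.2]
  exact ea5_check c hc h1

theorem nf_top4 : (free (toP TT) (⊤ : SimpleGraph (Fin 4))).card = 40 := by
  have h1 : Nonempty (CM (fun i : Fin 4 => (i : ℕ)) ≃g CM (blk (1 :: [1, 1, 1]))) := by
    refine iso_of_fib _ _ fun i => ?_
    simp only [fib_cons, fib_nil, List.length_cons, List.length_nil]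
    unfold fib
    simp only [Fin.sum_univ_succ, Fin.val_zero, Fin.val_succ, Finset.univ_eq_empty,
      Finset.sum_empty]
    omega
  obtain ⟨e⟩ := h1
  have h2 := nf_congr (toP TT) e
  rw [CM_inj _ Fin.val_injective, CM_blk] at h2
  exact h2.trans val111T1

theorem nf_top5 : (free (toP TT) (⊤ : SimpleGraph (Fin 5))).card ≤ 200 := by
  have h1 : Nonempty (CM (fun i : Fin 5 => (i : ℕ)) ≃g
      CM (Sum.elim (fun i : Fin 4 => (i : ℕ)) (fun _ : Fin 1 => 4))) := by
    refine iso_of_fib _ _ fun i => ?_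
    unfold fib
    rw [Fintype.sum_sum_type]
    rw [Fin.sum_univ_five, Fin.sum_univ_four, Fin.sum_univ_one]
    rfl
  obtain ⟨e⟩ := h1
  have h2 := nf_congr (toP TT) e
  have h6 : CM (Sum.elim (fun i : Fin 4 => (i : ℕ)) (fun _ : Fin 1 => 4)) =
      cone (⊤ : SimpleGraph (Fin 4)) (Fin 1) := by
    ext a b
    rw [CM_adj]
    rcases a with a | a <;> rcases b with b | b
    · simp only [Sum.elim_inl, cone_ll, top_adj, ne_eq]
      exact not_congr Fin.val_injective.eq_iff
    · simp only [Sum.elim_inl, Sum.elim_inr, cone_lr, iff_true]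
      have := a.2
      omega
    · simp only [Sum.elim_inl, Sum.elim_inr, cone_rl, iff_true]
      have := b.2
      omega
    · simp
  rw [CM_inj _ Fin.val_injective, h6, nf_cone isTourT] at h2
  have h3 : (free (toP TT) (⊤ : SimpleGraph (Fin 5))).card = _ := h2
  rw [h3]
  have h4 : ∀ σ ∈ free (toP TT) (⊤ : SimpleGraph (Fin 4)),
      ea (toP TT) σ ^ Fintype.card (Fin 1) ≤ 5 := by
    intro σ hσ
    rw [Fintype.card_fin, pow_one]
    exact ea_le_five hσ
  refine (Finset.sum_le_sum h4).trans ?_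
  rw [Finset.sum_const, smul_eq_mul, nf_top4]

/-- attachments to a `TT`-free `K_5` of a vertex adjacent to at least four of its vertices -/
theorem att_five {σ : Fin 5 → Fin 5 → Prop} (hσ : σ ∈ free (toP TT) (⊤ : SimpleGraph (Fin 5)))
    (N : Fin 5 → Prop) (i0 : Fin 5) (hN : ∀ a, a ≠ i0 → N a) :
    (att (toP TT) σ N).card ≤ 10 := by
  have h0 : ∀ a, N a → a = i0 ∨ ∃ i : Fin 4, Fin.succAbove i0 i = a := by
    intro a _
    by_cases ha : a = i0
    · exact Or.inl ha
    · exact Or.inr (Fin.exists_succAbove_eq (n := 4) ha)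
  have h1 := att_le_two (T := toP TT) (σ := σ) (N := N) (r := 4) (Fin.succAbove i0)
    Fin.succAbove_right_injective (fun i => hN _ (Fin.succAbove_ne i0 i)) i0 h0
  have h2 : (fun i j => σ (Fin.succAbove i0 i) (Fin.succAbove i0 j)) ∈
      free (toP TT) ((⊤ : SimpleGraph (Fin 5)).comap (Fin.succAbove i0)) := by
    rw [mem_free] at hσ ⊢
    exact ⟨hσ.1.comap _, fun hc => hσ.2 (hc.of_comp _ Fin.succAbove_right_injective)⟩
  have h3 : (⊤ : SimpleGraph (Fin 5)).comap (Fin.succAbove i0) = ⊤ := by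
    ext a b
    rw [comap_adj, top_adj, top_adj]
    exact not_congr Fin.succAbove_right_injective.eq_iff
  rw [h3] at h2
  have h4 := ea_le_five h2
  omega

/-- **Five parts.** -/
theorem T_five (a b c d e : ℕ) (M : List ℕ) :
    F (toP TT) ((a + 1) :: (b + 1) :: (c + 1) :: (d + 1) :: (e + 1) :: M) ≤
      F (toP TT) (a :: b :: c :: d :: e :: M) *
        (200 * 10 ^ (a :: b :: c :: d :: e :: M).sum) := by
  have hinj : Function.Injective (fun j : Fin 5 => M.length + (j : ℕ)) := by
    intro x y hxy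
    simp only at hxy
    exact Fin.ext (by omega)
  refine (F_le_clique (fun j : Fin 5 => M.length + (j : ℕ)) hinj
    ((a + 1) :: (b + 1) :: (c + 1) :: (d + 1) :: (e + 1) :: M)
    (a :: b :: c :: d :: e :: M) ?_).trans ?_
  · intro i
    simp only [fib_cons, List.length_cons]
    have h5 : fib (fun j : Fin 5 => M.length + (j : ℕ)) i =
        (if M.length = i then 1 else 0) + (if M.length + 1 = i then 1 else 0) +
        (if M.length + 2 = i then 1 else 0) + (if M.length + 3 = i then 1 else 0) +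
        (if M.length + 4 = i then 1 else 0) := by
      unfold fib
      rw [Fin.sum_univ_five]
      rfl
    rw [h5]
    split_ifs <;> omega
  · refine Nat.mul_le_mul_left _ ?_
    have h1 : ∀ σ ∈ free (toP TT) (⊤ : SimpleGraph (Fin 5)),
        ∏ v : Vt (a :: b :: c :: d :: e :: M),
          (att (toP TT) σ (fun j => M.length + (j : ℕ) ≠
            blk (a :: b :: c :: d :: e :: M) v)).card ≤
          10 ^ (a :: b :: c :: d :: e :: M).sum := by
      intro σ hσ
      rw [← card_Vt, ← Finset.card_univ]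
      refine Finset.prod_le_pow_card _ _ _ fun v _ => ?_
      by_cases hv : ∃ i0 : Fin 5, M.length + (i0 : ℕ) = blk (a :: b :: c :: d :: e :: M) v
      · obtain ⟨i0, hi0⟩ := hv
        refine att_five hσ _ i0 ?_
        intro j hj
        rw [← hi0]
        intro h
        exact hj (hinj h)
      · push Not at hv
        exact att_five hσ _ 0 (fun j _ => hv j)
    refine (Finset.sum_le_sum h1).trans ?_
    rw [Finset.sum_const, smul_eq_mul]
    exact Nat.mul_le_mul_right _ nf_top5

/-- numerical step for five parts -/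
theorem num5 : ∀ x : ℕ, 2 ^ t3 x * (200 * 10 ^ x) < 2 ^ t3 (x + 5)
  | 0 => by decide
  | 1 => by decide
  | 2 => by decide
  | x + 3 => by
    have ih := num5 x
    have e1 : t3 (x + 3) = t3 x + (2 * x + 3) := by
      unfold t3
      have : (x + 3) ^ 2 = x ^ 2 + 3 * (2 * x + 3) := by ring
      rw [this]
      omega
    have e2 : t3 (x + 3 + 5) = t3 (x + 5) + (2 * x + 3 + 10) := by
      unfold t3
      have : (x + 3 + 5) ^ 2 = (x + 5) ^ 2 + 3 * (2 * x + 3 + 10) := by ring
      rw [this]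
      omega
    rw [e1, e2, pow_add, pow_add 2 (t3 (x + 5)), pow_add 2 (2 * x + 3) 10, pow_add 10 x 3]
    have h1 : (0 : ℕ) < 2 ^ (2 * x + 3) := by positivity
    calc 2 ^ t3 x * 2 ^ (2 * x + 3) * (200 * (10 ^ x * 10 ^ 3))
        = (2 ^ t3 x * (200 * 10 ^ x)) * (2 ^ (2 * x + 3) * 1000) := by ring
      _ < 2 ^ t3 (x + 5) * (2 ^ (2 * x + 3) * 1000) :=
          Nat.mul_lt_mul_of_pos_right ih (by positivity)
      _ ≤ 2 ^ t3 (x + 5) * (2 ^ (2 * x + 3) * 2 ^ 10) :=
          Nat.mul_le_mul_left _ (Nat.mul_le_mul_left _ (by norm_num))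

/-- at most three parts -/
theorem ed_le_t3 (L : List ℕ) (hL : L.length ≤ 3) : ed L ≤ t3 L.sum := by
  unfold t3
  rw [Nat.le_div_iff_mul_le (by norm_num)]
  match L with
  | [] => simp [ed]
  | [a] => simp [ed]
  | [a, b] =>
    simp only [ed, List.sum_cons, List.sum_nil]
    zify
    nlinarith [sq_nonneg ((a : ℤ) - b), sq_nonneg ((a : ℤ) + b)]
  | [a, b, c] =>
    simp only [ed, List.sum_cons, List.sum_nil]
    zify
    nlinarith [sq_nonneg ((a : ℤ) - b), sq_nonneg ((b : ℤ) - c), sq_nonneg ((a : ℤ) - c)]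
  | a :: b :: c :: d :: M =>
    simp only [List.length_cons] at hL
    omega

end TUR
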