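import Pool.Agent.TUR.T4A

namespace TUR

open SimpleGraph Classical

/-- the oriented triangle is cyclic -/
def cyc (b1 b2 b3 : Bool) : Bool := (b1 == b3) && (b1 != b2)

theorem cnt3_eq : ∀ b1 b2 b3 : Bool,
    ((Finset.univ : Finset (Bool × Bool × Bool)).filter
      (fun p => ¬ isT TT b1 b2 b3 p.1 p.2.1 p.2.2)).card = if cyc b1 b2 b3 then 8 else 4 := by
  decide +kernel

/-- attachments to the triangle `i j l` of a `TT`-free `K_4` -/
theorem att_tri {σ : Fin 4 → Fin 4 → Prop} (hσ : IsOrientation (⊤ : SimpleGraph (Fin 4)) σ)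
    (hσ' : ¬ HasCopy (toP TT) σ)
    {i j l : Fin 4} (hij : i < j) (hjl : j < l) (N : Fin 4 → Prop)
    (hN : ∀ v, N v ↔ v = i ∨ v = j ∨ v = l) :
    (att (toP TT) σ N).card ≤
      if cyc (decide (σ i j)) (decide (σ i l)) (decide (σ j l)) then 8 else 4 := by
  rw [← cnt3_eq]
  refine Finset.card_le_card_of_injOn (fun x => (decide (x i), decide (x j), decide (x l))) ?_ ?_
  · intro x hx
    rw [Finset.mem_coe, mem_att] at hx
    rw [Finset.mem_coe, Finset.mem_filter]
    refine ⟨Finset.mem_univ _, fun hT => hx.2 ?_⟩
    rw [hasCopy_ext_iff hσ hx.1 isTourT hσ']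
    refine ⟨i, j, l, hij, hjl, by rw [top_adj]; exact hij.ne, by
      rw [top_adj]; exact (hij.trans hjl).ne, by rw [top_adj]; exact hjl.ne,
      (hN i).2 (Or.inl rfl), (hN j).2 (Or.inr (Or.inl rfl)), (hN l).2 (Or.inr (Or.inr rfl)), hT⟩
  · intro x hx x' hx' h
    rw [Finset.mem_coe, mem_att] at hx hx'
    simp only [Prod.mk.injEq, decide_eq_decide] at h
    funext a
    apply propext
    by_cases ha : N a
    · rcases (hN a).1 ha with rfl | rfl | rfl
      · exact h.1
      · exact h.2.1
      · exact h.2.2
    · have h1 : ¬ x a := fun h => ha (hx.1 a h)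
      have h2 : ¬ x' a := fun h => ha (hx'.1 a h)
      simp [h1, h2]

/-- the pattern of a code -/
def mk (n : ℕ) : Bool × Bool × Bool × Bool × Bool :=
  (okQ tqT qs1111 n, cyc (n.testBit 0) (n.testBit 1) (n.testBit 2),
    cyc (n.testBit 0) (n.testBit 3) (n.testBit 4), cyc (n.testBit 1) (n.testBit 3) (n.testBit 5),
    cyc (n.testBit 2) (n.testBit 4) (n.testBit 5))

/-- the weight of a pattern -/
def wt (a b c d : ℕ) (t : Bool × Bool × Bool × Bool × Bool) : ℕ :=
  if t.1 then (if t.2.1 then 8 else 4) ^ a * (if t.2.2.1 then 8 else 4) ^ b *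
    (if t.2.2.2.1 then 8 else 4) ^ c * (if t.2.2.2.2 then 8 else 4) ^ d else 0

theorem prod_blk4 (a b c d : ℕ) (f : ℕ → ℕ) :
    ∏ v : Vt [a, b, c, d], f (blk [a, b, c, d] v) = f 3 ^ a * f 2 ^ b * f 1 ^ c * f 0 ^ d := by
  have step : ∀ (p : ℕ) (L : List ℕ), ∏ v : Vt (p :: L), f (blk (p :: L) v) =
      (∏ v : Vt L, f (blk L v)) * f L.length ^ p := by
    intro p L
    have h := Fintype.prod_sum_type (α₁ := Vt L) (α₂ := Fin p)
      (fun v : Vt L ⊕ Fin p => f (blk (p :: L) v))
    refine h.trans ?_
    congr 1
    have : ∀ x : Fin p, f (blk (p :: L) (Sum.inr x)) = f L.length := fun x => rfl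
    simp only [this, Finset.prod_const, Finset.card_univ, Fintype.card_fin]
  have h0 : ∏ v : Vt [], f (blk [] v) = 1 := by
    refine Finset.prod_eq_one fun v _ => ?_
    exact nomatch v
  rw [step, step, step, step, h0]
  simp only [List.length_cons, List.length_nil]
  ring

/-- the sum over the `TT`-free orientations of `K_4` -/
theorem K4sum_le (a b c d : ℕ) :
    ∑ σ ∈ free (toP TT) (⊤ : SimpleGraph (Fin 4)), ∏ v : Vt [a, b, c, d],
      (att (toP TT) σ (fun j => (j : ℕ) ≠ blk [a, b, c, d] v)).card ≤
    ∑ n ∈ Finset.range 64, wt a b c d (mk n) := by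
  rw [sum_codes E4top, Finset.sum_filter]
  refine Finset.sum_le_sum fun n _ => ?_
  by_cases hc : HasCopy (toP TT) (dec es1111 n)
  · rw [if_neg (fun h => h hc)]
    exact Nat.zero_le _
  · rw [if_pos hc]
    have h1 : okQ tqT qs1111 n = true := (okQ_spec E4top isTourT tabT Q1111 n).1 hc
    have hori := dec_ori E4top n
    unfold wt mk
    simp only [h1, if_true]
    have hp := prod_blk4 a b c d
      (fun i => (att (toP TT) (dec es1111 n) (fun j : Fin 4 => (j : ℕ) ≠ i)).card)
    refine hp.le.trans ?_
    have b01 := (dec_bit E4top n (i := 0) (j := 1) (by decide) (by decide)).1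
    have b02 := (dec_bit E4top n (i := 0) (j := 2) (by decide) (by decide)).1
    have b12 := (dec_bit E4top n (i := 1) (j := 2) (by decide) (by decide)).1
    have b03 := (dec_bit E4top n (i := 0) (j := 3) (by decide) (by decide)).1
    have b13 := (dec_bit E4top n (i := 1) (j := 3) (by decide) (by decide)).1
    have b23 := (dec_bit E4top n (i := 2) (j := 3) (by decide) (by decide)).1
    have t3 := att_tri hori hc (i := 0) (j := 1) (l := 2) (by decide) (by decide)
      (fun j : Fin 4 => (j : ℕ) ≠ 3) (by decide)
    have t2 := att_tri hori hc (i := 0) (j := 1) (l := 3) (by decide) (by decide)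
      (fun j : Fin 4 => (j : ℕ) ≠ 2) (by decide)
    have t1 := att_tri hori hc (i := 0) (j := 2) (l := 3) (by decide) (by decide)
      (fun j : Fin 4 => (j : ℕ) ≠ 1) (by decide)
    have t0 := att_tri hori hc (i := 1) (j := 2) (l := 3) (by decide) (by decide)
      (fun j : Fin 4 => (j : ℕ) ≠ 0) (by decide)
    rw [b01, b02, b12] at t3
    rw [b01, b03, b13] at t2
    rw [b02, b03, b23] at t1
    rw [b12, b13, b23] at t0
    exact Nat.mul_le_mul (Nat.mul_le_mul (Nat.mul_le_mul (Nat.pow_le_pow_left t3 a)
      (Nat.pow_le_pow_left t2 b)) (Nat.pow_le_pow_left t1 c)) (Nat.pow_le_pow_left t0 d)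

theorem mk_list : (List.range 64).map mk =
    [(false, false, false, false, false), (false, false, false, false, false), (true, true, false, false, false), (false, false, false, false, false), (false, false, false, false, false), (true, true, false, false, false), (false, false, false, false, false), (false, false, false, false, false), (true, false, true, true, false), (true, false, false, true, false), (true, true, true, false, false), (false, false, false, false, false), (true, false, true, true, false), (true, true, false, true, false), (true, false, true, false, false), (false, false, false, false, false), (true, false, false, false, true), (true, false, true, false, true), (true, true, false, false, true), (true, false, true, false, true), (false, false, false, false, false), (true, true, true, false, false), (false, false, false, false, false), (true, false, true, false, false), (true, false, false, true, true), (true, false, false, true, true), (true, true, false, false, true), (true, false, false, false, true), (true,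 false, false, true, false), (true, true, false, true, false), (false, false, false, false, false), (false, false, false, false, false), (false, false, false, false, false), (false, false, false, false, false), (true, true, false, true, false), (true, false, false, true, false), (true, false, false, false, true), (true, true, false, false, true), (true, false, false, true, true), (true, false, false, true, true), (true, false, true, false, false), (false, false, false, false, false), (true, true, true, false, false), (false, false, false, false, false), (true, false, true, false, true), (true, true, false, false, true), (true, false, true, false, true), (true, false, false, false, true), (false, false, false, false, false), (true, false, true, false, false), (true, true, false, true, false), (true, false, true, true, false), (false, false, false, false, false), (true, true, true, false, false), (true, false, false, true, false), (true, false, true, true, false), (false, false, false, false, false), (false, false, false, false, false),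 (true, true, false, false, false), (false, false, false, false, false), (false, false, false, false, false), (true, true, false, false, false), (false, false, false, false, false), (false, false, false, false, false)] := by
  decide +kernel

/-- the sum over the patterns -/
theorem wt_sum (a b c d : ℕ) : ∑ n ∈ Finset.range 64, wt a b c d (mk n) =
    4 * 4 ^ a * 4 ^ b * 4 ^ c * 4 ^ d * (2 ^ a + 2 ^ b + 2 ^ c + 2 ^ d + 2 ^ a * 2 ^ b +
      2 ^ a * 2 ^ c + 2 ^ a * 2 ^ d + 2 ^ b * 2 ^ c + 2 ^ b * 2 ^ d + 2 ^ c * 2 ^ d) := by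
  have h1 : ∑ n ∈ Finset.range 64, wt a b c d (mk n) =
      (((List.range 64).map mk).map (wt a b c d)).sum := by
    rw [List.map_map]
    rfl
  have h8 : ∀ x : ℕ, 8 ^ x = 2 ^ x * 4 ^ x := fun x => by rw [← mul_pow]; norm_num
  rw [h1, mk_list]
  simp only [List.map_cons, List.map_nil, List.sum_cons, List.sum_nil, wt, if_true,
    Bool.false_eq_true, if_false, h8]
  ring

/-- **Four parts.** -/
theorem T_four (a b c d : ℕ) : F (toP TT) [a + 1, b + 1, c + 1, d + 1] ≤
    F (toP TT) [a, b, c, d] *
      (4 * 4 ^ a * 4 ^ b * 4 ^ c * 4 ^ d * (2 ^ a + 2 ^ b + 2 ^ c + 2 ^ d + 2 ^ a * 2 ^ b +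
      2 ^ a * 2 ^ c + 2 ^ a * 2 ^ d + 2 ^ b * 2 ^ c + 2 ^ b * 2 ^ d + 2 ^ c * 2 ^ d)) := by
  rw [← wt_sum]
  refine (F_le_clique (fun j : Fin 4 => (j : ℕ)) Fin.val_injective
    [a + 1, b + 1, c + 1, d + 1] [a, b, c, d] ?_).trans ?_
  · intro i
    simp only [fib_cons, fib_nil, List.length_cons, List.length_nil]
    have h5 : fib (fun j : Fin 4 => (j : ℕ)) i =
        (if 0 = i then 1 else 0) + (if 1 = i then 1 else 0) +
        (if 2 = i then 1 else 0) + (if 3 = i then 1 else 0) := by
      unfold fib
      rw [Fin.sum_univ_four]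
      rfl
    rw [h5]
    split_ifs <;> omega
  · exact Nat.mul_le_mul_left _ (K4sum_le a b c d)

/-- the exponent -/
def Ex (a b c d : ℕ) : ℕ := a * b + (a + b) * (c + d)

theorem Ex_succ (a b c d : ℕ) : Ex (a + 1) (b + 1) (c + 1) (d + 1) =
    Ex a b c d + (3 * (a + b) + 2 * (c + d) + 5) := by
  unfold Ex
  ring

theorem two_pow_Ex_succ (a b c d : ℕ) : 2 ^ Ex (a + 1) (b + 1) (c + 1) (d + 1) =
    2 ^ Ex a b c d * (4 * 4 ^ a * 4 ^ b * 4 ^ c * 4 ^ d * (8 * (2 ^ a * 2 ^ b))) := by
  rw [Ex_succ, pow_add]
  congr 1
  have h4 : ∀ x : ℕ, 4 ^ x = 2 ^ (2 * x) := fun x => by rw [pow_mul]; norm_num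
  rw [h4, h4, h4, h4]
  rw [show (4 : ℕ) = 2 ^ 2 by norm_num, show (8 : ℕ) = 2 ^ 3 by norm_num]
  rw [← pow_add, ← pow_add, ← pow_add, ← pow_add, ← pow_add, ← pow_add, ← pow_add]
  congr 1
  ring

/-- the main numerical inequality -/
theorem Y_le {a b c d : ℕ} (hab : b ≤ a) (hbc : c ≤ b) (hcd : d ≤ c) :
    (a = 0 → 2 ^ a + 2 ^ b + 2 ^ c + 2 ^ d + 2 ^ a * 2 ^ b +
      2 ^ a * 2 ^ c + 2 ^ a * 2 ^ d + 2 ^ b * 2 ^ c + 2 ^ b * 2 ^ d + 2 ^ c * 2 ^ d = 10) ∧
    (1 ≤ a → 2 ^ a + 2 ^ b + 2 ^ c + 2 ^ d + 2 ^ a * 2 ^ b +
      2 ^ a * 2 ^ c + 2 ^ a * 2 ^ d + 2 ^ b * 2 ^ c + 2 ^ b * 2 ^ d + 2 ^ c * 2 ^ d ≤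
        8 * (2 ^ a * 2 ^ b)) ∧
    (d < a → 2 ^ a + 2 ^ b + 2 ^ c + 2 ^ d + 2 ^ a * 2 ^ b +
      2 ^ a * 2 ^ c + 2 ^ a * 2 ^ d + 2 ^ b * 2 ^ c + 2 ^ b * 2 ^ d + 2 ^ c * 2 ^ d <
        8 * (2 ^ a * 2 ^ b)) := by
  have m1 : 2 ^ b ≤ 2 ^ a := Nat.pow_le_pow_right (by norm_num) hab
  have m2 : 2 ^ c ≤ 2 ^ b := Nat.pow_le_pow_right (by norm_num) hbc
  have m3 : 2 ^ d ≤ 2 ^ c := Nat.pow_le_pow_right (by norm_num) hcd
  have p0 : 1 ≤ 2 ^ d := Nat.one_le_two_pow
  refine ⟨?_, ?_, ?_⟩
  · rintro rfl
    obtain rfl : b = 0 := by omega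
    obtain rfl : c = 0 := by omega
    obtain rfl : d = 0 := by omega
    norm_num
  · intro ha
    have q1 : 2 ^ 1 ≤ 2 ^ a := Nat.pow_le_pow_right (by norm_num) ha
    rcases Nat.eq_zero_or_pos b with rfl | hb
    · obtain rfl : c = 0 := by omega
      obtain rfl : d = 0 := by omega
      simp only [pow_zero, mul_one, pow_one] at *
      omega
    · have q2 : 2 ^ 1 ≤ 2 ^ b := Nat.pow_le_pow_right (by norm_num) hb
      generalize 2 ^ a = A at *
      generalize 2 ^ b = B at *
      generalize 2 ^ c = C at *
      generalize 2 ^ d = D at *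
      nlinarith [Nat.mul_le_mul_left A m2, Nat.mul_le_mul_left A m3, Nat.mul_le_mul m1 m2,
        Nat.mul_le_mul m1 m3, Nat.mul_le_mul_left A q2]
  · intro hda
    have q1 : 2 ^ (d + 1) ≤ 2 ^ a := Nat.pow_le_pow_right (by norm_num) hda
    rw [pow_succ] at q1
    rcases Nat.eq_zero_or_pos b with rfl | hb
    · obtain rfl : c = 0 := by omega
      obtain rfl : d = 0 := by omega
      simp only [pow_zero, mul_one, pow_one] at *
      omega
    · have q2 : 2 ^ 1 ≤ 2 ^ b := Nat.pow_le_pow_right (by norm_num) hb
      generalize 2 ^ a = A at *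
      generalize 2 ^ b = B at *
      generalize 2 ^ c = C at *
      generalize 2 ^ d = D at *
      have n1 : A * C ≤ A * B := Nat.mul_le_mul_left A m2
      have n2 : A * D ≤ A * B := Nat.mul_le_mul_left A (m3.trans m2)
      have n3 : B * C ≤ A * B := Nat.mul_le_mul m1 m2
      have n4 : B * D ≤ A * B := Nat.mul_le_mul m1 (m3.trans m2)
      have n5 : 2 * (C * D) ≤ A * B := by
        calc 2 * (C * D) = (D * 2) * C := by ring
          _ ≤ A * B := Nat.mul_le_mul q1 m2
      have n6 : A * 2 ≤ A * B := Nat.mul_le_mul_left A q2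
      have n7 : 0 < A * B := by
        have : 0 < A := by omega
        have : 0 < B := by omega
        positivity
      omega

end TUR
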