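import Pool.Agent.TUR.Iso
import Pool.Agent.TUR.Enum

namespace TUR

open SimpleGraph Classical

/-- ordered edges -/
noncomputable def el {n : ℕ} (G : SimpleGraph (Fin n)) : List (Fin n × Fin n) :=
  ((Finset.univ : Finset (Fin n × Fin n)).filter (fun p => p.1 < p.2 ∧ G.Adj p.1 p.2)).toList

theorem mem_el {n : ℕ} {G : SimpleGraph (Fin n)} (p : Fin n × Fin n) :
    p ∈ el G ↔ p.1 < p.2 ∧ G.Adj p.1 p.2 := by
  simp [el]

theorem el_spec {n : ℕ} (G : SimpleGraph (Fin n)) : ESpec G (el G) := by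
  refine ⟨Finset.nodup_toList _, fun e he => ((mem_el e).1 he).1, fun i j hij => ?_⟩
  rw [mem_el]
  exact ⟨fun h => ⟨hij, h⟩, fun h => h.2⟩

theorem el_length {n : ℕ} (G : SimpleGraph (Fin n)) [DecidableRel G.Adj] :
    (el G).length = G.edgeFinset.card := by
  unfold el
  rw [Finset.length_toList]
  refine Finset.card_bij (fun p _ => s(p.1, p.2)) ?_ ?_ ?_
  · intro p hp
    have hp := (mem_el p).1 (Finset.mem_toList.2 hp)
    rw [mem_edgeFinset, mem_edgeSet]
    exact hp.2
  · intro p hp q hq h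
    have hp := (mem_el p).1 (Finset.mem_toList.2 hp)
    have hq := (mem_el q).1 (Finset.mem_toList.2 hq)
    rw [Sym2.eq_iff] at h
    rcases h with h | h
    · exact Prod.ext h.1 h.2
    · exfalso
      have h1 := hp.1
      have h2 := hq.1
      rw [h.1, h.2] at h1
      exact lt_asymm h1 h2
  · intro e he
    induction e with
    | _ u v =>
      rw [mem_edgeFinset, mem_edgeSet] at he
      rcases lt_or_gt_of_ne he.ne with h | h
      · exact ⟨(u, v), Finset.mem_toList.1 ((mem_el (u, v)).2 ⟨h, he⟩), rfl⟩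
      · exact ⟨(v, u), Finset.mem_toList.1 ((mem_el (v, u)).2 ⟨h, he.symm⟩), Sym2.eq_swap⟩

theorem not_copy {V : Type*} {TB : Fin 4 → Fin 4 → Bool} (hT : IsTournament (toP TB))
    {G : SimpleGraph V} (hG : G.CliqueFree 4) {D : V → V → Prop} (hD : IsOrientation G D) :
    ¬ HasCopy (toP TB) D := by
  rintro ⟨f, hf, h⟩
  have hadj : ∀ i j, i ≠ j → G.Adj (f i) (f j) := by
    intro i j hij
    by_cases hT1 : toP TB i j
    · exact hD.1 _ _ ((h i j).1 hT1)
    · have : toP TB j i := (hT.2 j i (by simpa using hij.symm)).2 hT1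
      exact (hD.1 _ _ ((h j i).1 this)).symm
  refine hG (Finset.univ.map ⟨f, hf⟩) ⟨?_, by simp⟩
  intro x hx y hy hxy
  rw [Finset.mem_coe, Finset.mem_map] at hx hy
  obtain ⟨i, -, rfl⟩ := hx
  obtain ⟨j, -, rfl⟩ := hy
  exact hadj i j (fun e => hxy (by rw [e]))

/-- the number of orientations -/
theorem nf_cliqueFree {n : ℕ} {TB : Fin 4 → Fin 4 → Bool} (hT : IsTournament (toP TB))
    (G : SimpleGraph (Fin n)) (hG : G.CliqueFree 4) : nf (toP TB) G = 2 ^ (el G).length := by
  have h := sum_codes (el_spec G) (TB := TB) (fun _ => (1 : ℕ))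
  rw [Finset.sum_const, smul_eq_mul, mul_one, Finset.sum_const, smul_eq_mul, mul_one] at h
  have h1 : nf (toP TB) G = _ := h
  rw [h1, Finset.filter_true_of_mem, Finset.card_range]
  intro c _
  exact not_copy hT hG (dec_ori (el_spec G) c)

theorem edges_turan (n : ℕ) : (el (turanGraph n 3)).length = t3 n := by
  rw [el_length, card_edgeFinset_turanGraph]
  unfold t3
  have h : n = 3 * (n / 3) + n % 3 := (Nat.div_add_mod n 3).symm
  have h2 : n % 3 < 3 := Nat.mod_lt _ (by norm_num)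
  generalize n / 3 = q at *
  generalize hr : n % 3 = r at *
  have : r = 0 ∨ r = 1 ∨ r = 2 := by omega
  rcases this with rfl | rfl | rfl
  · have e1 : n ^ 2 = 3 * (3 * q ^ 2) := by rw [h]; ring
    rw [e1]
    simp
    omega
  · have e1 : n ^ 2 = 3 * (3 * q ^ 2 + 2 * q) + 1 := by rw [h]; ring
    rw [e1]
    simp
    omega
  · have e1 : n ^ 2 = 3 * (3 * q ^ 2 + 4 * q + 1) + 1 := by rw [h]; ring
    rw [e1]
    simp
    omega

theorem nf_turan {TB : Fin 4 → Fin 4 → Bool} (hT : IsTournament (toP TB)) (n : ℕ) :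
    nf (toP TB) (turanGraph n 3) = 2 ^ t3 n := by
  rw [nf_cliqueFree hT _ (turanGraph_cliqueFree (by norm_num)), edges_turan]

end TUR
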