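import Pool.Agent.TUR.Turan

namespace TUR

open SimpleGraph Classical

/-- **From the multipartite bound to uniqueness.** -/
theorem uniq_aux {TB : Fin 4 → Fin 4 → Bool} (hT : IsTournament (toP TB)) (n : ℕ)
    (h : ∀ L : List ℕ, 4 ≤ L.length → (∀ p ∈ L, 1 ≤ p) → L.sum = n →
      F (toP TB) L < 2 ^ t3 n) {G0 : SimpleGraph (Fin n)}
    (hM : ∀ G : SimpleGraph (Fin n), nf (toP TB) G ≤ nf (toP TB) G0) :
    Nonempty (G0 ≃g turanGraph n 3) := by
  have hTur : 2 ^ t3 n ≤ nf (toP TB) G0 := by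
    rw [← nf_turan hT n]
    exact hM _
  have hfree : G0.CliqueFree 4 := by
    intro C hC
    obtain ⟨G', a, b, c⟩ := exists_multipartite hT hM C rfl hC.isClique
    obtain ⟨L, hL, ⟨e⟩⟩ := exists_list n G' (Fintype.card_fin n) c
    have hlen : 4 ≤ L.length := by
      have h1 := clique_le L (C.map e.toEquiv.toEmbedding) (by
        intro x hx y hy hxy
        rw [Finset.mem_coe, Finset.mem_map] at hx hy
        obtain ⟨u, hu, rfl⟩ := hx
        obtain ⟨v, hv, rfl⟩ := hy
        have huv : u ≠ v := fun e => hxy (by rw [e])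
        exact e.map_rel_iff.2 (b hu hv huv))
      rw [Finset.card_map, hC.card_eq] at h1
      exact h1
    have hsum : L.sum = n := by
      rw [← card_Vt, ← Fintype.card_congr e.toEquiv, Fintype.card_fin]
    have h2 := h L hlen hL hsum
    have h3 : nf (toP TB) G' = F (toP TB) L := nf_congr _ e
    rw [a] at h3
    omega
  have h1 := nf_cliqueFree hT G0 hfree
  have hmax : G0.IsTuranMaximal 3 := by
    refine ⟨hfree, ?_⟩
    intro H _ hH
    have h2 := nf_cliqueFree hT H hH
    have h3 := hM H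
    rw [h1, h2, Nat.pow_le_pow_iff_right (by norm_num)] at h3
    rw [el_length, el_length] at h3
    exact h3
  have h4 := (isTuranMaximal_iff_nonempty_iso_turanGraph (by norm_num)).1 hmax
  rwa [Fintype.card_fin] at h4

theorem turanUnique_of {TB : Fin 4 → Fin 4 → Bool} (hT : IsTournament (toP TB)) (n : ℕ)
    (h : ∀ L : List ℕ, 4 ≤ L.length → (∀ p ∈ L, 1 ≤ p) → L.sum = n →
      F (toP TB) L < 2 ^ t3 n) : TuranUnique (toP TB) n := by
  obtain ⟨G0, hG0⟩ : ∃ G0 : SimpleGraph (Fin n), ∀ G : SimpleGraph (Fin n),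
      nf (toP TB) G ≤ nf (toP TB) G0 :=
    Finite.exists_max (fun G : SimpleGraph (Fin n) => nf (toP TB) G)
  intro G
  constructor
  · intro hG
    refine uniq_aux hT n h (G0 := G) fun G' => ?_
    have := hG G'
    rwa [numFree_eq, numFree_eq] at this
  · rintro ⟨e⟩ G'
    obtain ⟨e0⟩ := uniq_aux hT n h hG0
    rw [numFree_eq, numFree_eq, nf_congr _ e, ← nf_congr _ e0]
    exact hG0 G'

/-- non-uniqueness -/
theorem not_turanUnique {TB : Fin 4 → Fin 4 → Bool} (hT : IsTournament (toP TB)) (n : ℕ)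
    (L : List ℕ) (hsum : L.sum = n) (h : 2 ^ t3 n < F (toP TB) L) :
    ¬ TuranUnique (toP TB) n := by
  intro hU
  have h1 := (hU (turanGraph n 3)).2 ⟨Iso.refl⟩
  have hc : Fintype.card (Vt L) = n := by rw [card_Vt, hsum]
  let e : Vt L ≃ Fin n := Fintype.equivFinOfCardEq hc
  have h2 := h1 ((Gt L).comap e.symm)
  rw [numFree_eq, numFree_eq, nf_turan hT] at h2
  have h3 : nf (toP TB) ((Gt L).comap e.symm) = F (toP TB) L := by
    refine nf_congr _ ⟨e.symm, ?_⟩
    intro a b
    rfl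
  omega

end TUR
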